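import Pool.Agent.W666.GB.Main

/-!
# Definitions and statements for the four-plane theorem
-/

set_option autoImplicit false

namespace Pool.Agent.W669.HD

open Pool.Agent.W666.GB Finset

section vector

variable {V : Type*} [NormedAddCommGroup V] [InnerProductSpace ℝ V]

/-- Symmetric bilinear forms on the bivectors of `V`, written as `4`-tensors. (Linearity in the
first argument and the symmetries imply linearity in every argument.) -/
structure BiForm (K : V → V → V → V → ℝ) : Prop where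
  add : ∀ x x' y z w, K (x + x') y z w = K x y z w + K x' y z w
  smul : ∀ (t : ℝ) (x y z w : V), K (t • x) y z w = t * K x y z w
  anti : ∀ x y z w, K y x z w = - K x y z w
  pair : ∀ x y z w, K z w x y = K x y z w

/-- Alternating `4`-forms on `V`. -/
structure FourForm (ω : V → V → V → V → ℝ) : Prop extends BiForm ω where
  alt : ∀ x y z w, ω x z y w = - ω x y z w

/-- The form is nonnegative on all bivectors `∑ a, x a ∧ y a`. -/
def OpNonneg (K : V → V → V → V → ℝ) : Prop :=
  ∀ (n : ℕ) (x y : Fin n → V), 0 ≤ ∑ a, ∑ b, K (x a) (y a) (x b) (y b)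

/-- The form lives on the subspace `W`: it vanishes when an argument is orthogonal to `W`. -/
def LivesOn (W : Submodule ℝ V) (K : V → V → V → V → ℝ) : Prop :=
  ∀ x ∈ Wᗮ, ∀ y z w, K x y z w = 0

/-- The Bianchi sum of a form; it vanishes for curvature tensors and is `3 ω` for a `4`-form. -/
def cyc (K : V → V → V → V → ℝ) (x y z w : V) : ℝ :=
  K x y z w + K y z x w + K z x y w

/-- The sum of two forms. -/
def addT (K L : V → V → V → V → ℝ) (x y z w : V) : ℝ := K x y z w + L x y z w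

/-- The negative of a form. -/
def negT (K : V → V → V → V → ℝ) (x y z w : V) : ℝ := - K x y z w

/-- The pointwise hypothesis: for some subspace `W` of dimension at most four, some `4`-form `ω`
on `W` and some form `K ≥ 0` on the bivectors of `W`, one has `-(R + ω) ≥ K`, and the Bianchi
sums satisfy `(cyc ω)² ≤ 2 (cyc K)²`. -/
def FourPlane (R : V → V → V → V → ℝ) : Prop :=
  ∃ (W : Submodule ℝ V) (ω K : V → V → V → V → ℝ),
    Module.finrank ℝ W ≤ 4 ∧ FourForm ω ∧ LivesOn W ω ∧ BiForm K ∧ LivesOn W K ∧ OpNonneg K ∧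
      OpNonneg (negT (addT (addT R ω) K)) ∧
      ∀ x y z w, cyc ω x y z w ^ 2 ≤ 2 * cyc K x y z w ^ 2

end vector

/-- mixed discriminant of a form in four dimensions (up to a factor the Gauss–Bonnet–Chern
integrand) -/
def kap (K : Fin 4 → Fin 4 → Fin 4 → Fin 4 → ℝ) : ℝ :=
  ∑ π : Equiv.Perm (Fin 4), ∑ π' : Equiv.Perm (Fin 4), sn π * sn π' *
    (K (π 0) (π 1) (π' 0) (π' 1) * K (π 2) (π 3) (π' 2) (π' 3))

/-- alternating sum of the components -/
def bet (K : Fin 4 → Fin 4 → Fin 4 → Fin 4 → ℝ) : ℝ :=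
  ∑ π : Equiv.Perm (Fin 4), sn π * K (π 0) (π 1) (π 2) (π 3)

/-- Levi-Civita symbol -/
def eps (i j k l : Fin 4) : ℝ :=
  Matrix.det (Matrix.of fun a b : Fin 4 => if ![i, j, k, l] a = b then (1 : ℝ) else 0)

/-- D4: the four-dimensional inequality and its value at a `4`-form -/
def S_D4 : Prop :=
  (∀ (n : ℕ) (ν : Fin n → Fin 4 → Fin 4 → ℝ), (∀ a i j, ν a j i = - ν a i j) →
    bet (fun i j k l => ∑ a, ν a i j * ν a k l) ^ 2 ≤
      3 * kap (fun i j k l => ∑ a, ν a i j * ν a k l)) ∧
  (∀ t : ℝ, 6 * kap (fun i j k l => t * eps i j k l) = bet (fun i j k l => t * eps i j k l) ^ 2)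

/-- THO: a form with nonnegative sectional values in dimension four becomes nonnegative after
adding a multiple of the Levi-Civita symbol -/
def S_THO : Prop :=
  ∀ K : Fin 4 → Fin 4 → Fin 4 → Fin 4 → ℝ,
    (∀ i j k l, K j i k l = - K i j k l) → (∀ i j k l, K k l i j = K i j k l) →
    (∀ a b : Fin 4 → ℝ, 0 ≤ ∑ i, ∑ j, ∑ k, ∑ l, K i j k l * (a i * b j * a k * b l)) →
    ∃ t : ℝ, ∀ x : Fin 4 → Fin 4 → ℝ, (∀ i j, x j i = - x i j) →
      0 ≤ ∑ i, ∑ j, ∑ k, ∑ l, (K i j k l + t * eps i j k l) * (x i j * x k l)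

/-- BAS: the Gauss–Bonnet–Chern integrand does not depend on the orthonormal basis -/
def S_BAS : Prop :=
  ∀ (m : ℕ) (V : Type) [NormedAddCommGroup V] [InnerProductSpace ℝ V]
    (e e' : OrthonormalBasis (Fin m × Bool) ℝ V) (R : V → V → V → V → ℝ), AlgCurv R →
    gbc e R = gbc e' R

/-- ADB: adapted bases -/
def S_ADB : Prop :=
  ∀ (m : ℕ) (V : Type) [NormedAddCommGroup V] [InnerProductSpace ℝ V]
    (_ : OrthonormalBasis (Fin m × Bool) ℝ V) (W : Submodule ℝ V), 2 ≤ m →
    Module.finrank ℝ W ≤ 4 →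
    ∃ (e' : OrthonormalBasis (Fin m × Bool) ℝ V) (r : Fin 4 → Fin m × Bool),
      Function.Injective r ∧ ∀ j, (∀ i, r i ≠ j) → e' j ∈ Wᗮ

/-- SUM: a sum of a nonpositively curved tensor living on a subspace of dimension at most four and
a tensor with nonpositive curvature operator satisfies the pointwise hypothesis -/
def S_SUM : Prop :=
  ∀ (m : ℕ) (V : Type) [NormedAddCommGroup V] [InnerProductSpace ℝ V]
    (_ : OrthonormalBasis (Fin m × Bool) ℝ V) (R₁ R₂ : V → V → V → V → ℝ) (W : Submodule ℝ V),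
    AlgCurv R₁ → AlgCurv R₂ → Module.finrank ℝ W ≤ 4 → LivesOn W R₁ →
    (∀ x y, R₁ x y x y ≤ 0) → OpNonneg (negT R₂) → FourPlane (addT R₁ R₂)

end Pool.Agent.W669.HD
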