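import Pool.Agent.W669.HD.Stm
import Mathlib.Analysis.Matrix.Order

/-!
# Squares
-/

set_option autoImplicit false

namespace Pool.Agent.W669.HD

open Finset

open scoped MatrixOrder in
theorem sq_real {J : Type} [Fintype J] [DecidableEq J] (A : Matrix J J ℝ)
    (hs : ∀ p q, A p q = A q p) (hnn : ∀ x : J → ℝ, 0 ≤ ∑ p, ∑ q, A p q * (x p * x q)) :
    ∃ B : Matrix J J ℝ, ∀ p q, A p q = ∑ a, B a p * B a q := by
  have h : A.PosSemidef := by
    refine Matrix.PosSemidef.of_dotProduct_mulVec_nonneg ?_ ?_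
    · ext p q
      simp [Matrix.conjTranspose_apply, hs q p]
    · intro x
      have h1 : star x ⬝ᵥ (A.mulVec x) = ∑ p, ∑ q, A p q * (x p * x q) := by
        simp only [star_trivial, dotProduct, Matrix.mulVec, Finset.mul_sum]
        refine Finset.sum_congr rfl fun p _ => Finset.sum_congr rfl fun q _ => ?_
        ring
      rw [h1]
      exact hnn x
  obtain ⟨B, hB⟩ := CStarAlgebra.nonneg_iff_eq_star_mul_self.mp h.nonneg
  refine ⟨B, fun p q => ?_⟩
  rw [hB]
  simp [Matrix.mul_apply, Matrix.star_eq_conjTranspose]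

variable {V : Type*} [NormedAddCommGroup V] [InnerProductSpace ℝ V]

theorem BiForm.a34 {K : V → V → V → V → ℝ} (h : BiForm K) (x y z w : V) :
    K x y w z = - K x y z w := by
  rw [← h.pair x y w z, h.anti, h.pair]

theorem BiForm.smul3 {K : V → V → V → V → ℝ} (h : BiForm K) (t : ℝ) (x y z w : V) :
    K x y (t • z) w = t * K x y z w := by
  rw [← h.pair, h.smul, h.pair]

theorem BiForm.squares {J : Type} [Fintype J] (e : J → V) {K : V → V → V → V → ℝ}
    (hK : BiForm K) (hn : OpNonneg K) :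
    ∃ (n : ℕ) (ν : Fin n → J → J → ℝ), (∀ a i j, ν a j i = - ν a i j) ∧
      ∀ i j k l, K (e i) (e j) (e k) (e l) = ∑ a, ν a i j * ν a k l := by
  classical
  obtain ⟨B, hB⟩ := sq_real (J := J × J) (fun p q => K (e p.1) (e p.2) (e q.1) (e q.2))
    (fun p q => (hK.pair _ _ _ _)) (by
      intro x
      have eqv := (Fintype.equivFin (J × J)).symm
      have h1 := hn _ (fun a => x (eqv a) • e (eqv a).1) (fun a => e (eqv a).2)
      have h2 : ∑ a, ∑ b, K (x (eqv a) • e (eqv a).1) (e (eqv a).2) (x (eqv b) • e (eqv b).1)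
          (e (eqv b).2) = ∑ p, ∑ q, K (e p.1) (e p.2) (e q.1) (e q.2) * (x p * x q) := by
        rw [← Equiv.sum_comp eqv]
        refine Finset.sum_congr rfl fun a _ => ?_
        rw [← Equiv.sum_comp eqv]
        refine Finset.sum_congr rfl fun b _ => ?_
        rw [hK.smul, hK.smul3]
        ring
      rw [← h2]
      exact h1)
  have eqv := (Fintype.equivFin (J × J)).symm
  have hB' : ∀ i j k l, K (e i) (e j) (e k) (e l) = ∑ a, B a (i, j) * B a (k, l) :=
    fun i j k l => hB (i, j) (k, l)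
  refine ⟨Fintype.card (J × J), fun a i j => B (eqv a) (i, j), ?_, ?_⟩
  · have h3 : ∀ i j, ∑ a, (B a (j, i) + B a (i, j)) ^ 2 = 0 := by
      intro i j
      have h4 : ∑ a, (B a (j, i) + B a (i, j)) ^ 2 = ∑ a, B a (j, i) * B a (j, i) +
          2 * ∑ a, B a (j, i) * B a (i, j) + ∑ a, B a (i, j) * B a (i, j) := by
        rw [Finset.mul_sum, ← Finset.sum_add_distrib, ← Finset.sum_add_distrib]
        refine Finset.sum_congr rfl fun a _ => ?_
        ring
      rw [h4, ← hB', ← hB', ← hB', hK.anti (e i) (e j) (e j) (e i), hK.a34 (e i) (e j) (e i) (e j),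
        hK.anti (e i) (e j) (e i) (e j)]
      ring
    intro a i j
    have h5 := (Finset.sum_eq_zero_iff_of_nonneg fun a _ => sq_nonneg _).mp (h3 i j) (eqv a)
      (Finset.mem_univ _)
    have h6 := pow_eq_zero_iff (two_ne_zero) |>.mp h5
    simp only
    linarith
  · intro i j k l
    rw [hB']
    exact (Equiv.sum_comp eqv (fun a => B a (i, j) * B a (k, l))).symm

end Pool.Agent.W669.HD
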