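import Pool.Agent.W669.HD.Comp

/-!
# The product of a four-form and Bianchi tensors
-/

set_option autoImplicit false

namespace Pool.Agent.W669.HD

open Pool.Agent.W666.GB Finset

theorem sn_eq_neg_of_swap {O : Type*} [Fintype O] [DecidableEq O] (a b : O) (h : a ≠ b)
    (τ : Equiv.Perm O) : sn (Equiv.swap a b * τ) = - sn τ := by
  rw [sn_mul]
  simp [sn, Equiv.Perm.sign_swap h]

theorem sum_perm_noninj {O J : Type*} [Fintype O] [DecidableEq O] (f : O → J) (a b : O)
    (h : a ≠ b) (hf : f a = f b) (F : (O → J) → ℝ) :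
    ∑ τ : Equiv.Perm O, sn τ * F (f ∘ τ) = 0 := by
  have h1 : ∑ τ : Equiv.Perm O, sn τ * F (f ∘ τ) =
      ∑ τ : Equiv.Perm O, sn (Equiv.swap a b * τ) * F (f ∘ (Equiv.swap a b * τ : Equiv.Perm O)) :=
    (Equiv.sum_comp (Equiv.mulLeft (Equiv.swap a b))
      (fun τ : Equiv.Perm O => sn τ * F (f ∘ τ))).symm
  have h2 : ∀ τ : Equiv.Perm O, f ∘ (Equiv.swap a b * τ : Equiv.Perm O) = f ∘ τ := by
    intro τ
    ext o
    simp only [Function.comp_apply, Equiv.Perm.mul_apply]
    rcases eq_or_ne (τ o) a with h3 | h3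
    · rw [h3, Equiv.swap_apply_left, hf]
    · rcases eq_or_ne (τ o) b with h4 | h4
      · rw [h4, Equiv.swap_apply_right, hf]
      · rw [Equiv.swap_apply_of_ne_of_ne h3 h4]
  simp only [h2, sn_eq_neg_of_swap a b h, neg_mul, Finset.sum_neg_distrib] at h1
  linarith

theorem alt_option {J : Type*} [Fintype J] [DecidableEq J] (u : J) (F : (Option J → J) → ℝ) :
    ∑ τ : Equiv.Perm J, sn τ * (F (fun o => o.elim u τ) -
      ∑ s : J, F (fun o => o.elim (τ s) (fun j => if j = s then u else τ j))) = 0 := by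
  have h0 := sum_perm_noninj (fun o : Option J => o.elim u id) none (some u) (by simp) rfl F
  rw [← Equiv.sum_comp Equiv.Perm.decomposeOption.symm] at h0
  rw [Fintype.sum_prod_type, Fintype.sum_option] at h0
  have h1 : ∀ τ : Equiv.Perm J,
      sn (Equiv.Perm.decomposeOption.symm (none, τ)) *
        F ((fun o : Option J => o.elim u id) ∘ (Equiv.Perm.decomposeOption.symm (none, τ))) =
      sn τ * F (fun o => o.elim u τ) := by
    intro τ
    congr 1
    · simp [sn]
    · congr 1
      ext o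
      cases o <;> simp
  have h2 : ∀ (p : J) (τ : Equiv.Perm J),
      sn (Equiv.Perm.decomposeOption.symm (some p, τ)) *
        F ((fun o : Option J => o.elim u id) ∘ (Equiv.Perm.decomposeOption.symm (some p, τ))) =
      - (sn τ * F (fun o => o.elim p (fun j => if τ j = p then u else τ j))) := by
    intro p τ
    rw [← neg_mul]
    congr 1
    · rw [Equiv.Perm.decomposeOption_symm_apply, sn_eq_neg_of_swap none (some p) (by simp)]
      simp [sn]
    · congr 1
      ext o
      cases o with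
      | none => simp
      | some j =>
        simp only [Function.comp_apply, Equiv.Perm.decomposeOption_symm_apply,
          Equiv.Perm.mul_apply, Equiv.optionCongr_apply, Option.map_some, Option.elim_some]
        split_ifs with h
        · rw [h, Equiv.swap_apply_right]; rfl
        · rw [Equiv.swap_apply_of_ne_of_ne (by simp) (by simpa using h)]; rfl
  simp only [h1, h2, Finset.sum_neg_distrib] at h0
  rw [Finset.sum_comm] at h0
  have h3 : ∀ τ : Equiv.Perm J,
      ∑ p : J, sn τ * F (fun o => o.elim p (fun j => if τ j = p then u else τ j)) =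
      sn τ * ∑ s : J, F (fun o => o.elim (τ s) (fun j => if j = s then u else τ j)) := by
    intro τ
    rw [← Equiv.sum_comp τ, Finset.mul_sum]
    refine Finset.sum_congr rfl fun s _ => ?_
    simp only [EmbeddingLike.apply_eq_iff_eq]
  simp only [h3] at h0
  simp only [mul_sub, Finset.sum_sub_distrib]
  linarith

/-- curvature symmetries in components -/
structure Cur {m : ℕ} (P : T4 m) : Prop where
  a12 : ∀ i j k l, P j i k l = - P i j k l
  a34 : ∀ i j k l, P i j l k = - P i j k l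
  bia : ∀ i j k l, P i j k l + P j k i l + P k i j l = 0

/-- alternating tensors in components -/
structure Alt4 {m : ℕ} (Ω : T4 m) : Prop where
  a12 : ∀ i j k l, Ω j i k l = - Ω i j k l
  a23 : ∀ i j k l, Ω i k j l = - Ω i j k l
  a34 : ∀ i j k l, Ω i j l k = - Ω i j k l

theorem sum_mulRight {J : Type*} [Fintype J] [DecidableEq J] (c : Equiv.Perm J) (hc : sn c = 1)
    (H : Equiv.Perm J → ℝ) : ∑ σ : Equiv.Perm J, sn σ * H (σ * c) = ∑ σ : Equiv.Perm J, sn σ * H σ := by
  rw [← Equiv.sum_comp (Equiv.mulRight c) (fun σ : Equiv.Perm J => sn σ * H σ)]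
  refine Finset.sum_congr rfl fun σ _ => ?_
  simp only [Equiv.coe_mulRight, sn_mul, hc, mul_one]

theorem bianchi_zero {m : ℕ} {P : T4 m} (hP : Cur P) (Ω : T4 m) (b₀ b₁ : Fin m) (h : b₁ ≠ b₀)
    (τ : Equiv.Perm (Fin m × Bool)) (c₀ c₁ c₂ d : Fin m × Bool) :
    ∑ σ : Equiv.Perm (Fin m × Bool), sn σ * (Ω (σ (b₀, false)) c₀ c₁ c₂ *
      (P (σ (b₁, false)) (σ (b₁, true)) (σ (b₀, true)) d *
        ∏ b ∈ (univ.erase b₀).erase b₁,
          P (σ (b, false)) (σ (b, true)) (τ (b, false)) (τ (b, true)))) = 0 := by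
  set H : Equiv.Perm (Fin m × Bool) → ℝ := fun σ => Ω (σ (b₀, false)) c₀ c₁ c₂ *
      (P (σ (b₁, false)) (σ (b₁, true)) (σ (b₀, true)) d *
        ∏ b ∈ (univ.erase b₀).erase b₁,
          P (σ (b, false)) (σ (b, true)) (τ (b, false)) (τ (b, true))) with hH
  set c : Equiv.Perm (Fin m × Bool) :=
    Equiv.swap (b₁, false) (b₁, true) * Equiv.swap (b₁, true) (b₀, true) with hc
  have hsc : sn c = 1 := by
    rw [hc, sn_mul]
    have h1 : ((b₁, false) : Fin m × Bool) ≠ (b₁, true) := by simp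
    have h2 : ((b₁, true) : Fin m × Bool) ≠ (b₀, true) := by simp [h]
    simp [sn, Equiv.Perm.sign_swap h1, Equiv.Perm.sign_swap h2]
  have i1 : Equiv.swap ((b₁, true) : Fin m × Bool) (b₀, true) (b₀, false) = (b₀, false) :=
    Equiv.swap_apply_of_ne_of_ne (by simp) (by simp)
  have i2 : Equiv.swap ((b₁, true) : Fin m × Bool) (b₀, true) (b₁, false) = (b₁, false) :=
    Equiv.swap_apply_of_ne_of_ne (by simp) (by simp)
  have e1 : c (b₀, false) = (b₀, false) := by
    rw [hc, Equiv.Perm.mul_apply, i1]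
    exact Equiv.swap_apply_of_ne_of_ne (by simp [h.symm]) (by simp)
  have e2 : c (b₁, false) = (b₁, true) := by
    rw [hc, Equiv.Perm.mul_apply, i2, Equiv.swap_apply_left]
  have e3 : c (b₁, true) = (b₀, true) := by
    rw [hc, Equiv.Perm.mul_apply, Equiv.swap_apply_left]
    exact Equiv.swap_apply_of_ne_of_ne (by simp) (by simp [h.symm])
  have e4 : c (b₀, true) = (b₁, false) := by
    rw [hc, Equiv.Perm.mul_apply, Equiv.swap_apply_right, Equiv.swap_apply_right]
  have e5 : ∀ b, b ≠ b₀ → b ≠ b₁ → ∀ β : Bool, c (b, β) = (b, β) := by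
    intro b hb0 hb1 β
    have i3 : Equiv.swap ((b₁, true) : Fin m × Bool) (b₀, true) (b, β) = (b, β) :=
      Equiv.swap_apply_of_ne_of_ne (by simp [hb1]) (by simp [hb0])
    rw [hc, Equiv.Perm.mul_apply, i3]
    exact Equiv.swap_apply_of_ne_of_ne (by simp [hb1]) (by simp [hb1])
  have hprod : ∀ σ : Equiv.Perm (Fin m × Bool),
      ∏ b ∈ (univ.erase b₀).erase b₁,
          P ((σ * c) (b, false)) ((σ * c) (b, true)) (τ (b, false)) (τ (b, true)) =
      ∏ b ∈ (univ.erase b₀).erase b₁,
          P (σ (b, false)) (σ (b, true)) (τ (b, false)) (τ (b, true)) := by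
    intro σ
    refine Finset.prod_congr rfl fun b hb => ?_
    have h1 : b ≠ b₁ := Finset.ne_of_mem_erase hb
    have h0 : b ≠ b₀ := Finset.ne_of_mem_erase (Finset.mem_of_mem_erase hb)
    simp only [Equiv.Perm.mul_apply, e5 b h0 h1]
  have k1 := sum_mulRight c hsc H
  have k2 := sum_mulRight c hsc (fun σ => H (σ * c))
  have k3 : ∀ σ, H σ + H (σ * c) + H (σ * c * c) = 0 := by
    intro σ
    simp only [hH, hprod]
    simp only [Equiv.Perm.mul_apply, e1, e2, e3, e4]
    have := hP.bia (σ (b₁, false)) (σ (b₁, true)) (σ (b₀, true)) d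
    linear_combination (Ω (σ (b₀, false)) c₀ c₁ c₂ * ∏ b ∈ (univ.erase b₀).erase b₁,
          P (σ (b, false)) (σ (b, true)) (τ (b, false)) (τ (b, true))) * this
  have k4 : ∑ σ : Equiv.Perm (Fin m × Bool), (sn σ * H σ + sn σ * H (σ * c) +
      sn σ * H (σ * c * c)) = 0 := by
    refine Finset.sum_eq_zero fun σ _ => ?_
    have := k3 σ
    linear_combination sn σ * this
  rw [Finset.sum_add_distrib, Finset.sum_add_distrib] at k4
  rw [k2, k1] at k4
  linarith

theorem alt_zero {m : ℕ} {P Ω : T4 m} (hP : Cur P) (hΩ : Alt4 Ω) (b₀ : Fin m) :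
    mix Ω P {b₀} = 0 := by
  set F : Equiv.Perm (Fin m × Bool) → (Option (Fin m × Bool) → Fin m × Bool) → ℝ :=
    fun σ y => Ω (σ (b₀, false)) (y none) (y (some (b₀, false))) (y (some (b₀, true))) *
      ∏ b ∈ univ.erase b₀, P (σ (b, false)) (σ (b, true)) (y (some (b, false)))
        (y (some (b, true))) with hF
  set A : Equiv.Perm (Fin m × Bool) → Equiv.Perm (Fin m × Bool) → ℝ := fun σ τ =>
    Ω (σ (b₀, false)) (σ (b₀, true)) (τ (b₀, false)) (τ (b₀, true)) *
      ∏ b ∈ univ.erase b₀, P (σ (b, false)) (σ (b, true)) (τ (b, false)) (τ (b, true)) with hA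
  have hmix : mix Ω P {b₀} = ∑ σ : Equiv.Perm (Fin m × Bool), ∑ τ : Equiv.Perm (Fin m × Bool),
      sn σ * sn τ * A σ τ := by
    simp only [mix, gm, hA]
    refine Finset.sum_congr rfl fun σ _ => Finset.sum_congr rfl fun τ _ => ?_
    rw [← Finset.mul_prod_erase univ _ (Finset.mem_univ b₀)]
    congr 2
    · simp
    · refine Finset.prod_congr rfl fun b hb => ?_
      have : b ∉ ({b₀} : Finset (Fin m)) := by simpa using Finset.ne_of_mem_erase hb
      rw [if_neg this]
  set B : Fin m × Bool → Equiv.Perm (Fin m × Bool) → Equiv.Perm (Fin m × Bool) → ℝ :=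
    fun s σ τ => F σ (fun o => o.elim (τ s) (fun j => if j = s then σ (b₀, true) else τ j)) with hB
  have hz : ∀ σ : Equiv.Perm (Fin m × Bool), ∑ τ : Equiv.Perm (Fin m × Bool),
      sn τ * (A σ τ - ∑ s, B s σ τ) = 0 := by
    intro σ
    have := alt_option (σ (b₀, true)) (F σ)
    simpa [hF, hA, hB] using this
  have hB0 : ∀ σ τ, B (b₀, false) σ τ = - A σ τ := by
    intro σ τ
    simp only [hB, hF, hA, Option.elim_none, Option.elim_some, if_true, Prod.mk.injEq, true_and,
      Bool.true_eq_false, if_false]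
    rw [hΩ.a23, neg_mul]
    congr 2
    refine Finset.prod_congr rfl fun b hb => ?_
    have h1 : b ≠ b₀ := Finset.ne_of_mem_erase hb
    simp [h1]
  have hB1 : ∀ σ τ, B (b₀, true) σ τ = - A σ τ := by
    intro σ τ
    simp only [hB, hF, hA, Option.elim_none, Option.elim_some, if_true, Prod.mk.injEq, true_and,
      Bool.false_eq_true, if_false]
    rw [hΩ.a34, hΩ.a23, hΩ.a34, neg_neg, neg_mul]
    congr 2
    refine Finset.prod_congr rfl fun b hb => ?_
    have h1 : b ≠ b₀ := Finset.ne_of_mem_erase hb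
    simp [h1]
  have hB2 : ∀ b₁, b₁ ≠ b₀ → ∀ (β : Bool) (τ : Equiv.Perm (Fin m × Bool)),
      ∑ σ : Equiv.Perm (Fin m × Bool), sn σ * B (b₁, β) σ τ = 0 := by
    intro b₁ h β τ
    have hmem : b₁ ∈ univ.erase b₀ := Finset.mem_erase.mpr ⟨h, Finset.mem_univ _⟩
    have hrest : ∀ σ : Equiv.Perm (Fin m × Bool), B (b₁, β) σ τ =
        Ω (σ (b₀, false)) (τ (b₁, β)) (τ (b₀, false)) (τ (b₀, true)) *
        (P (σ (b₁, false)) (σ (b₁, true)) (if β = false then σ (b₀, true) else τ (b₁, false))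
          (if β = true then σ (b₀, true) else τ (b₁, true)) *
        ∏ b ∈ (univ.erase b₀).erase b₁,
          P (σ (b, false)) (σ (b, true)) (τ (b, false)) (τ (b, true))) := by
      intro σ
      simp only [hB, hF, Option.elim_none, Option.elim_some]
      rw [← Finset.mul_prod_erase _ _ hmem]
      congr 1
      · rw [if_neg (by simp [h.symm]), if_neg (by simp [h.symm])]
      congr 1
      · cases β <;> simp
      · refine Finset.prod_congr rfl fun b hb => ?_
        have h1 : b ≠ b₁ := Finset.ne_of_mem_erase hb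
        simp [h1]
    simp only [hrest]
    cases β with
    | false => exact bianchi_zero hP Ω b₀ b₁ h τ _ _ _ _
    | true =>
      have h2 := bianchi_zero hP Ω b₀ b₁ h τ (τ (b₁, true)) (τ (b₀, false)) (τ (b₀, true))
        (τ (b₁, false))
      rw [← neg_eq_zero, ← Finset.sum_neg_distrib, ← h2]
      refine Finset.sum_congr rfl fun σ _ => ?_
      simp only [Bool.true_eq_false, if_false, if_true]
      rw [hP.a34 _ _ (σ (b₀, true)) (τ (b₁, false))]
      ring
  have hsum : ∑ σ : Equiv.Perm (Fin m × Bool), ∑ τ : Equiv.Perm (Fin m × Bool),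
      sn σ * sn τ * (A σ τ - ∑ s, B s σ τ) = 0 := by
    refine Finset.sum_eq_zero fun σ _ => ?_
    have := hz σ
    rw [← mul_zero (sn σ), ← this, Finset.mul_sum]
    exact Finset.sum_congr rfl fun τ _ => by ring
  have hs : ∀ σ τ, ∑ s, B s σ τ = - 2 * A σ τ + ∑ b ∈ univ.erase b₀, ∑ β : Bool, B (b, β) σ τ := by
    intro σ τ
    rw [Fintype.sum_prod_type, ← Finset.add_sum_erase univ _ (Finset.mem_univ b₀)]
    rw [Fintype.sum_bool, hB0, hB1]
    ring
  have hlast : ∑ σ : Equiv.Perm (Fin m × Bool), ∑ τ : Equiv.Perm (Fin m × Bool),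
      sn σ * sn τ * ∑ b ∈ univ.erase b₀, ∑ β : Bool, B (b, β) σ τ = 0 := by
    rw [Finset.sum_comm]
    refine Finset.sum_eq_zero fun τ _ => ?_
    have : ∑ σ : Equiv.Perm (Fin m × Bool), sn σ * sn τ *
        ∑ b ∈ univ.erase b₀, ∑ β : Bool, B (b, β) σ τ =
        sn τ * ∑ b ∈ univ.erase b₀, ∑ β : Bool, ∑ σ : Equiv.Perm (Fin m × Bool),
          sn σ * B (b, β) σ τ := by
      simp only [Finset.mul_sum]
      rw [Finset.sum_comm]
      refine Finset.sum_congr rfl fun b _ => ?_
      rw [Finset.sum_comm]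
      refine Finset.sum_congr rfl fun β _ => Finset.sum_congr rfl fun σ _ => by ring
    rw [this]
    rw [Finset.sum_eq_zero, mul_zero]
    intro b hb
    exact Finset.sum_eq_zero fun β _ => hB2 b (Finset.ne_of_mem_erase hb) β τ
  have h3 : ∑ σ : Equiv.Perm (Fin m × Bool), ∑ τ : Equiv.Perm (Fin m × Bool),
      sn σ * sn τ * (A σ τ - ∑ s, B s σ τ) = 3 * mix Ω P {b₀} -
      ∑ σ : Equiv.Perm (Fin m × Bool), ∑ τ : Equiv.Perm (Fin m × Bool),
      sn σ * sn τ * ∑ b ∈ univ.erase b₀, ∑ β : Bool, B (b, β) σ τ := by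
    rw [hmix, Finset.mul_sum, ← Finset.sum_sub_distrib]
    refine Finset.sum_congr rfl fun σ _ => ?_
    rw [Finset.mul_sum, ← Finset.sum_sub_distrib]
    refine Finset.sum_congr rfl fun τ _ => ?_
    rw [hs]; ring
  rw [hlast, hsum] at h3
  linarith

end Pool.Agent.W669.HD
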