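import Pool.Agent.W669.HD.Fact

/-!
# The inequality in components
-/

set_option autoImplicit false

namespace Pool.Agent.W669.HD

open Pool.Agent.W666.GB Finset

variable {m : ℕ}

theorem mix_empty (K L : T4 m) : mix K L ∅ = gm (fun _ => L) := by
  unfold mix
  simp

theorem mix_pair_congr {Ω P N : T4 m} {r : Fin 4 → Fin m × Bool}
    (hΩ : Supp r Ω) (hPN : ∀ i j k l, i ∉ Set.range r → P i j k l = N i j k l)
    {b₀ b₁ : Fin m} (h : b₁ ≠ b₀) : mix Ω P {b₀, b₁} = mix Ω N {b₀, b₁} := by
  classical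
  unfold mix gm
  refine Finset.sum_congr rfl fun σ _ => Finset.sum_congr rfl fun τ _ => ?_
  congr 1
  have inj : Function.Injective (fun i => σ (slot b₀ b₁ i)) := σ.injective.comp (slot_inj h)
  by_cases h1 : ∀ i, σ (slot b₀ b₁ i) ∈ Set.range r
  · obtain ⟨π, hπ⟩ := exists_perm (r := r) (f := fun i => σ (slot b₀ b₁ i)) inj h1
    refine Finset.prod_congr rfl fun b _ => ?_
    by_cases hb : b ∈ ({b₀, b₁} : Finset (Fin m))
    · simp only [if_pos hb]
    · simp only [if_neg hb]
      apply hPN
      rintro ⟨i, hi⟩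
      have h2 := congrFun hπ (π.symm i)
      simp only [Function.comp_apply, Equiv.apply_symm_apply] at h2
      rw [hi] at h2
      have h3 := σ.injective h2
      have h4 : (slot b₀ b₁ (π.symm i)).1 = b := by rw [h3]
      apply hb
      rw [← h4]
      generalize π.symm i = q
      fin_cases q <;> simp [slot]
  · push Not at h1
    obtain ⟨i, hi⟩ := h1
    have key : ∀ Q : T4 m, ∏ b, (if b ∈ ({b₀, b₁} : Finset (Fin m)) then Ω else Q)
        (σ (b, false)) (σ (b, true)) (τ (b, false)) (τ (b, true)) = 0 := by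
      intro Q
      have hcase : (σ ((slot b₀ b₁ i).1, false) ∉ Set.range r ∨
          σ ((slot b₀ b₁ i).1, true) ∉ Set.range r) := by
        have : slot b₀ b₁ i = ((slot b₀ b₁ i).1, (slot b₀ b₁ i).2) := rfl
        cases hβ : (slot b₀ b₁ i).2 with
        | false => left; rw [hβ] at this; rwa [← this]
        | true => right; rw [hβ] at this; rwa [← this]
      have hmem : (slot b₀ b₁ i).1 ∈ ({b₀, b₁} : Finset (Fin m)) := by
        fin_cases i <;> simp [slot]
      refine Finset.prod_eq_zero (Finset.mem_univ (slot b₀ b₁ i).1) ?_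
      rw [if_pos hmem]
      rcases hcase with h5 | h5
      · exact hΩ _ _ _ _ (Or.inl h5)
      · exact hΩ _ _ _ _ (Or.inr (Or.inl h5))
    rw [key P, key N]

theorem mix_large {Ω P : T4 m} {r : Fin 4 → Fin m × Bool} (hΩ : Supp r Ω)
    {S : Finset (Fin m)} (hS : 3 ≤ S.card) : mix Ω P S = 0 := by
  classical
  unfold mix gm
  refine Finset.sum_eq_zero fun σ _ => Finset.sum_eq_zero fun τ _ => ?_
  have h1 : ∃ b ∈ S, ∃ β : Bool, σ (b, β) ∉ Set.range r := by
    by_contra hcon
    push Not at hcon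
    have h2 : (S ×ˢ (univ : Finset Bool)).card ≤ ((univ : Finset (Fin 4)).image r).card := by
      refine Finset.card_le_card_of_injOn (fun p => σ p) ?_ (σ.injective.injOn)
      rintro ⟨b, β⟩ hb
      simp only [Finset.coe_product, Set.mem_prod, Finset.mem_coe] at hb
      obtain ⟨k, hk⟩ := hcon b hb.1 β
      simp only [Finset.coe_image, Finset.coe_univ, Set.image_univ]
      exact ⟨k, hk⟩
    have h3 : ((univ : Finset (Fin 4)).image r).card ≤ 4 :=
      Finset.card_image_le.trans (by simp)
    rw [Finset.card_product] at h2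
    simp only [Finset.card_univ, Fintype.card_bool] at h2
    omega
  obtain ⟨b, hb, β, hβ⟩ := h1
  have : ∏ b, (if b ∈ S then Ω else P)
        (σ (b, false)) (σ (b, true)) (τ (b, false)) (τ (b, true)) = 0 := by
    refine Finset.prod_eq_zero (Finset.mem_univ b) ?_
    rw [if_pos hb]
    cases β with
    | false => exact hΩ _ _ _ _ (Or.inl hβ)
    | true => exact hΩ _ _ _ _ (Or.inr (Or.inl hβ))
  rw [this, mul_zero]

theorem mix_nonneg {κ₁ κ₂ : Type} [Fintype κ₁] [Fintype κ₂] {K N : T4 m}
    (μ : κ₁ → Fin m × Bool → Fin m × Bool → ℝ)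
    (hK : ∀ i j k l, K i j k l = ∑ a, μ a i j * μ a k l)
    (ν : κ₂ → Fin m × Bool → Fin m × Bool → ℝ)
    (hN : ∀ i j k l, N i j k l = ∑ a, ν a i j * ν a k l) (S : Finset (Fin m)) :
    0 ≤ mix K N S := by
  classical
  unfold mix
  refine gm_nonneg (κ := κ₁ ⊕ κ₂) _ (fun b => Sum.elim (fun a i j => if b ∈ S then μ a i j else 0)
    (fun a i j => if b ∈ S then 0 else ν a i j)) ?_
  intro b i j k l
  rw [Fintype.sum_sum_type]
  by_cases hb : b ∈ S
  · simp [hb, hK]
  · simp [hb, hN]

/-- The inequality in components. -/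
theorem comp_main {κ₁ κ₂ : Type} [Fintype κ₁] [Fintype κ₂] {P Ω K N : T4 m}
    (hP : Cur P) (hΩ : Alt4 Ω) (hsum : ∀ i j k l, P i j k l + Ω i j k l = K i j k l + N i j k l)
    (μ : κ₁ → Fin m × Bool → Fin m × Bool → ℝ)
    (hK : ∀ i j k l, K i j k l = ∑ a, μ a i j * μ a k l)
    (ν : κ₂ → Fin m × Bool → Fin m × Bool → ℝ)
    (hN : ∀ i j k l, N i j k l = ∑ a, ν a i j * ν a k l)
    (hcase : m ≤ 1 ∨ ∃ r : Fin 4 → Fin m × Bool, Function.Injective r ∧ Supp r Ω ∧ Supp r K ∧
      kap (fun i j k l => Ω (r i) (r j) (r k) (r l)) ≤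
        kap (fun i j k l => K (r i) (r j) (r k) (r l))) :
    gm (fun _ : Fin m => N) ≤ gm (fun _ : Fin m => P) := by
  classical
  have e1 := gm_add (m := m) P Ω
  have e2 := gm_add (m := m) K N
  have e3 : gm (fun _ : Fin m => (fun i j k l => P i j k l + Ω i j k l : T4 m)) =
      gm (fun _ : Fin m => (fun i j k l => K i j k l + N i j k l : T4 m)) := by
    simp only [hsum]
  have e1' := gm_add (m := m) Ω P
  have e4 : gm (fun _ : Fin m => (fun i j k l => P i j k l + Ω i j k l : T4 m)) =
      gm (fun _ : Fin m => (fun i j k l => Ω i j k l + P i j k l : T4 m)) := by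
    simp only [add_comm]
  have e5 : ∑ S ∈ (univ : Finset (Fin m)).powerset, mix Ω P S =
      ∑ S ∈ (univ : Finset (Fin m)).powerset, mix K N S := by
    rw [← e1', ← e4, e3, e2]
  have hmem : (∅ : Finset (Fin m)) ∈ (univ : Finset (Fin m)).powerset := by simp
  rw [← Finset.add_sum_erase _ _ hmem, ← Finset.add_sum_erase _ (fun S => mix K N S) hmem,
    mix_empty, mix_empty] at e5
  have hle : ∑ S ∈ ((univ : Finset (Fin m)).powerset).erase ∅, mix Ω P S ≤
      ∑ S ∈ ((univ : Finset (Fin m)).powerset).erase ∅, mix K N S := by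
    refine Finset.sum_le_sum fun S hS => ?_
    have hne : S ≠ ∅ := Finset.ne_of_mem_erase hS
    have hpos : 0 < S.card := Finset.card_pos.mpr (Finset.nonempty_iff_ne_empty.mpr hne)
    rcases Nat.lt_or_ge S.card 2 with h1 | h1
    · have hc : S.card = 1 := by omega
      obtain ⟨b, rfl⟩ := Finset.card_eq_one.mp hc
      rw [alt_zero hP hΩ b]
      exact mix_nonneg μ hK ν hN _
    · have hm : ¬ m ≤ 1 := by
        intro hm
        have := Finset.card_le_univ S
        rw [Fintype.card_fin] at this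
        omega
      rcases hcase with hcase | ⟨r, hr, hsΩ, hsK, hkap⟩
      · exact absurd hcase hm
      rcases Nat.lt_or_ge S.card 3 with h2 | h2
      · have hc : S.card = 2 := by omega
        obtain ⟨b₀, b₁, hne', rfl⟩ := Finset.card_eq_two.mp hc
        have hPN : ∀ i j k l, i ∉ Set.range r → P i j k l = N i j k l := by
          intro i j k l hi
          have := hsum i j k l
          rw [hsΩ i j k l (Or.inl hi), hsK i j k l (Or.inl hi)] at this
          linarith
        rw [mix_pair_congr hsΩ hPN hne'.symm, mix_pair hr hsΩ ν hN hne'.symm,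
          mix_pair hr hsK ν hN hne'.symm]
        exact mul_le_mul_of_nonneg_right hkap (Finset.sum_nonneg fun c _ => sq_nonneg _)
      · rw [mix_large hsΩ h2]
        exact mix_nonneg μ hK ν hN _
  linarith

end Pool.Agent.W669.HD
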