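import Pool.Agent.W669.HD.Stm

/-!
# Mixed Gauss–Bonnet–Chern sums in components
-/

set_option autoImplicit false

namespace Pool.Agent.W669.HD

open Pool.Agent.W666.GB Finset

variable {m : ℕ}

/-- tensors in components -/
abbrev T4 (m : ℕ) := Fin m × Bool → Fin m × Bool → Fin m × Bool → Fin m × Bool → ℝ

/-- mixed sum -/
noncomputable def gm (C : Fin m → T4 m) : ℝ :=
  ∑ σ : Equiv.Perm (Fin m × Bool), ∑ τ : Equiv.Perm (Fin m × Bool), sn σ * sn τ *
    ∏ b, C b (σ (b, false)) (σ (b, true)) (τ (b, false)) (τ (b, true))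

/-- mixed sum with `K` in the places of `S` and `L` in the other places -/
noncomputable def mix (K L : T4 m) (S : Finset (Fin m)) : ℝ := gm (fun b => if b ∈ S then K else L)

theorem gm_add (K L : T4 m) :
    gm (fun _ : Fin m => (fun i j k l => K i j k l + L i j k l : T4 m)) =
      ∑ S ∈ (univ : Finset (Fin m)).powerset, mix K L S := by
  simp only [mix, gm]
  symm
  rw [Finset.sum_comm]
  refine Finset.sum_congr rfl fun σ _ => ?_
  rw [Finset.sum_comm]
  refine Finset.sum_congr rfl fun τ _ => ?_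
  rw [Finset.prod_add, Finset.mul_sum]
  refine Finset.sum_congr rfl fun S hS => ?_
  congr 1
  rw [← Finset.prod_sdiff (Finset.subset_univ S), mul_comm]
  congr 1
  · refine Finset.prod_congr rfl fun b hb => ?_
    rw [if_pos hb]
  · refine Finset.prod_congr rfl fun b hb => ?_
    rw [if_neg (Finset.mem_sdiff.mp hb).2]

/-- sums of squares -/
theorem gm_nonneg {κ : Type} [Fintype κ] (C : Fin m → T4 m)
    (ν : Fin m → κ → Fin m × Bool → Fin m × Bool → ℝ)
    (h : ∀ b i j k l, C b i j k l = ∑ a, ν b a i j * ν b a k l) : 0 ≤ gm C := by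
  classical
  have h1 : gm C = ∑ c : Fin m → κ, (∑ σ : Equiv.Perm (Fin m × Bool),
      sn σ * ∏ b, ν b (c b) (σ (b, false)) (σ (b, true))) ^ 2 := by
    simp only [gm, h]
    have h2 : ∀ σ τ : Equiv.Perm (Fin m × Bool), sn σ * sn τ *
        ∏ b, ∑ a, ν b a (σ (b, false)) (σ (b, true)) * ν b a (τ (b, false)) (τ (b, true)) =
        ∑ c : Fin m → κ, (sn σ * ∏ b, ν b (c b) (σ (b, false)) (σ (b, true))) *
          (sn τ * ∏ b, ν b (c b) (τ (b, false)) (τ (b, true))) := by
      intro σ τ
      rw [Fintype.prod_sum, Finset.mul_sum]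
      refine Finset.sum_congr rfl fun c _ => ?_
      rw [Finset.prod_mul_distrib]; ring
    simp only [h2]
    rw [Finset.sum_congr rfl fun σ _ => Finset.sum_comm, Finset.sum_comm]
    refine Finset.sum_congr rfl fun c _ => ?_
    rw [sq, Finset.sum_mul_sum]
  rw [h1]
  exact Finset.sum_nonneg fun c _ => sq_nonneg _

end Pool.Agent.W669.HD
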