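import Pool.Agent.W669.HD.Alt

/-!
# Factorisation of mixed sums with two factors living on four indices
-/

set_option autoImplicit false

namespace Pool.Agent.W669.HD

open Pool.Agent.W666.GB Finset

variable {m : ℕ}

/-- the tensor vanishes when one of the indices is outside the range of `r` -/
def Supp (r : Fin 4 → Fin m × Bool) (K : T4 m) : Prop :=
  ∀ i j k l, (i ∉ Set.range r ∨ j ∉ Set.range r ∨ k ∉ Set.range r ∨ l ∉ Set.range r) →
    K i j k l = 0

/-- the four slots of two places -/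
def slot (b₀ b₁ : Fin m) : Fin 4 → Fin m × Bool :=
  ![(b₀, false), (b₀, true), (b₁, false), (b₁, true)]

theorem slot_inj {b₀ b₁ : Fin m} (h : b₁ ≠ b₀) : Function.Injective (slot b₀ b₁) := by
  intro i j hij
  fin_cases i <;> fin_cases j <;> simp_all [slot, Prod.ext_iff, h.symm]

/-- the product of two factors -/
def phi (K : T4 m) (f g : Fin 4 → Fin m × Bool) : ℝ :=
  K (f 0) (f 1) (g 0) (g 1) * K (f 2) (f 3) (g 2) (g 3)

/-- extended square roots -/
def nu' {κ : Type} (S : Finset (Fin m)) (ν : κ → Fin m × Bool → Fin m × Bool → ℝ) (b : Fin m)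
    (a : Option κ) (i j : Fin m × Bool) : ℝ :=
  if b ∈ S then a.elim 1 (fun _ => 0) else a.elim 0 (fun a => ν a i j)

/-- products of square roots -/
noncomputable def zc {κ : Type} (S : Finset (Fin m)) (ν : κ → Fin m × Bool → Fin m × Bool → ℝ)
    (c : Fin m → Option κ) (σ : Equiv.Perm (Fin m × Bool)) : ℝ :=
  ∏ b, nu' S ν b (c b) (σ (b, false)) (σ (b, true))

theorem exists_perm {r f : Fin 4 → Fin m × Bool} (hf : Function.Injective f) (h : ∀ i, f i ∈ Set.range r) :
    ∃ π : Equiv.Perm (Fin 4), f = r ∘ π := by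
  choose p hp using h
  have hpi : Function.Injective p := fun i j hij => hf (by rw [← hp i, ← hp j, hij])
  exact ⟨Equiv.ofBijective p (Finite.injective_iff_bijective.mp hpi), by
    ext1 i; simp [hp]⟩

open Classical in
theorem phi_expand {K : T4 m} {r : Fin 4 → Fin m × Bool} (hr : Function.Injective r)
    (hK : Supp r K) {f g : Fin 4 → Fin m × Bool} (hf : Function.Injective f)
    (hg : Function.Injective g) :
    phi K f g = ∑ π : Equiv.Perm (Fin 4), ∑ π' : Equiv.Perm (Fin 4),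
      phi K (r ∘ π) (r ∘ π') * ((if f = r ∘ π then 1 else 0) * (if g = r ∘ π' then 1 else 0)) := by
  have inj : ∀ π π' : Equiv.Perm (Fin 4), r ∘ π = r ∘ π' → π = π' := by
    intro π π' h
    ext i
    have := congrFun h i
    exact congrArg Fin.val (hr this)
  by_cases h1 : (∀ i, f i ∈ Set.range r) ∧ ∀ i, g i ∈ Set.range r
  · obtain ⟨π₀, rfl⟩ := exists_perm hf h1.1
    obtain ⟨π₁, rfl⟩ := exists_perm hg h1.2
    rw [Finset.sum_eq_single π₀, Finset.sum_eq_single π₁]
    · simp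
    · intro π' _ hne
      rw [if_neg (fun h => hne (inj _ _ h).symm)]; simp
    · simp
    · intro π _ hne
      refine Finset.sum_eq_zero fun π' _ => ?_
      rw [if_neg (fun h => hne (inj _ _ h).symm)]; simp
    · simp
  · have h2 : phi K f g = 0 := by
      rw [not_and_or, not_forall, not_forall] at h1
      rcases h1 with ⟨i, hi⟩ | ⟨i, hi⟩
      · unfold phi
        obtain rfl | rfl | rfl | rfl : i = 0 ∨ i = 1 ∨ i = 2 ∨ i = 3 := by
          fin_cases i <;> simp
        · rw [hK _ _ _ _ (Or.inl hi), zero_mul]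
        · rw [hK _ _ _ _ (Or.inr (Or.inl hi)), zero_mul]
        · rw [hK (f 2) _ _ _ (Or.inl hi), mul_zero]
        · rw [hK (f 2) (f 3) _ _ (Or.inr (Or.inl hi)), mul_zero]
      · unfold phi
        obtain rfl | rfl | rfl | rfl : i = 0 ∨ i = 1 ∨ i = 2 ∨ i = 3 := by
          fin_cases i <;> simp
        · rw [hK _ _ _ _ (Or.inr (Or.inr (Or.inl hi))), zero_mul]
        · rw [hK _ _ _ _ (Or.inr (Or.inr (Or.inr hi))), zero_mul]
        · rw [hK (f 2) (f 3) (g 2) _ (Or.inr (Or.inr (Or.inl hi))), mul_zero]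
        · rw [hK (f 2) (f 3) (g 2) (g 3) (Or.inr (Or.inr (Or.inr hi))), mul_zero]
    rw [h2]
    symm
    refine Finset.sum_eq_zero fun π _ => Finset.sum_eq_zero fun π' _ => ?_
    by_cases hfp : f = r ∘ π
    · by_cases hgp : g = r ∘ π'
      · exfalso
        exact h1 ⟨fun i => ⟨π i, by rw [hfp]; rfl⟩, fun i => ⟨π' i, by rw [hgp]; rfl⟩⟩
      · rw [if_neg hgp]; simp
    · rw [if_neg hfp]; simp

/-- the factor independent of the tensor -/
noncomputable def yc {κ : Type} (r : Fin 4 → Fin m × Bool) (b₀ b₁ : Fin m)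
    (ν : κ → Fin m × Bool → Fin m × Bool → ℝ) (c : Fin m → Option κ)
    (π : Equiv.Perm (Fin 4)) : ℝ := by
  classical
  exact ∑ σ : Equiv.Perm (Fin m × Bool), sn σ *
    ((if (fun i => σ (slot b₀ b₁ i)) = r ∘ π then 1 else 0) * zc {b₀, b₁} ν c σ)

theorem yc_eq {κ : Type} (r : Fin 4 → Fin m × Bool) {b₀ b₁ : Fin m} (h : b₁ ≠ b₀)
    (ν : κ → Fin m × Bool → Fin m × Bool → ℝ) (c : Fin m → Option κ)
    (π : Equiv.Perm (Fin 4)) : yc r b₀ b₁ ν c π = sn π * yc r b₀ b₁ ν c 1 := by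
  classical
  set E : Fin 4 ↪ Fin m × Bool := ⟨slot b₀ b₁, slot_inj h⟩ with hE
  set q : Equiv.Perm (Fin m × Bool) := π.viaFintypeEmbedding E with hq
  have hsq : sn q = sn π := by
    simp only [sn, hq, Equiv.Perm.viaFintypeEmbedding_sign]
  have q1 : ∀ i, q (slot b₀ b₁ i) = slot b₀ b₁ (π i) := by
    intro i
    exact Equiv.Perm.viaFintypeEmbedding_apply_image π E i
  have q2 : ∀ b, b ∉ ({b₀, b₁} : Finset (Fin m)) → ∀ β : Bool, q (b, β) = (b, β) := by
    intro b hb β
    apply Equiv.Perm.viaFintypeEmbedding_apply_notMem_range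
    rintro ⟨i, hi⟩
    simp only [Finset.mem_insert, Finset.mem_singleton, not_or] at hb
    have : (slot b₀ b₁ i).1 = b := by
      have := congrArg Prod.fst hi
      exact this
    fin_cases i <;> simp [slot] at this <;> [exact hb.1 this.symm; exact hb.1 this.symm;
      exact hb.2 this.symm; exact hb.2 this.symm]
  unfold yc
  rw [Finset.mul_sum, ← Equiv.sum_comp (Equiv.mulRight q)]
  refine Finset.sum_congr rfl fun σ _ => ?_
  have z1 : zc {b₀, b₁} ν c (σ * q) = zc {b₀, b₁} ν c σ := by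
    unfold zc
    refine Finset.prod_congr rfl fun b _ => ?_
    by_cases hb : b ∈ ({b₀, b₁} : Finset (Fin m))
    · simp only [nu', if_pos hb]
    · simp only [nu', if_neg hb, Equiv.Perm.mul_apply, q2 b hb]
  have z2 : ((fun i => (σ * q) (slot b₀ b₁ i)) = r ∘ π) ↔
      ((fun i => σ (slot b₀ b₁ i)) = r ∘ (1 : Equiv.Perm (Fin 4))) := by
    constructor
    · intro h1
      ext1 i
      have := congrFun h1 (π.symm i)
      simp only [Equiv.Perm.mul_apply, q1, Function.comp_apply, Equiv.apply_symm_apply] at this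
      simpa using this
    · intro h1
      ext1 i
      have := congrFun h1 (π i)
      simpa [Equiv.Perm.mul_apply, q1] using this
  simp only [Equiv.coe_mulRight]
  rw [z1, sn_mul, hsq]
  simp only [z2]
  ring

theorem nu'_sum {κ : Type} [Fintype κ] (S : Finset (Fin m))
    (ν : κ → Fin m × Bool → Fin m × Bool → ℝ) {N : T4 m}
    (hN : ∀ i j k l, N i j k l = ∑ a, ν a i j * ν a k l) (b : Fin m) (i j k l : Fin m × Bool) :
    ∑ a : Option κ, nu' S ν b a i j * nu' S ν b a k l = if b ∈ S then 1 else N i j k l := by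
  rw [Fintype.sum_option]
  by_cases hb : b ∈ S
  · simp [nu', hb]
  · simp [nu', hb, hN]

theorem prod_mix {κ : Type} [Fintype κ] {K N : T4 m}
    (ν : κ → Fin m × Bool → Fin m × Bool → ℝ)
    (hN : ∀ i j k l, N i j k l = ∑ a, ν a i j * ν a k l) {b₀ b₁ : Fin m} (h : b₁ ≠ b₀)
    (σ τ : Equiv.Perm (Fin m × Bool)) :
    ∏ b, (if b ∈ ({b₀, b₁} : Finset (Fin m)) then K else N) (σ (b, false)) (σ (b, true))
      (τ (b, false)) (τ (b, true)) =
    phi K (fun i => σ (slot b₀ b₁ i)) (fun i => τ (slot b₀ b₁ i)) *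
      ∑ c : Fin m → Option κ, zc {b₀, b₁} ν c σ * zc {b₀, b₁} ν c τ := by
  have h1 : ∑ c : Fin m → Option κ, zc {b₀, b₁} ν c σ * zc {b₀, b₁} ν c τ =
      ∏ b, (if b ∈ ({b₀, b₁} : Finset (Fin m)) then 1 else
        N (σ (b, false)) (σ (b, true)) (τ (b, false)) (τ (b, true))) := by
    have h2 : ∀ b, (if b ∈ ({b₀, b₁} : Finset (Fin m)) then 1 else
        N (σ (b, false)) (σ (b, true)) (τ (b, false)) (τ (b, true))) =
        ∑ a : Option κ, nu' {b₀, b₁} ν b a (σ (b, false)) (σ (b, true)) *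
          nu' {b₀, b₁} ν b a (τ (b, false)) (τ (b, true)) := fun b => (nu'_sum _ ν hN b _ _ _ _).symm
    rw [Finset.prod_congr rfl fun b _ => h2 b, Fintype.prod_sum]
    refine Finset.sum_congr rfl fun c _ => ?_
    simp only [zc, Finset.prod_mul_distrib]
  have h3 : phi K (fun i => σ (slot b₀ b₁ i)) (fun i => τ (slot b₀ b₁ i)) =
      ∏ b ∈ ({b₀, b₁} : Finset (Fin m)),
        K (σ (b, false)) (σ (b, true)) (τ (b, false)) (τ (b, true)) := by
    rw [Finset.prod_pair h.symm]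
    simp [phi, slot]
  have h4 : ∏ b ∈ ({b₀, b₁} : Finset (Fin m)),
        K (σ (b, false)) (σ (b, true)) (τ (b, false)) (τ (b, true)) =
      ∏ b, (if b ∈ ({b₀, b₁} : Finset (Fin m)) then
        K (σ (b, false)) (σ (b, true)) (τ (b, false)) (τ (b, true)) else 1) := by
    rw [Finset.prod_ite_mem, Finset.univ_inter]
  rw [h1, h3, h4, ← Finset.prod_mul_distrib]
  refine Finset.prod_congr rfl fun b _ => ?_
  by_cases hb : b ∈ ({b₀, b₁} : Finset (Fin m))
  · simp only [if_pos hb, mul_one]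
  · simp only [if_neg hb, one_mul]

theorem mix_pair {κ : Type} [Fintype κ] {K N : T4 m} {r : Fin 4 → Fin m × Bool}
    (hr : Function.Injective r) (hK : Supp r K)
    (ν : κ → Fin m × Bool → Fin m × Bool → ℝ)
    (hN : ∀ i j k l, N i j k l = ∑ a, ν a i j * ν a k l) {b₀ b₁ : Fin m} (h : b₁ ≠ b₀) :
    mix K N {b₀, b₁} = kap (fun i j k l => K (r i) (r j) (r k) (r l)) *
      ∑ c : Fin m → Option κ, yc r b₀ b₁ ν c 1 ^ 2 := by
  classical
  have inj : ∀ σ : Equiv.Perm (Fin m × Bool), Function.Injective (fun i => σ (slot b₀ b₁ i)) :=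
    fun σ => σ.injective.comp (slot_inj h)
  have h1 : mix K N {b₀, b₁} = ∑ c : Fin m → Option κ, ∑ π : Equiv.Perm (Fin 4),
      ∑ π' : Equiv.Perm (Fin 4), phi K (r ∘ π) (r ∘ π') *
        (yc r b₀ b₁ ν c π * yc r b₀ b₁ ν c π') := by
    have h2 : ∀ (c : Fin m → Option κ) (π π' : Equiv.Perm (Fin 4)),
        phi K (r ∘ π) (r ∘ π') * (yc r b₀ b₁ ν c π * yc r b₀ b₁ ν c π') =
        ∑ σ : Equiv.Perm (Fin m × Bool), ∑ τ : Equiv.Perm (Fin m × Bool),
          phi K (r ∘ π) (r ∘ π') *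
          ((sn σ * ((if (fun i => σ (slot b₀ b₁ i)) = r ∘ π then 1 else 0) *
            zc {b₀, b₁} ν c σ)) *
          (sn τ * ((if (fun i => τ (slot b₀ b₁ i)) = r ∘ π' then 1 else 0) *
            zc {b₀, b₁} ν c τ))) := by
      intro c π π'
      unfold yc
      rw [Finset.sum_mul_sum, Finset.mul_sum]
      exact Finset.sum_congr rfl fun σ _ => Finset.mul_sum _ _ _
    simp only [h2]
    have h3 : ∑ c : Fin m → Option κ, ∑ π : Equiv.Perm (Fin 4), ∑ π' : Equiv.Perm (Fin 4),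
        ∑ σ : Equiv.Perm (Fin m × Bool), ∑ τ : Equiv.Perm (Fin m × Bool),
          phi K (r ∘ π) (r ∘ π') *
          ((sn σ * ((if (fun i => σ (slot b₀ b₁ i)) = r ∘ π then 1 else 0) *
            zc {b₀, b₁} ν c σ)) *
          (sn τ * ((if (fun i => τ (slot b₀ b₁ i)) = r ∘ π' then 1 else 0) *
            zc {b₀, b₁} ν c τ))) =
        ∑ σ : Equiv.Perm (Fin m × Bool), ∑ τ : Equiv.Perm (Fin m × Bool),
        ∑ c : Fin m → Option κ, ∑ π : Equiv.Perm (Fin 4), ∑ π' : Equiv.Perm (Fin 4),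
          phi K (r ∘ π) (r ∘ π') *
          ((sn σ * ((if (fun i => σ (slot b₀ b₁ i)) = r ∘ π then 1 else 0) *
            zc {b₀, b₁} ν c σ)) *
          (sn τ * ((if (fun i => τ (slot b₀ b₁ i)) = r ∘ π' then 1 else 0) *
            zc {b₀, b₁} ν c τ))) := by
      simp only [← Fintype.sum_prod_type']
      refine Fintype.sum_equiv ⟨fun x => (x.2.2.2.1, x.2.2.2.2, x.1, x.2.1, x.2.2.1),
        fun x => (x.2.2.1, x.2.2.2.1, x.2.2.2.2, x.1, x.2.1), fun _ => rfl, fun _ => rfl⟩ _ _ ?_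
      intro x
      rfl
    rw [h3]
    unfold mix gm
    refine Finset.sum_congr rfl fun σ _ => Finset.sum_congr rfl fun τ _ => ?_
    rw [prod_mix ν hN h σ τ, phi_expand hr hK (inj σ) (inj τ), Finset.mul_sum, Finset.mul_sum]
    refine Finset.sum_congr rfl fun c _ => ?_
    rw [Finset.sum_mul, Finset.mul_sum]
    refine Finset.sum_congr rfl fun π _ => ?_
    rw [Finset.sum_mul, Finset.mul_sum]
    refine Finset.sum_congr rfl fun π' _ => ?_
    ring
  rw [h1, Finset.mul_sum]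
  refine Finset.sum_congr rfl fun c _ => ?_
  unfold kap
  rw [Finset.sum_mul]
  refine Finset.sum_congr rfl fun π _ => ?_
  rw [Finset.sum_mul]
  refine Finset.sum_congr rfl fun π' _ => ?_
  rw [yc_eq r h ν c π, yc_eq r h ν c π']
  simp only [phi, Function.comp_apply]
  ring

end Pool.Agent.W669.HD
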