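import Pool.Agent.W669.HD.Stm5

/-!
# Two pieces of dimension five: the inequality in components
-/

set_option autoImplicit false

namespace Pool.Agent.W669.HD

open Pool.Agent.W666.GB Finset

variable {m : ℕ}

/-- the tensor with components `Ω'` on five vectors -/
noncomputable def om5 (a : Fin m × Bool → Fin 5 → ℝ) (Ω' : Q5) : T4 m := fun i j k l =>
  ∑ p, ∑ q, ∑ r, ∑ s, a i p * a j q * a k r * a l s * Ω' p q r s

theorem om5_alt (a : Fin m × Bool → Fin 5 → ℝ) {Ω' : Q5} (h : Alt5 Ω') : Alt4 (om5 a Ω') where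
  a12 i j k l := by
    simp only [om5]
    rw [Finset.sum_comm, ← Finset.sum_neg_distrib]
    refine Finset.sum_congr rfl fun p _ => ?_
    rw [← Finset.sum_neg_distrib]
    refine Finset.sum_congr rfl fun q _ => ?_
    rw [← Finset.sum_neg_distrib]
    refine Finset.sum_congr rfl fun r _ => ?_
    rw [← Finset.sum_neg_distrib]
    refine Finset.sum_congr rfl fun s _ => ?_
    rw [h.a12 p q r s]
    ring
  a23 i j k l := by
    simp only [om5]
    rw [← Finset.sum_neg_distrib]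
    refine Finset.sum_congr rfl fun p _ => ?_
    rw [Finset.sum_comm, ← Finset.sum_neg_distrib]
    refine Finset.sum_congr rfl fun q _ => ?_
    rw [← Finset.sum_neg_distrib]
    refine Finset.sum_congr rfl fun r _ => ?_
    rw [← Finset.sum_neg_distrib]
    refine Finset.sum_congr rfl fun s _ => ?_
    rw [h.a23 p q r s]
    ring
  a34 i j k l := by
    simp only [om5]
    rw [← Finset.sum_neg_distrib]
    refine Finset.sum_congr rfl fun p _ => ?_
    rw [← Finset.sum_neg_distrib]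
    refine Finset.sum_congr rfl fun q _ => ?_
    rw [Finset.sum_comm, ← Finset.sum_neg_distrib]
    refine Finset.sum_congr rfl fun r _ => ?_
    rw [← Finset.sum_neg_distrib]
    refine Finset.sum_congr rfl fun s _ => ?_
    rw [h.a34 p q r s]
    ring

theorem fac5_sq {a : Fin m × Bool → Fin 5 → ℝ} {K : T4 m} {K' : Q5} (h : Fac5 a K K') {n : ℕ}
    (μ : Fin n → Fin 5 → Fin 5 → ℝ) (hμ : ∀ i j k l, K' i j k l = ∑ b, μ b i j * μ b k l) :
    SqOn (Fin n) K := by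
  refine ⟨fun b i j => ∑ p, ∑ q, a i p * a j q * μ b p q, fun i j k l => ?_⟩
  rw [h]
  simp only [hμ]
  have h1 : ∀ b, (∑ p, ∑ q, a i p * a j q * μ b p q) * (∑ r, ∑ s, a k r * a l s * μ b r s) =
      ∑ p, ∑ q, ∑ r, ∑ s, a i p * a j q * a k r * a l s * (μ b p q * μ b r s) := by
    intro b
    rw [Finset.sum_mul]
    refine Finset.sum_congr rfl fun p _ => ?_
    rw [Finset.sum_mul]
    refine Finset.sum_congr rfl fun q _ => ?_
    rw [Finset.mul_sum]
    refine Finset.sum_congr rfl fun r _ => ?_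
    rw [Finset.mul_sum]
    refine Finset.sum_congr rfl fun s _ => ?_
    ring
  simp only [h1]
  symm
  rw [Finset.sum_comm]
  refine Finset.sum_congr rfl fun p _ => ?_
  rw [Finset.sum_comm]
  refine Finset.sum_congr rfl fun q _ => ?_
  rw [Finset.sum_comm]
  refine Finset.sum_congr rfl fun r _ => ?_
  rw [Finset.sum_comm]
  refine Finset.sum_congr rfl fun s _ => ?_
  rw [Finset.mul_sum]

/-- A piece of dimension five: `P` has the curvature symmetries and `P + Ω = K` with `Ω`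
alternating and `K` a sum of squares, everything with components on five vectors. -/
structure Piece5 (κ : Type) [Fintype κ] (a : Fin m × Bool → Fin 5 → ℝ) (P Ω K : T4 m)
    (P' Ω' K' : Q5) : Prop where
  cur : Cur P
  alt : Alt4 Ω
  sum : ∀ i j k l, K i j k l = P i j k l + Ω i j k l
  sq : SqOn κ K
  fP : Fac5 a P P'
  fΩ : Fac5 a Ω Ω'
  fK : Fac5 a K K'
  sP : ∀ i j k l, P' k l i j = P' i j k l
  sΩ : ∀ i j k l, Ω' k l i j = Ω' i j k l
  sK : ∀ i j k l, K' k l i j = K' i j k l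
  gP : ∀ Z : (Fin 4 → Fin 5) → ℝ, AltF Z → 0 ≤ qf P' P' Z
  gK : ∀ Z : (Fin 4 → Fin 5) → ℝ, AltF Z → 2 * qf Ω' Ω' Z ≤ qf K' K' Z

theorem Alt5.pair {Ω : Q5} (h : Alt5 Ω) (i j k l : Fin 5) : Ω k l i j = Ω i j k l := by
  rw [h.a23 k i l j, h.a12 i k l j, h.a34 i k j l, h.a23 i j k l]
  ring

theorem exists_piece5 (hG : S_GOOD5) {a : Fin m × Bool → Fin 5 → ℝ} {P : T4 m} {P' Ω' : Q5}
    {n : ℕ} {μ : Fin n → Fin 5 → Fin 5 → ℝ} (hf : Fac5 a P P') (hP : Cur P) (hP' : Cur5 P')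
    (hΩ' : Alt5 Ω') (hμ : ∀ a i j, μ a j i = - μ a i j)
    (hK : ∀ i j k l, P' i j k l + Ω' i j k l = ∑ a, μ a i j * μ a k l) :
    ∃ (Ω K : T4 m) (K' : Q5), Piece5 (Fin n) a P Ω K P' Ω' K' := by
  have hfK : Fac5 a (fun i j k l => P i j k l + om5 a Ω' i j k l)
      (fun i j k l => P' i j k l + Ω' i j k l) := by
    intro i j k l
    simp only [hf i j k l, om5, ← Finset.sum_add_distrib, ← mul_add]
  refine ⟨om5 a Ω', fun i j k l => P i j k l + om5 a Ω' i j k l,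
    fun i j k l => P' i j k l + Ω' i j k l, hP, om5_alt a hΩ', fun _ _ _ _ => rfl,
    fac5_sq hfK μ hK, hf, fun _ _ _ _ => rfl, hfK, hP'.pair, hΩ'.pair, ?_, ?_, ?_⟩
  · intro i j k l
    simp only [hP'.pair i j k l, hΩ'.pair i j k l]
  · intro Z hZ
    exact (hG P' Ω' n μ hP' hΩ' hμ hK Z hZ).1
  · intro Z hZ
    exact (hG P' Ω' n μ hP' hΩ' hμ hK Z hZ).2

theorem gmw2_congr (w w' : Equiv.Perm (Fin m × Bool) → ℝ) (S : Finset (Fin m))
    {C C' : Fin m → T4 m} (h : ∀ b ∈ S, C b = C' b) : gmw2 w w' S C = gmw2 w w' S C' := by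
  simp only [gmw2]
  refine Finset.sum_congr rfl fun σ _ => Finset.sum_congr rfl fun τ _ => ?_
  congr 2
  exact Finset.prod_congr rfl fun b hb => by rw [h b hb]

section main

variable {κ₁ κ₂ : Type} [Fintype κ₁] [Fintype κ₂] {n₀ : ℕ} {P₀ P₁ P₂ Ω₁ Ω₂ K₁ K₂ : T4 m}
  {a₁ a₂ : Fin m × Bool → Fin 5 → ℝ} {P₁' P₂' Ω₁' Ω₂' K₁' K₂' : Q5}

/-- one piece twice: the value of a pair -/
theorem pair_val5 (hE : S_EXP5) (hP : S_PSD5) {κ : Type} [Fintype κ]
    {a : Fin m × Bool → Fin 5 → ℝ}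
    {P Ω K : T4 m} {P' Ω' K' : Q5} (h : Piece5 κ a P Ω K P' Ω' K') (h₀ : SqOn (Fin n₀) P₀)
    {b₀ b₁ : Fin m} (hne : b₁ ≠ b₀) :
    2 * gm (put P₀ b₀ b₁ Ω Ω) ≤ gm (put P₀ b₀ b₁ K K) := by
  have key : ∀ (X : T4 m) (X' : Q5), Fac5 a X X' → gm (put P₀ b₀ b₁ X X) =
      ∑ F : Fin 4 → Fin 5, ∑ G : Fin 4 → Fin 5,
        X' (F 0) (F 1) (G 0) (G 1) * X' (F 2) (F 3) (G 2) (G 3) *
          gmw2 (fun σ => 1 * awF a b₀ b₁ F σ) (fun σ => 1 * awF a b₀ b₁ G σ)
            ((univ.erase b₀).erase b₁) (fun _ => P₀) := by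
    intro X X' hX
    rw [gm_eq_gmw, hE m (fun _ => 1) univ (put P₀ b₀ b₁ X X) a X' X' b₀ b₁ (Finset.mem_univ _)
      (Finset.mem_univ _) hne (by simpa [put] using hX) (by simpa [put, hne] using hX)]
    refine Finset.sum_congr rfl fun F _ => Finset.sum_congr rfl fun G _ => ?_
    congr 1
    refine gmw2_congr _ _ _ fun b hb => ?_
    have h1 : b ≠ b₁ := Finset.ne_of_mem_erase hb
    have h0 : b ≠ b₀ := Finset.ne_of_mem_erase (Finset.mem_of_mem_erase hb)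
    simp [put, h0, h1]
  obtain ⟨n, v, hv, hval⟩ := hP m a b₀ b₁ (fun F G =>
    K' (F 0) (F 1) (G 0) (G 1) * K' (F 2) (F 3) (G 2) (G 3) -
      2 * (Ω' (F 0) (F 1) (G 0) (G 1) * Ω' (F 2) (F 3) (G 2) (G 3))) hne
    (fun F G => by
      rw [h.sK (F 0) (F 1) (G 0) (G 1), h.sK (F 2) (F 3) (G 2) (G 3),
        h.sΩ (F 0) (F 1) (G 0) (G 1), h.sΩ (F 2) (F 3) (G 2) (G 3)])
    (fun Z hZ => by
      have h1 := h.gK Z hZ
      simp only [qf, Finset.mul_sum] at h1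
      rw [← sub_nonneg, ← Finset.sum_sub_distrib] at h1
      refine h1.trans (le_of_eq ?_)
      refine Finset.sum_congr rfl fun F _ => ?_
      rw [← Finset.sum_sub_distrib]
      refine Finset.sum_congr rfl fun G _ => ?_
      ring)
  have h2 := hval (fun _ => 1) univ (fun _ => P₀) (fun _ _ _ => rfl)
  have hpos : 0 ≤ ∑ k, gmw (fun σ => 1 * v k σ) ((univ.erase b₀).erase b₁)
      (fun _ : Fin m => P₀) :=
    Finset.sum_nonneg fun k _ => gmw_nonneg (κ := Fin n₀) _ _ _ fun _ _ => h₀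
  rw [key K K' h.fK, key Ω Ω' h.fΩ, ← sub_nonneg]
  rw [← h2] at hpos
  refine hpos.trans (le_of_eq ?_)
  rw [Finset.mul_sum, ← Finset.sum_sub_distrib]
  refine Finset.sum_congr rfl fun F _ => ?_
  rw [Finset.mul_sum, ← Finset.sum_sub_distrib]
  refine Finset.sum_congr rfl fun G _ => ?_
  ring

/-- reduction of a pair of places with one piece -/
theorem pair_red (hE : S_EXP5) (hP : S_PSD5) {κ : Type} [Fintype κ]
    {a : Fin m × Bool → Fin 5 → ℝ} {P Ω K : T4 m} {P' Ω' K' : Q5}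
    (h : Piece5 κ a P Ω K P' Ω' K') {x y : Fin m} (hxy : y ≠ x) :
    ∃ (n : ℕ) (v : Fin n → Equiv.Perm (Fin m × Bool) → ℝ),
      (∀ k (σ σ' : Equiv.Perm (Fin m × Bool)),
        (∀ i, σ (slot x y i) = σ' (slot x y i)) → v k σ = v k σ') ∧
      ∀ (w : Equiv.Perm (Fin m × Bool) → ℝ) (S : Finset (Fin m)) (C : Fin m → T4 m),
        (∀ σ σ' : Equiv.Perm (Fin m × Bool),
          (∀ z : Fin m × Bool, z.1 ≠ x → z.1 ≠ y → σ z = σ' z) → w σ = w σ') →
        x ∈ S → y ∈ S → C x = P → C y = P →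
        gmw w S C = ∑ k, gmw (fun σ => w σ * v k σ) ((S.erase x).erase y) C := by
  obtain ⟨n, v, hv, hval⟩ := hP m a x y (fun F G =>
    P' (F 0) (F 1) (G 0) (G 1) * P' (F 2) (F 3) (G 2) (G 3)) hxy
    (fun F G => by
      rw [h.sP (F 0) (F 1) (G 0) (G 1), h.sP (F 2) (F 3) (G 2) (G 3)])
    (fun Z hZ => h.gP Z hZ)
  refine ⟨n, v, hv, fun w S C hw hx hy hCx hCy => ?_⟩
  rw [hE m w S C a P' P' x y hx hy hxy (by rw [hCx]; exact h.fP) (by rw [hCy]; exact h.fP)]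
  exact hval w S C hw

/-- two places -/
theorem two_places5 (hALT : S_ALT) (hDE : S_DE) (hE : S_EXP5) (hP : S_PSD5)
    (h₁ : Piece5 κ₁ a₁ P₁ Ω₁ K₁ P₁' Ω₁' K₁') (h₂ : Piece5 κ₂ a₂ P₂ Ω₂ K₂ P₂' Ω₂' K₂')
    (hP₀ : Cur P₀) (ν : Fin n₀ → Fin m × Bool → Fin m × Bool → ℝ)
    (hν : ∀ i j k l, P₀ i j k l = ∑ a, ν a i j * ν a k l) {b₀ b₁ : Fin m} (hne : b₁ ≠ b₀) :
    0 ≤ mix (fun i j k l => P₁ i j k l + P₂ i j k l) P₀ {b₀, b₁} := by
  classical
  set Q : T4 m := fun i j k l => P₁ i j k l + P₂ i j k l with hQ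
  set Ω : T4 m := fun i j k l => Ω₁ i j k l + Ω₂ i j k l with hΩ
  set K : T4 m := fun i j k l => K₁ i j k l + K₂ i j k l with hK
  set D : T4 m := fun i j k l => Ω₁ i j k l - Ω₂ i j k l with hD
  have hmix : ∀ X : T4 m, mix X P₀ {b₀, b₁} = gm (put P₀ b₀ b₁ X X) := by
    intro X
    unfold mix
    congr 1
    funext b
    by_cases h0 : b = b₀
    · simp [put, h0]
    · by_cases h1 : b = b₁
      · simp [put, h1]
      · simp [put, h0, h1]
  have cQ : Cur Q := h₁.cur.add h₂.cur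
  have aΩ : Alt4 Ω := h₁.alt.add h₂.alt
  have sK : ∀ i j k l, K i j k l = Q i j k l + Ω i j k l := by
    intro i j k l
    simp only [hK, hQ, hΩ, h₁.sum i j k l, h₂.sum i j k l]
    ring
  have z0 : gm (put P₀ b₀ b₁ Ω Q) = 0 := by
    refine hALT m _ b₀ (by simpa [put] using aΩ) ?_
    intro b hb
    by_cases h1 : b = b₁
    · simpa [put, h1, hne] using cQ
    · simpa [put, hb, h1] using hP₀
  have z1 : gm (put P₀ b₀ b₁ Q Ω) = 0 := by
    refine hALT m _ b₁ (by simpa [put, hne] using aΩ) ?_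
    intro b hb
    by_cases h1 : b = b₀
    · simpa [put, h1] using cQ
    · simpa [put, hb, h1] using hP₀
  have e1 := put_left (N := P₀) (b₀ := b₀) (b₁ := b₁) (Y := Q) sK
  have e2 := put_right (N := P₀) hne (X := K) sK
  have e3 := put_left (N := P₀) (b₀ := b₀) (b₁ := b₁) (Y := Ω) sK
  -- squares
  have e4 := put_left (N := P₀) (b₀ := b₀) (b₁ := b₁) (X := K) (X' := K₁) (X'' := K₂) (Y := K)
    (fun _ _ _ _ => rfl)
  have e5 := put_right (N := P₀) hne (X := K₁) (Y := K) (Y' := K₁) (Y'' := K₂)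
    (fun _ _ _ _ => rfl)
  have e6 := put_right (N := P₀) hne (X := K₂) (Y := K) (Y' := K₁) (Y'' := K₂)
    (fun _ _ _ _ => rfl)
  have s₀ : SqOn (Fin n₀) P₀ := ⟨ν, hν⟩
  have pos : ∀ X Y : T4 m, SqOn ((κ₁ ⊕ κ₂) ⊕ Fin n₀) X → SqOn ((κ₁ ⊕ κ₂) ⊕ Fin n₀) Y →
      0 ≤ gm (put P₀ b₀ b₁ X Y) := by
    intro X Y hX hY
    refine gm_sq (κ := (κ₁ ⊕ κ₂) ⊕ Fin n₀) _ fun b => ?_
    by_cases h0 : b = b₀
    · simpa [put, h0] using hX
    · by_cases h1 : b = b₁
      · simpa [put, h1, hne] using hY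
      · simpa [put, h0, h1] using s₀.inr
  have q1 : SqOn ((κ₁ ⊕ κ₂) ⊕ Fin n₀) K₁ := (h₁.sq.inl).inl
  have q2 : SqOn ((κ₁ ⊕ κ₂) ⊕ Fin n₀) K₂ := (h₂.sq.inr).inl
  have p12 := pos K₁ K₂ q1 q2
  have p21 := pos K₂ K₁ q2 q1
  -- alternating parts
  have f1 := put_left (N := P₀) (b₀ := b₀) (b₁ := b₁) (X := Ω) (X' := Ω₁) (X'' := Ω₂) (Y := Ω)
    (fun _ _ _ _ => rfl)
  have f2 := put_right (N := P₀) hne (X := Ω₁) (Y := Ω) (Y' := Ω₁) (Y'' := Ω₂)
    (fun _ _ _ _ => rfl)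
  have f3 := put_right (N := P₀) hne (X := Ω₂) (Y := Ω) (Y' := Ω₁) (Y'' := Ω₂)
    (fun _ _ _ _ => rfl)
  have g1 := put_left (N := P₀) (b₀ := b₀) (b₁ := b₁) (X := Ω₁) (X' := D) (X'' := Ω₂) (Y := D)
    (fun i j k l => by simp only [hD]; ring)
  have g2 := put_right (N := P₀) hne (X := Ω₁) (Y := Ω₁) (Y' := D) (Y'' := Ω₂)
    (fun i j k l => by simp only [hD]; ring)
  have g3 := put_right (N := P₀) hne (X := Ω₂) (Y := Ω₁) (Y' := D) (Y'' := Ω₂)
    (fun i j k l => by simp only [hD]; ring)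
  have hDpos : 0 ≤ gm (put P₀ b₀ b₁ D D) := by
    rw [← hmix]
    exact hDE m P₀ D n₀ ν hP₀ (h₁.alt.sub h₂.alt) hν b₀ b₁ hne
  have v1 := pair_val5 hE hP h₁ s₀ hne
  have v2 := pair_val5 hE hP h₂ s₀ hne
  rw [hmix]
  linarith

/-- one place -/
theorem one_place5 (hALT : S_ALT)
    (h₁ : Piece5 κ₁ a₁ P₁ Ω₁ K₁ P₁' Ω₁' K₁') (h₂ : Piece5 κ₂ a₂ P₂ Ω₂ K₂ P₂' Ω₂' K₂')
    (hP₀ : Cur P₀) (s₀ : SqOn (Fin n₀) P₀) (b₀ : Fin m) :
    0 ≤ mix (fun i j k l => P₁ i j k l + P₂ i j k l) P₀ {b₀} := by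
  classical
  have e1 := gm_lin (m := m) b₀
    (C := fun b => if b ∈ ({b₀} : Finset (Fin m)) then
      (fun i j k l => K₁ i j k l + K₂ i j k l) else P₀)
    (C' := fun b => if b ∈ ({b₀} : Finset (Fin m)) then
      (fun i j k l => P₁ i j k l + P₂ i j k l) else P₀)
    (C'' := fun b => if b ∈ ({b₀} : Finset (Fin m)) then
      (fun i j k l => Ω₁ i j k l + Ω₂ i j k l) else P₀)
    (fun b' hb' => by simp [hb']) (fun b' hb' => by simp [hb'])
    (fun i j k l => by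
      simp only [Finset.mem_singleton, if_true, h₁.sum i j k l, h₂.sum i j k l]
      ring)
  have z : gm (fun b => if b ∈ ({b₀} : Finset (Fin m)) then
      (fun i j k l => Ω₁ i j k l + Ω₂ i j k l) else P₀) = 0 := by
    refine hALT m _ b₀ (by simpa using h₁.alt.add h₂.alt) ?_
    intro b hb
    simpa [hb] using hP₀
  have pos : 0 ≤ gm (fun b => if b ∈ ({b₀} : Finset (Fin m)) then
      (fun i j k l => K₁ i j k l + K₂ i j k l) else P₀) := by
    refine gm_sq (κ := (κ₁ ⊕ κ₂) ⊕ Fin n₀) _ fun b => ?_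
    by_cases h0 : b = b₀
    · simpa [h0] using (h₁.sq.add h₂.sq).inl
    · simpa [h0] using s₀.inr
  unfold mix
  linarith

/-- two places with the first piece, one place with the second piece -/
theorem three_val5 (hALT : S_ALT) (hE : S_EXP5) (hP : S_PSD5) {κ : Type} [Fintype κ]
    {a : Fin m × Bool → Fin 5 → ℝ} {P Ω K : T4 m} {P' Ω' K' : Q5}
    (h : Piece5 κ a P Ω K P' Ω' K') {κ' : Type} [Fintype κ']
    {a' : Fin m × Bool → Fin 5 → ℝ} {R Θ L : T4 m} {R' Θ' L' : Q5}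
    (h' : Piece5 κ' a' R Θ L R' Θ' L') (hP₀ : Cur P₀) (s₀ : SqOn (Fin n₀) P₀)
    (C : Fin m → T4 m) {x y z : Fin m} (hxy : y ≠ x) (hxz : z ≠ x) (hyz : z ≠ y)
    (hx : C x = P) (hy : C y = P) (hz : C z = R) (hC : ∀ b, b ≠ x → b ≠ y → b ≠ z → C b = P₀) :
    0 ≤ gm C := by
  classical
  have e1 := gm_lin (m := m) z (C := Function.update C z L) (C' := C)
    (C'' := Function.update C z Θ)
    (fun b' hb' => by simp [hb']) (fun b' hb' => by simp [hb'])
    (fun i j k l => by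
      simp only [Function.update_self, hz]
      exact h'.sum i j k l)
  have z0 : gm (Function.update C z Θ) = 0 := by
    refine hALT m _ z (by simpa using h'.alt) ?_
    intro b hb
    rw [Function.update_of_ne hb]
    by_cases h1 : b = x
    · rw [h1, hx]; exact h.cur
    · by_cases h2 : b = y
      · rw [h2, hy]; exact h.cur
      · rw [hC b h1 h2 hb]; exact hP₀
  have pos : 0 ≤ gm (Function.update C z L) := by
    obtain ⟨n, v, hv, hval⟩ := pair_red hE hP h hxy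
    rw [gm_eq_gmw, hval (fun _ => 1) univ (Function.update C z L) (fun _ _ _ => rfl)
      (Finset.mem_univ _) (Finset.mem_univ _) (by rw [Function.update_of_ne hxz.symm, hx])
      (by rw [Function.update_of_ne hyz.symm, hy])]
    refine Finset.sum_nonneg fun k _ => gmw_nonneg (κ := κ' ⊕ Fin n₀) _ _ _ fun b hb => ?_
    have h2 : b ≠ y := Finset.ne_of_mem_erase hb
    have h1 : b ≠ x := Finset.ne_of_mem_erase (Finset.mem_of_mem_erase hb)
    by_cases h3 : b = z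
    · rw [h3, Function.update_self]; exact h'.sq.inl
    · rw [Function.update_of_ne h3, hC b h1 h2 h3]; exact s₀.inr
  linarith

/-- two places with the first piece, two places with the second piece -/
theorem four_val5 (hE : S_EXP5) (hP : S_PSD5) {κ : Type} [Fintype κ]
    {a : Fin m × Bool → Fin 5 → ℝ} {P Ω K : T4 m} {P' Ω' K' : Q5}
    (h : Piece5 κ a P Ω K P' Ω' K') {κ' : Type} [Fintype κ']
    {a' : Fin m × Bool → Fin 5 → ℝ} {R Θ L : T4 m} {R' Θ' L' : Q5}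
    (h' : Piece5 κ' a' R Θ L R' Θ' L') (s₀ : SqOn (Fin n₀) P₀)
    (C : Fin m → T4 m) {x y z u : Fin m} (hxy : y ≠ x) (hxz : z ≠ x) (hyz : z ≠ y)
    (hxu : u ≠ x) (hyu : u ≠ y) (hzu : u ≠ z)
    (hx : C x = P) (hy : C y = P) (hz : C z = R) (hu : C u = R)
    (hC : ∀ b, b ≠ x → b ≠ y → b ≠ z → b ≠ u → C b = P₀) :
    0 ≤ gm C := by
  classical
  obtain ⟨n, v, hv, hval⟩ := pair_red hE hP h hxy
  obtain ⟨n', v', hv', hval'⟩ := pair_red hE hP h' hzu
  rw [gm_eq_gmw, hval (fun _ => 1) univ C (fun _ _ _ => rfl)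
      (Finset.mem_univ _) (Finset.mem_univ _) hx hy]
  refine Finset.sum_nonneg fun k _ => ?_
  rw [hval' (fun σ => 1 * v k σ) ((univ.erase x).erase y) C ?_
    (Finset.mem_erase.mpr ⟨hyz, Finset.mem_erase.mpr ⟨hxz, Finset.mem_univ _⟩⟩)
    (Finset.mem_erase.mpr ⟨hyu, Finset.mem_erase.mpr ⟨hxu, Finset.mem_univ _⟩⟩) hz hu]
  · refine Finset.sum_nonneg fun k' _ => gmw_nonneg (κ := Fin n₀) _ _ _ fun b hb => ?_
    have h4 : b ≠ u := Finset.ne_of_mem_erase hb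
    have hb := Finset.mem_of_mem_erase hb
    have h3 : b ≠ z := Finset.ne_of_mem_erase hb
    have hb := Finset.mem_of_mem_erase hb
    have h2 : b ≠ y := Finset.ne_of_mem_erase hb
    have h1 : b ≠ x := Finset.ne_of_mem_erase (Finset.mem_of_mem_erase hb)
    rw [hC b h1 h2 h3 h4]
    exact s₀
  · intro σ σ' hσ
    simp only [one_mul]
    refine hv k σ σ' fun i => hσ _ ?_ ?_
    · fin_cases i <;> simp [slot, hxz.symm, hyz.symm]
    · fin_cases i <;> simp [slot, hxu.symm, hyu.symm]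

/-- three or more places -/
theorem many_places5 (hALT : S_ALT) (hE : S_EXP5) (hP : S_PSD5) (hVAN : S_VAN5)
    (h₁ : Piece5 κ₁ a₁ P₁ Ω₁ K₁ P₁' Ω₁' K₁') (h₂ : Piece5 κ₂ a₂ P₂ Ω₂ K₂ P₂' Ω₂' K₂')
    (hP₀ : Cur P₀) (s₀ : SqOn (Fin n₀) P₀) {S : Finset (Fin m)} (hS : 3 ≤ S.card) :
    0 ≤ mix (fun i j k l => P₁ i j k l + P₂ i j k l) P₀ S := by
  classical
  rw [mix_expand]
  refine Finset.sum_nonneg fun T hT => ?_
  have hTS := Finset.mem_powerset.mp hT
  set C : Fin m → T4 m := fun b => if b ∈ T then P₁ else if b ∈ S then P₂ else P₀ with hC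
  have c1 : ∀ b, b ∈ T → C b = P₁ := fun b hb => by simp [hC, hb]
  have c2 : ∀ b, b ∈ S \ T → C b = P₂ := fun b hb => by
    have := Finset.mem_sdiff.mp hb
    simp [hC, this.1, this.2]
  have c0 : ∀ b, b ∉ T → b ∉ S \ T → C b = P₀ := fun b hb hb' => by
    have : b ∉ S := fun h => hb' (Finset.mem_sdiff.mpr ⟨h, hb⟩)
    simp [hC, this, hb]
  have hcard : (S \ T).card + T.card = S.card := Finset.card_sdiff_add_card_eq_card hTS
  have dis : ∀ x y, x ∈ T → y ∈ S \ T → y ≠ x := by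
    rintro x y hx hy rfl
    exact (Finset.mem_sdiff.mp hy).2 hx
  rcases Nat.lt_or_ge 2 T.card with ht | ht
  · obtain ⟨x, hx, y, hy, z, hz, hxy, hxz, hyz⟩ := Finset.two_lt_card.mp ht
    exact (hVAN m C a₁ P₁' P₁' P₁' x y z hxy.symm hxz.symm hyz.symm (by rw [c1 x hx]; exact h₁.fP)
      (by rw [c1 y hy]; exact h₁.fP) (by rw [c1 z hz]; exact h₁.fP)).ge
  rcases Nat.lt_or_ge 2 (S \ T).card with hu | hu
  · obtain ⟨x, hx, y, hy, z, hz, hxy, hxz, hyz⟩ := Finset.two_lt_card.mp hu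
    exact (hVAN m C a₂ P₂' P₂' P₂' x y z hxy.symm hxz.symm hyz.symm (by rw [c2 x hx]; exact h₂.fP)
      (by rw [c2 y hy]; exact h₂.fP) (by rw [c2 z hz]; exact h₂.fP)).ge
  have hcases : (T.card = 2 ∧ (S \ T).card = 1) ∨ (T.card = 1 ∧ (S \ T).card = 2) ∨
      (T.card = 2 ∧ (S \ T).card = 2) := by omega
  rcases hcases with ⟨ht, hu⟩ | ⟨ht, hu⟩ | ⟨ht, hu⟩
  · obtain ⟨x, y, hxy, hT2⟩ := Finset.card_eq_two.mp ht
    obtain ⟨z, hz⟩ := Finset.card_eq_one.mp hu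
    have mx : x ∈ T := by simp [hT2]
    have my : y ∈ T := by simp [hT2]
    have mz : z ∈ S \ T := by simp [hz]
    refine three_val5 hALT hE hP h₁ h₂ hP₀ s₀ C hxy.symm (dis x z mx mz) (dis y z my mz) (c1 x mx)
      (c1 y my) (c2 z mz) ?_
    intro b h1 h2 h3
    exact c0 b (by simp [hT2, h1, h2]) (by simp [hz, h3])
  · obtain ⟨x, y, hxy, hT2⟩ := Finset.card_eq_two.mp hu
    obtain ⟨z, hz⟩ := Finset.card_eq_one.mp ht
    have mx : x ∈ S \ T := by simp [hT2]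
    have my : y ∈ S \ T := by simp [hT2]
    have mz : z ∈ T := by simp [hz]
    refine three_val5 hALT hE hP h₂ h₁ hP₀ s₀ C hxy.symm (dis z x mz mx).symm (dis z y mz my).symm
      (c2 x mx) (c2 y my) (c1 z mz) ?_
    intro b h1 h2 h3
    exact c0 b (by simp [hz, h3]) (by simp [hT2, h1, h2])
  · obtain ⟨x, y, hxy, hT2⟩ := Finset.card_eq_two.mp ht
    obtain ⟨z, u, hzu, hz⟩ := Finset.card_eq_two.mp hu
    have mx : x ∈ T := by simp [hT2]
    have my : y ∈ T := by simp [hT2]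
    have mz : z ∈ S \ T := by simp [hz]
    have mu : u ∈ S \ T := by simp [hz]
    refine four_val5 hE hP h₁ h₂ s₀ C hxy.symm (dis x z mx mz) (dis y z my mz) (dis x u mx mu)
      (dis y u my mu) hzu.symm (c1 x mx) (c1 y my) (c2 z mz) (c2 u mu) ?_
    intro b h1 h2 h3 h4
    exact c0 b (by simp [hT2, h1, h2]) (by simp [hz, h3, h4])

/-- The inequality for two pieces of dimension five, in components. -/
theorem two_main5 (hALT : S_ALT) (hDE : S_DE) (hE : S_EXP5) (hP : S_PSD5) (hVAN : S_VAN5)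
    (h₁ : Piece5 κ₁ a₁ P₁ Ω₁ K₁ P₁' Ω₁' K₁') (h₂ : Piece5 κ₂ a₂ P₂ Ω₂ K₂ P₂' Ω₂' K₂')
    (hP₀ : Cur P₀) (ν : Fin n₀ → Fin m × Bool → Fin m × Bool → ℝ)
    (hν : ∀ i j k l, P₀ i j k l = ∑ a, ν a i j * ν a k l) :
    gm (fun _ : Fin m => P₀) ≤
      gm (fun _ : Fin m => (fun i j k l => P₁ i j k l + P₂ i j k l + P₀ i j k l : T4 m)) := by
  classical
  have e := gm_add (m := m) (fun i j k l => P₁ i j k l + P₂ i j k l) P₀
  have hmem : (∅ : Finset (Fin m)) ∈ (univ : Finset (Fin m)).powerset := by simp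
  rw [← Finset.add_sum_erase _ _ hmem, mix_empty] at e
  rw [e]
  have s₀ : SqOn (Fin n₀) P₀ := ⟨ν, hν⟩
  have hpos : 0 ≤ ∑ S ∈ ((univ : Finset (Fin m)).powerset).erase ∅,
      mix (fun i j k l => P₁ i j k l + P₂ i j k l) P₀ S := by
    refine Finset.sum_nonneg fun S hS => ?_
    have hne : S ≠ ∅ := Finset.ne_of_mem_erase hS
    have hcp : 0 < S.card := Finset.card_pos.mpr (Finset.nonempty_iff_ne_empty.mpr hne)
    rcases Nat.lt_or_ge S.card 2 with h1 | h1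
    · have hc : S.card = 1 := by omega
      obtain ⟨b, rfl⟩ := Finset.card_eq_one.mp hc
      exact one_place5 hALT h₁ h₂ hP₀ s₀ b
    · rcases Nat.lt_or_ge S.card 3 with h2 | h2
      · have hc : S.card = 2 := by omega
        obtain ⟨b₀, b₁, hne', rfl⟩ := Finset.card_eq_two.mp hc
        exact two_places5 hALT hDE hE hP h₁ h₂ hP₀ ν hν hne'.symm
      · exact many_places5 hALT hE hP hVAN h₁ h₂ hP₀ s₀ h2
  linarith

end main

end Pool.Agent.W669.HD
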