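import Pool.Agent.W669.HD.FiveP
import Pool.Agent.W238.HD.PSD5

/-!
# Final forms
-/

set_option autoImplicit false

namespace Pool.Agent.W669.HD

open Pool.Agent.W666.GB Finset

section neg

variable {m : ℕ} {V : Type} [NormedAddCommGroup V] [InnerProductSpace ℝ V]

theorem five_two (e : OrthonormalBasis (Fin m × Bool) ℝ V)
    {R : V → V → V → V → ℝ} {δ : ℝ} (hδ : 0 ≤ δ)
    (h : PiecesD 5 2 δ R) : roundGB m δ ≤ (-1) ^ m * gbc e R :=
  five_two' Pool.Agent.W238.HD.psd5 e hδ h

theorem five_plane (e : OrthonormalBasis (Fin m × Bool) ℝ V)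
    {R : V → V → V → V → ℝ} (hR : AlgCurv R) {δ : ℝ} (hδ : 0 ≤ δ)
    (h : FivePlane (addT R fun x y z w => δ * unitT x y z w)) :
    roundGB m δ ≤ (-1) ^ m * gbc e R :=
  five_plane' Pool.Agent.W238.HD.psd5 e hR hδ h

end neg

section fields

variable {m : ℕ} {M : Type} [MeasurableSpace M] (μ : MeasureTheory.Measure M) (K : CurvField m M)

theorem field_five (h : ∀ p, PiecesD 5 2 0 (K.R p)) : 0 ≤ (-1) ^ m * ∫ p, K.gb p ∂μ :=
  field_five' Pool.Agent.W238.HD.psd5 μ K h

theorem field_fiveδ [MeasureTheory.IsFiniteMeasure μ] (hi : MeasureTheory.Integrable K.gb μ)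
    {δ : ℝ} (hδ : 0 ≤ δ) (h : ∀ p, PiecesD 5 2 δ (K.R p)) :
    roundGB m δ * μ.real Set.univ ≤ (-1) ^ m * ∫ p, K.gb p ∂μ :=
  field_five'' Pool.Agent.W238.HD.psd5 μ K hi hδ h

theorem field_plane (h : ∀ p, FivePlane (K.R p)) : 0 ≤ (-1) ^ m * ∫ p, K.gb p ∂μ := by
  rw [← MeasureTheory.integral_const_mul]
  refine MeasureTheory.integral_nonneg fun p => ?_
  have h1 := five_plane (K.e p) (K.curv p) le_rfl (by rw [add_zero_unit]; exact h p)
  exact (roundGB_nonneg le_rfl).trans h1

theorem field_planeδ [MeasureTheory.IsFiniteMeasure μ] (hi : MeasureTheory.Integrable K.gb μ)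
    {δ : ℝ} (hδ : 0 ≤ δ) (h : ∀ p, FivePlane (addT (K.R p) fun x y z w => δ * unitT x y z w)) :
    roundGB m δ * μ.real Set.univ ≤ (-1) ^ m * ∫ p, K.gb p ∂μ := by
  rw [← MeasureTheory.integral_const_mul]
  have h1 : roundGB m δ * μ.real Set.univ = ∫ _, roundGB m δ ∂μ := by
    rw [MeasureTheory.integral_const, smul_eq_mul, mul_comm]
  rw [h1]
  refine MeasureTheory.integral_mono (MeasureTheory.integrable_const _) (hi.const_mul _) fun p => ?_
  exact five_plane (K.e p) (K.curv p) hδ (h p)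

end fields

section pos

variable {m : ℕ} {V : Type} [NormedAddCommGroup V] [InnerProductSpace ℝ V]

/-- `R` is strongly nonnegative: `R + ω` is nonnegative on all bivectors for some `4`-form `ω`. -/
def StrongPos (R : V → V → V → V → ℝ) : Prop :=
  ∃ ω : V → V → V → V → ℝ, FourForm ω ∧ OpNonneg (addT R ω)

/-- `R` is the sum of `k` curvature tensors `S i`, each living on some subspace `W i`, where either
`dim (W i) ≤ 4` and the sectional curvatures of `S i` are nonnegative, or `dim (W i) ≤ d` and `S i`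
is strongly nonnegative, and of a curvature tensor `R₀` whose curvature operator is at least
`δ`. -/
def PosPieces (d k : ℕ) (δ : ℝ) (R : V → V → V → V → ℝ) : Prop :=
  ∃ (S : Fin k → V → V → V → V → ℝ) (W : Fin k → Submodule ℝ V) (R₀ : V → V → V → V → ℝ),
    (∀ i, AlgCurv (S i) ∧ LivesOn (W i) (S i) ∧
      ((Module.finrank ℝ (W i) ≤ 4 ∧ ∀ x y, 0 ≤ S i x y x y) ∨
        (Module.finrank ℝ (W i) ≤ d ∧ StrongPos (S i)))) ∧
    AlgCurv R₀ ∧ OpNonneg (addT R₀ fun x y z w => -δ * unitT x y z w) ∧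
    ∀ x y z w, R x y z w = ∑ i, S i x y z w + R₀ x y z w

/-- The positive form of `FivePlane`: for some subspace `W` of dimension at most five, some
`4`-form `ω` on `W` and some form `K ≥ 0` on the bivectors of `W`, one has `R + ω ≥ K`, and the
Bianchi sums satisfy `(cyc ω)² ≤ 2 (cyc K)²`. -/
def PosPlane (R : V → V → V → V → ℝ) : Prop :=
  ∃ (W : Submodule ℝ V) (ω K : V → V → V → V → ℝ),
    Module.finrank ℝ W ≤ 5 ∧ FourForm ω ∧ LivesOn W ω ∧ BiForm K ∧ LivesOn W K ∧ OpNonneg K ∧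
      OpNonneg (addT (addT R ω) (negT K)) ∧
      ∀ x y z w, cyc ω x y z w ^ 2 ≤ 2 * cyc K x y z w ^ 2

theorem gbc_neg (e : OrthonormalBasis (Fin m × Bool) ℝ V) (R : V → V → V → V → ℝ) :
    (-1) ^ m * gbc e (negT R) = gbc e R := by
  unfold gbc negT
  rw [mul_left_comm]
  congr 1
  rw [Finset.mul_sum]
  refine Finset.sum_congr rfl fun σ _ => ?_
  rw [Finset.mul_sum]
  refine Finset.sum_congr rfl fun τ _ => ?_
  rw [Finset.prod_neg, Finset.card_univ, Fintype.card_fin]
  have h1 : ((-1 : ℝ) ^ m) * (-1) ^ m = 1 := by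
    rw [← mul_pow]; simp
  linear_combination (((Equiv.Perm.sign σ : ℤ) : ℝ) * ((Equiv.Perm.sign τ : ℤ) : ℝ) *
        ∏ b : Fin m, R (e (σ (b, false))) (e (σ (b, true))) (e (τ (b, false)))
          (e (τ (b, true)))) * h1

theorem neg_curv {R : V → V → V → V → ℝ} (h : AlgCurv R) : AlgCurv (negT R) where
  add x x' y z w := by simp only [negT, h.add]; ring
  smul t x y z w := by simp only [negT, h.smul]; ring
  anti x y z w := by simp only [negT]; rw [h.anti]
  pair x y z w := by simp only [negT]; rw [h.pair]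
  bianchi x y z w := by
    have := h.bianchi x y z w
    simp only [negT]
    linarith

theorem neg_form {ω : V → V → V → V → ℝ} (h : FourForm ω) : FourForm (negT ω) where
  add x x' y z w := by simp only [negT, h.add]; ring
  smul t x y z w := by simp only [negT, h.smul]; ring
  anti x y z w := by simp only [negT]; rw [h.anti]
  pair x y z w := by simp only [negT]; rw [h.pair]
  alt x y z w := by simp only [negT]; rw [h.alt]

theorem PosPieces.neg {d k : ℕ} {δ : ℝ} {R : V → V → V → V → ℝ} (h : PosPieces d k δ R) :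
    PiecesD d k δ (negT R) := by
  obtain ⟨S, W, R₀, hS, h₀, hn, hR⟩ := h
  refine ⟨fun i => negT (S i), W, negT R₀, fun i => ?_, neg_curv h₀, ?_, ?_⟩
  · obtain ⟨h1, h2, h3⟩ := hS i
    refine ⟨neg_curv h1, fun x hx y z w => ?_, ?_⟩
    · simp only [negT, h2 x hx, neg_zero]
    · rcases h3 with ⟨h3, h4⟩ | ⟨h3, ω, h4, h5⟩
      · refine Or.inl ⟨h3, fun x y => ?_⟩
        have := h4 x y
        simp only [negT]
        linarith
      · refine Or.inr ⟨h3, negT ω, neg_form h4, fun n x y => ?_⟩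
        have h6 := h5 n x y
        refine h6.trans (le_of_eq ?_)
        refine Finset.sum_congr rfl fun a _ => Finset.sum_congr rfl fun b _ => ?_
        simp only [negT, addT]
        ring
  · intro n x y
    have h6 := hn n x y
    refine h6.trans (le_of_eq ?_)
    refine Finset.sum_congr rfl fun a _ => Finset.sum_congr rfl fun b _ => ?_
    simp only [negT, addT]
    ring
  · intro x y z w
    simp only [negT, hR x y z w, Finset.sum_neg_distrib]
    ring

theorem PosPlane.neg {R : V → V → V → V → ℝ} {δ : ℝ}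
    (h : PosPlane (addT R fun x y z w => -δ * unitT x y z w)) :
    FivePlane (addT (negT R) fun x y z w => δ * unitT x y z w) := by
  obtain ⟨W, ω, K, hW, hω, hωW, hK, hKW, hKn, hN, hcyc⟩ := h
  refine ⟨W, negT ω, K, hW, neg_form hω, ?_, hK, hKW, hKn, ?_, ?_⟩
  · intro x hx y z w
    simp only [negT, hωW x hx, neg_zero]
  · intro n x y
    have h6 := hN n x y
    refine h6.trans (le_of_eq ?_)
    refine Finset.sum_congr rfl fun a _ => Finset.sum_congr rfl fun b _ => ?_
    simp only [negT, addT]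
    ring
  · intro x y z w
    have h7 := hcyc x y z w
    have h8 : cyc (negT ω) x y z w = - cyc ω x y z w := by
      simp only [cyc, negT]
      ring
    rw [h8, neg_sq]
    exact h7

theorem pos_pieces (e : OrthonormalBasis (Fin m × Bool) ℝ V) {R : V → V → V → V → ℝ} {δ : ℝ}
    (hδ : 0 ≤ δ) (h : PosPieces 5 2 δ R) : roundGB m δ ≤ gbc e R := by
  rw [← gbc_neg e R]
  exact five_two e hδ h.neg

theorem pos_plane (e : OrthonormalBasis (Fin m × Bool) ℝ V) {R : V → V → V → V → ℝ} {δ : ℝ}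
    (hR : AlgCurv R) (hδ : 0 ≤ δ) (h : PosPlane (addT R fun x y z w => -δ * unitT x y z w)) :
    roundGB m δ ≤ gbc e R := by
  rw [← gbc_neg e R]
  exact five_plane e (neg_curv hR) hδ h.neg

theorem roundGB_pos {δ : ℝ} (hδ : 0 < δ) : 0 < roundGB m δ := by
  have hπ := Real.pi_pos
  unfold roundGB
  positivity

end pos

section posfields

variable {m : ℕ} {M : Type} [MeasurableSpace M] (μ : MeasureTheory.Measure M) (K : CurvField m M)

theorem int_pos {δ : M → ℝ} (hi : MeasureTheory.Integrable K.gb μ) (hδ : ∀ p, 0 ≤ δ p)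
    (hμ : μ {p | 0 < δ p} ≠ 0) (h : ∀ p, roundGB m (δ p) ≤ K.gb p) : 0 < ∫ p, K.gb p ∂μ := by
  have h0 : 0 ≤ K.gb := fun p => (roundGB_nonneg (hδ p)).trans (h p)
  rw [MeasureTheory.integral_pos_iff_support_of_nonneg h0 hi]
  refine lt_of_lt_of_le (pos_iff_ne_zero.mpr hμ) (MeasureTheory.measure_mono fun p hp => ?_)
  exact ((roundGB_pos hp).trans_le (h p)).ne'

theorem field_pos_pieces {δ : M → ℝ} (hi : MeasureTheory.Integrable K.gb μ) (hδ : ∀ p, 0 ≤ δ p)
    (hμ : μ {p | 0 < δ p} ≠ 0) (h : ∀ p, PosPieces 5 2 (δ p) (K.R p)) : 0 < ∫ p, K.gb p ∂μ :=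
  int_pos μ K hi hδ hμ fun p => pos_pieces (K.e p) (hδ p) (h p)

theorem field_pos_plane {δ : M → ℝ} (hi : MeasureTheory.Integrable K.gb μ) (hδ : ∀ p, 0 ≤ δ p)
    (hμ : μ {p | 0 < δ p} ≠ 0)
    (h : ∀ p, PosPlane (addT (K.R p) fun x y z w => -(δ p) * unitT x y z w)) :
    0 < ∫ p, K.gb p ∂μ :=
  int_pos μ K hi hδ hμ fun p => pos_plane (K.e p) (K.curv p) (hδ p) (h p)

end posfields

end Pool.Agent.W669.HD
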