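import Pool.Agent.W669.HD.Stm3
import Pool.Agent.W391.HD.ALT
import Pool.Agent.W427.HD.DE
import Pool.Agent.W740.HD.FAC
import Pool.Agent.W460.HD.VAN
import Pool.Agent.W155.HD.K4
import Pool.Agent.W140.HD.SQ4
import Pool.Agent.W612.HD.VEC

/-!
# Sums of pieces of dimension four and a nonpositive curvature operator
-/

set_option autoImplicit false

namespace Pool.Agent.W669.HD

open Pool.Agent.W666.GB Finset

/-- `R` is the sum of `k` curvature tensors with nonpositive sectional curvatures, each living on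
a subspace of dimension at most four, and of a curvature tensor whose curvature operator is at most
`-δ`. -/
def Pieces {V : Type} [NormedAddCommGroup V] [InnerProductSpace ℝ V] (k : ℕ) (δ : ℝ)
    (R : V → V → V → V → ℝ) : Prop :=
  ∃ (S : Fin k → V → V → V → V → ℝ) (W : Fin k → Submodule ℝ V) (R₀ : V → V → V → V → ℝ),
    (∀ i, AlgCurv (S i) ∧ Module.finrank ℝ (W i) ≤ 4 ∧ LivesOn (W i) (S i) ∧
      ∀ x y, S i x y x y ≤ 0) ∧
    AlgCurv R₀ ∧ OpNonneg (negT (addT R₀ fun x y z w => δ * unitT x y z w)) ∧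
    ∀ x y z w, R x y z w = ∑ i, S i x y z w + R₀ x y z w

theorem pieces_two {m : ℕ} {V : Type} [NormedAddCommGroup V] [InnerProductSpace ℝ V]
    (e : OrthonormalBasis (Fin m × Bool) ℝ V) {R : V → V → V → V → ℝ} {δ : ℝ} (hδ : 0 ≤ δ)
    (h : Pieces 2 δ R) : roundGB m δ ≤ (-1) ^ m * gbc e R := by
  obtain ⟨S, W, R₀, hS, h₀, hn, hR⟩ := h
  have h1 := hS 0
  have h2 := hS 1
  have key := two_pieces Pool.Agent.W391.HD.alt Pool.Agent.W427.HD.de Pool.Agent.W740.HD.fac
    Pool.Agent.W460.HD.VAN.main Pool.Agent.W155.HD.K4.k4 Pool.Agent.W140.HD.SQ4.sq4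
    Pool.Agent.W612.HD.VEC e (W 0) (W 1) h1.1 h2.1 h₀ h1.2.1 h2.2.1 h1.2.2.1 h2.2.2.1 h1.2.2.2
    h2.2.2.2 hδ hn
  have : addT (addT (S 0) (S 1)) R₀ = R := by
    funext x y z w
    rw [hR, Fin.sum_univ_two]
    rfl
  rwa [this] at key

theorem field_two {m : ℕ} {M : Type} [MeasurableSpace M] (μ : MeasureTheory.Measure M)
    (K : CurvField m M) (h : ∀ p, Pieces 2 0 (K.R p)) :
    0 ≤ (-1) ^ m * ∫ p, K.gb p ∂μ := by
  rw [← MeasureTheory.integral_const_mul]
  refine MeasureTheory.integral_nonneg fun p => ?_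
  exact (roundGB_nonneg le_rfl).trans (pieces_two (K.e p) le_rfl (h p))

theorem field_two' {m : ℕ} {M : Type} [MeasurableSpace M] (μ : MeasureTheory.Measure M)
    [MeasureTheory.IsFiniteMeasure μ] (K : CurvField m M) (hi : MeasureTheory.Integrable K.gb μ)
    {δ : ℝ} (hδ : 0 ≤ δ) (h : ∀ p, Pieces 2 δ (K.R p)) :
    roundGB m δ * μ.real Set.univ ≤ (-1) ^ m * ∫ p, K.gb p ∂μ := by
  rw [← MeasureTheory.integral_const_mul]
  have h1 : roundGB m δ * μ.real Set.univ = ∫ _, roundGB m δ ∂μ := by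
    rw [MeasureTheory.integral_const, smul_eq_mul, mul_comm]
  rw [h1]
  refine MeasureTheory.integral_mono (MeasureTheory.integrable_const _) (hi.const_mul _) fun p => ?_
  exact pieces_two (K.e p) hδ (h p)

section example3

/-- the six-dimensional Euclidean space -/
abbrev E6 := EuclideanSpace ℝ (Fin 3 × Bool)

/-- the skew forms -/
noncomputable def AA (s : Fin 3) (x y : E6) : ℝ := ∑ i, ∑ j, al s i j * (x i * y j)

theorem al_anti (s : Fin 3) (i j : Fin 3 × Bool) : al s j i = - al s i j := by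
  unfold al
  by_cases h : i.2 = j.2
  · rw [if_pos h, if_pos h.symm]
    have h12 : s + 1 ≠ s + 2 := by revert s; decide
    by_cases h1 : i.1 = s + 1 ∧ j.1 = s + 2
    · rw [if_pos h1, if_neg, if_pos ⟨h1.2, h1.1⟩]
      rintro ⟨h2, h3⟩
      exact h12 (h1.1.symm.trans h3)
    · rw [if_neg h1]
      by_cases h2 : i.1 = s + 2 ∧ j.1 = s + 1
      · rw [if_pos h2, if_pos ⟨h2.2, h2.1⟩, neg_neg]
      · rw [if_neg h2, if_neg (fun h => h2 ⟨h.2, h.1⟩), if_neg (fun h => h1 ⟨h.2, h.1⟩), neg_zero]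
  · rw [if_neg h, if_neg (Ne.symm h), neg_zero]

theorem AA_anti (s : Fin 3) (x y : E6) : AA s y x = - AA s x y := by
  unfold AA
  rw [Finset.sum_comm, ← Finset.sum_neg_distrib]
  refine Finset.sum_congr rfl fun i _ => ?_
  rw [← Finset.sum_neg_distrib]
  refine Finset.sum_congr rfl fun j _ => ?_
  rw [al_anti s i j]
  ring

theorem AA_add (s : Fin 3) (x x' y : E6) : AA s (x + x') y = AA s x y + AA s x' y := by
  unfold AA
  rw [← Finset.sum_add_distrib]
  refine Finset.sum_congr rfl fun i _ => ?_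
  rw [← Finset.sum_add_distrib]
  refine Finset.sum_congr rfl fun j _ => ?_
  rw [PiLp.add_apply]
  ring

theorem AA_smul (s : Fin 3) (t : ℝ) (x y : E6) : AA s (t • x) y = t * AA s x y := by
  unfold AA
  rw [Finset.mul_sum]
  refine Finset.sum_congr rfl fun i _ => ?_
  rw [Finset.mul_sum]
  refine Finset.sum_congr rfl fun j _ => ?_
  rw [PiLp.smul_apply, smul_eq_mul]
  ring

/-- the curvature tensors -/
noncomputable def RR (s : Fin 3) (x y z w : E6) : ℝ :=
  -(2 * (AA s x y * AA s z w) - AA s y z * AA s x w - AA s z x * AA s y w)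

theorem RR_curv (s : Fin 3) : AlgCurv (RR s) where
  add x x' y z w := by
    simp only [RR]
    rw [AA_anti s (x + x') z, AA_anti s x z, AA_anti s x' z, AA_add, AA_add, AA_add]
    ring
  smul t x y z w := by
    simp only [RR]
    rw [AA_anti s (t • x) z, AA_smul, AA_smul, AA_smul, AA_anti s x z]
    ring
  anti x y z w := by
    simp only [RR]
    rw [AA_anti s x y, AA_anti s z x, AA_anti s y z]
    ring
  pair x y z w := by
    simp only [RR]
    rw [AA_anti s x w, AA_anti s y w, AA_anti s y z, AA_anti s z x]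
    ring
  bianchi x y z w := by
    simp only [RR]
    ring

/-- the subspaces -/
noncomputable def WW (s : Fin 3) : Submodule ℝ E6 :=
  Submodule.span ℝ (Set.range fun p : Bool × Bool =>
    (EuclideanSpace.single (if p.1 then s + 1 else s + 2, p.2) (1 : ℝ) : E6))

theorem WW_finrank (s : Fin 3) : Module.finrank ℝ (WW s) ≤ 4 := by
  refine (finrank_range_le_card _).trans ?_
  simp

theorem WW_orth {s : Fin 3} {x : E6} (hx : x ∈ (WW s)ᗮ) (i : Fin 3 × Bool)
    (hi : i.1 = s + 1 ∨ i.1 = s + 2) : x i = 0 := by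
  have h : ∀ p : Bool × Bool,
      x (if p.1 then s + 1 else s + 2, p.2) = 0 := by
    intro p
    have h1 := (Submodule.mem_orthogonal _ _).mp hx _ (Submodule.subset_span ⟨p, rfl⟩)
    rw [EuclideanSpace.inner_single_left] at h1
    simpa using h1
  rcases hi with hi | hi
  · have := h (true, i.2)
    simp only [if_true] at this
    rwa [← hi] at this
  · have := h (false, i.2)
    simp only [Bool.false_eq_true, if_false] at this
    rwa [← hi] at this

theorem AA_zero {s : Fin 3} {x : E6} (hx : x ∈ (WW s)ᗮ) (y : E6) : AA s x y = 0 := by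
  unfold AA
  refine Finset.sum_eq_zero fun i _ => Finset.sum_eq_zero fun j _ => ?_
  by_cases h : i.1 = s + 1 ∨ i.1 = s + 2
  · rw [WW_orth hx i h]; ring
  · push Not at h
    have : al s i j = 0 := by
      unfold al
      by_cases h2 : i.2 = j.2
      · rw [if_pos h2, if_neg (fun h' => h.1 h'.1), if_neg (fun h' => h.2 h'.1)]
      · rw [if_neg h2]
    rw [this, zero_mul]

theorem RR_lives (s : Fin 3) : LivesOn (WW s) (RR s) := by
  intro x hx y z w
  simp only [RR]
  rw [AA_anti s x z, AA_zero hx, AA_zero hx, AA_zero hx]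
  ring

theorem RR_sec (s : Fin 3) (x y : E6) : RR s x y x y ≤ 0 := by
  have hxx : AA s x x = 0 := by have := AA_anti s x x; linarith
  simp only [RR]
  rw [hxx, AA_anti s x y]
  nlinarith [sq_nonneg (AA s x y)]

theorem AA_single (s : Fin 3) (i j : Fin 3 × Bool) :
    AA s (EuclideanSpace.single i (1 : ℝ)) (EuclideanSpace.single j (1 : ℝ)) = al s i j := by
  unfold AA
  rw [Finset.sum_eq_single i, Finset.sum_eq_single j]
  · simp
  · intro b _ hb
    simp [hb]
  · simp
  · intro b _ hb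
    refine Finset.sum_eq_zero fun c _ => ?_
    simp [hb]
  · simp

theorem example_three (hEX : S_EX) : ∃ R : E6 → E6 → E6 → E6 → ℝ, Pieces 3 0 R ∧
    ∀ e : OrthonormalBasis (Fin 3 × Bool) ℝ E6, (-1) ^ 3 * gbc e R < 0 := by
  have hcz : AlgCurv (fun _ _ _ _ : E6 => (0 : ℝ)) :=
    ⟨fun _ _ _ _ _ => by simp, fun _ _ _ _ _ => by simp, fun _ _ _ _ => by simp,
      fun _ _ _ _ => by simp, fun _ _ _ _ => by simp⟩
  have hR : AlgCurv (addT (addT (RR 0) (RR 1)) (RR 2)) :=
    add_curv (add_curv (RR_curv 0) (RR_curv 1)) (RR_curv 2)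
  refine ⟨addT (addT (RR 0) (RR 1)) (RR 2), ⟨RR, WW, fun _ _ _ _ => 0, ?_, hcz, ?_, ?_⟩, ?_⟩
  · intro i
    exact ⟨RR_curv i, WW_finrank i, RR_lives i, RR_sec i⟩
  · intro n x y
    simp [negT, addT]
  · intro x y z w
    simp [addT, Fin.sum_univ_three]
  · intro e
    set e₀ : OrthonormalBasis (Fin 3 × Bool) ℝ E6 := EuclideanSpace.basisFun _ ℝ with he₀
    rw [Pool.Agent.W688.HD.bas 3 E6 e e₀ _ hR, gbc_eq]
    have hπ := Real.pi_pos
    have hc : 0 < 1 / ((8 * Real.pi) ^ 3 * (Nat.factorial 3 : ℝ)) := by positivity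
    refine mul_neg_of_pos_of_neg hc ?_
    have hcp : (fun _ : Fin 3 => cp e₀ (negT (addT (addT (RR 0) (RR 1)) (RR 2)))) =
        fun _ : Fin 3 => (fun i j k l => pr 0 i j k l + pr 1 i j k l + pr 2 i j k l : T4 3) := by
      funext _ i j k l
      simp only [cp, negT, addT, RR, he₀, EuclideanSpace.basisFun_apply, AA_single, pr]
      ring
    rw [hcp]
    exact hEX

end example3

end Pool.Agent.W669.HD
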