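import Pool.Agent.W669.HD.Five
import Pool.Agent.W669.HD.TwoRes

/-!
# Two strongly nonpositive pieces of dimension five
-/

set_option autoImplicit false

namespace Pool.Agent.W669.HD

open Pool.Agent.W666.GB Finset

variable {m : ℕ}

/-- The pointwise inequality for two pieces of dimension at most five. -/
theorem two_pieces5 (hALT : S_ALT) (hDE : S_DE) (hE : S_EXP5) (hP : S_PSD5) (hVAN : S_VAN5)
    (hG : S_GOOD5) (hVEC : S_VEC5) {V : Type} [NormedAddCommGroup V] [InnerProductSpace ℝ V]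
    (e : OrthonormalBasis (Fin m × Bool) ℝ V) {R₁ R₂ R₀ : V → V → V → V → ℝ}
    (W₁ W₂ : Submodule ℝ V) (h₁ : AlgCurv R₁) (h₂ : AlgCurv R₂) (h₀ : AlgCurv R₀)
    (hW₁ : Module.finrank ℝ W₁ ≤ 5) (hW₂ : Module.finrank ℝ W₂ ≤ 5)
    (hl₁ : LivesOn W₁ R₁) (hl₂ : LivesOn W₂ R₂) (hs₁ : Strong R₁) (hs₂ : Strong R₂)
    {δ : ℝ} (hδ : 0 ≤ δ)
    (hn : OpNonneg (negT (addT R₀ fun x y z w => δ * unitT x y z w))) :
    roundGB m δ ≤ (-1) ^ m * gbc e (addT (addT R₁ R₂) R₀) := by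
  classical
  obtain ⟨a₁, P₁', Ω₁', n₁, μ₁, f₁, c₁, al₁, m₁, k₁⟩ := hVEC m V e R₁ W₁ h₁ hW₁ hl₁ hs₁
  obtain ⟨a₂, P₂', Ω₂', n₂, μ₂, f₂, c₂, al₂, m₂, k₂⟩ := hVEC m V e R₂ W₂ h₂ hW₂ hl₂ hs₂
  obtain ⟨Ω₁, K₁, K₁', p₁⟩ := exists_piece5 hG f₁ (cur_cp e h₁) c₁ al₁ m₁ k₁
  obtain ⟨Ω₂, K₂, K₂', p₂⟩ := exists_piece5 hG f₂ (cur_cp e h₂) c₂ al₂ m₂ k₂
  have hNb : BiForm (negT (addT R₀ fun x y z w => δ * unitT x y z w)) :=
    Pool.Agent.W150.HD.neg_bi (Pool.Agent.W150.HD.add_bi (Pool.Agent.W150.HD.curv_bi h₀)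
      (unit_bi δ))
  obtain ⟨n, ν, hν, hNν⟩ := hNb.squares (fun i => e i) hn
  have hP₀ : ∀ i j k l, cp e (negT R₀) i j k l =
      δ * unitCurv i j k l + ∑ a, ν a i j * ν a k l := by
    intro i j k l
    rw [← hNν i j k l, ← cp_unit e]
    simp only [cp, negT, addT]
    ring
  have hsq : SqOn (((Fin m × Bool) × (Fin m × Bool)) ⊕ Fin n) (cp e (negT R₀)) := by
    refine ⟨Sum.elim (ur δ) ν, fun i j k l => ?_⟩
    rw [hP₀, unit_squares hδ, Fintype.sum_sum_type]
    rfl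
  obtain ⟨n₀, ν₀, hν₀⟩ := hsq.fin
  have hmain := two_main5 hALT hDE hE hP hVAN p₁ p₂ (cur_cp e h₀) ν₀ hν₀
  have hcp : (fun _ : Fin m => (fun i j k l => cp e (negT R₁) i j k l + cp e (negT R₂) i j k l +
      cp e (negT R₀) i j k l : T4 m)) = fun _ : Fin m => cp e (negT (addT (addT R₁ R₂) R₀)) := by
    funext _ i j k l
    simp only [cp, negT, addT]
    ring
  rw [hcp] at hmain
  rw [gbc_eq]
  have hπ := Real.pi_pos
  have hc : 0 < 1 / ((8 * Real.pi) ^ m * (m.factorial : ℝ)) := by positivity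
  have hr : roundGB m δ = 1 / ((8 * Real.pi) ^ m * m.factorial) *
      (2 ^ m * (δ ^ m * (2 * m).factorial)) := by
    unfold roundGB
    have : (8 * Real.pi) ^ m = 2 ^ m * (4 * Real.pi) ^ m := by
      rw [← mul_pow]; congr 1; ring
    rw [this]
    field_simp
  rw [hr]
  refine mul_le_mul_of_nonneg_left (le_trans ?_ hmain) hc.le
  have hP₀' : (fun _ : Fin m => cp e (negT R₀)) = fun _ : Fin m =>
      (fun i j k l => δ * unitCurv i j k l + ∑ a, ν a i j * ν a k l : T4 m) := by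
    funext _ i j k l
    exact hP₀ i j k l
  rw [hP₀', gm_add (m := m) (fun i j k l => δ * unitCurv i j k l)
    (fun i j k l => ∑ a, ν a i j * ν a k l), ← unit_gm]
  have h0 : ∀ S ∈ (univ : Finset (Fin m)).powerset,
      0 ≤ mix (m := m) (fun i j k l => δ * unitCurv i j k l)
        (fun i j k l => ∑ a, ν a i j * ν a k l) S := fun S _ =>
    mix_nonneg (κ₂ := Fin n) (ur δ) (unit_squares hδ) ν (fun _ _ _ _ => rfl) S
  have h1 := Finset.single_le_sum h0 (Finset.mem_powerset.mpr (Finset.Subset.refl univ))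
  refine le_trans (le_of_eq ?_) h1
  unfold mix
  simp only [Finset.mem_univ, if_true]

/-- `R` is the sum of `k` curvature tensors `R i`, each living on some subspace `W i`, where either
`dim (W i) ≤ 4` and the sectional curvatures of `R i` are nonpositive, or `dim (W i) ≤ 5` and `R i`
is strongly nonpositive, and of a curvature tensor whose curvature operator is at most `-δ`. -/
def Pieces5 {V : Type} [NormedAddCommGroup V] [InnerProductSpace ℝ V] (k : ℕ) (δ : ℝ)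
    (R : V → V → V → V → ℝ) : Prop :=
  ∃ (S : Fin k → V → V → V → V → ℝ) (W : Fin k → Submodule ℝ V) (R₀ : V → V → V → V → ℝ),
    (∀ i, AlgCurv (S i) ∧ LivesOn (W i) (S i) ∧
      ((Module.finrank ℝ (W i) ≤ 4 ∧ ∀ x y, S i x y x y ≤ 0) ∨
        (Module.finrank ℝ (W i) ≤ 5 ∧ Strong (S i)))) ∧
    AlgCurv R₀ ∧ OpNonneg (negT (addT R₀ fun x y z w => δ * unitT x y z w)) ∧
    ∀ x y z w, R x y z w = ∑ i, S i x y z w + R₀ x y z w

theorem pieces5_two (hE : S_EXP5) (hP : S_PSD5) (hVAN : S_VAN5)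
    (hG : S_GOOD5) (hVEC : S_VEC5) (hTHS : S_THS) {V : Type} [NormedAddCommGroup V]
    [InnerProductSpace ℝ V] (e : OrthonormalBasis (Fin m × Bool) ℝ V)
    {R : V → V → V → V → ℝ} {δ : ℝ} (hδ : 0 ≤ δ)
    (h : Pieces5 2 δ R) : roundGB m δ ≤ (-1) ^ m * gbc e R := by
  obtain ⟨S, W, R₀, hS, h₀, hn, hR⟩ := h
  have hall : ∀ i, AlgCurv (S i) ∧ LivesOn (W i) (S i) ∧ Module.finrank ℝ (W i) ≤ 5 ∧
      Strong (S i) := by
    intro i
    obtain ⟨h1, h2, ⟨h3, h4⟩ | ⟨h3, h4⟩⟩ := hS i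
    · exact ⟨h1, h2, h3.trans (by norm_num), hTHS m V e (S i) (W i) h1 h3 h2 h4⟩
    · exact ⟨h1, h2, h3, h4⟩
  have h1 := hall 0
  have h2 := hall 1
  have key := two_pieces5 Pool.Agent.W391.HD.alt Pool.Agent.W427.HD.de hE hP hVAN hG hVEC e (W 0)
    (W 1) h1.1 h2.1 h₀ h1.2.2.1 h2.2.2.1 h1.2.1 h2.2.1 h1.2.2.2 h2.2.2.2 hδ hn
  have : addT (addT (S 0) (S 1)) R₀ = R := by
    funext x y z w
    rw [hR, Fin.sum_univ_two]
    rfl
  rwa [this] at key

section example5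

/-- the `4`-form of the skew form -/
noncomputable def psi (s : Fin 3) (x y z w : E6) : ℝ :=
  AA s x y * AA s z w + AA s y z * AA s x w + AA s z x * AA s y w

theorem psi_form : FourForm (fun x y z w : E6 => - ∑ s, psi s x y z w) where
  add x x' y z w := by
    rw [← neg_add, ← Finset.sum_add_distrib]
    congr 1
    refine Finset.sum_congr rfl fun s _ => ?_
    simp only [psi]
    rw [AA_anti s (x + x') z, AA_anti s x z, AA_anti s x' z, AA_add, AA_add, AA_add]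
    ring
  smul t x y z w := by
    rw [mul_neg, Finset.mul_sum]
    congr 1
    refine Finset.sum_congr rfl fun s _ => ?_
    simp only [psi]
    rw [AA_anti s (t • x) z, AA_smul, AA_smul, AA_smul, AA_anti s x z]
    ring
  anti x y z w := by
    rw [neg_neg, ← Finset.sum_neg_distrib]
    refine Finset.sum_congr rfl fun s _ => ?_
    simp only [psi]
    rw [AA_anti s x y, AA_anti s z x, AA_anti s y z]
    ring
  pair x y z w := by
    congr 1
    refine Finset.sum_congr rfl fun s _ => ?_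
    simp only [psi]
    rw [AA_anti s x w, AA_anti s y w, AA_anti s y z, AA_anti s z x]
    ring
  alt x y z w := by
    rw [neg_neg, ← Finset.sum_neg_distrib]
    refine Finset.sum_congr rfl fun s _ => ?_
    simp only [psi]
    rw [AA_anti s z x, AA_anti s y z, AA_anti s x y]
    ring

theorem example_five (hEX : S_EX) : ∃ R : E6 → E6 → E6 → E6 → ℝ, Pieces5 3 0 R ∧ Strong R ∧
    ∀ e : OrthonormalBasis (Fin 3 × Bool) ℝ E6, (-1) ^ 3 * gbc e R < 0 := by
  have hcz : AlgCurv (fun _ _ _ _ : E6 => (0 : ℝ)) :=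
    ⟨fun _ _ _ _ _ => by simp, fun _ _ _ _ _ => by simp, fun _ _ _ _ => by simp,
      fun _ _ _ _ => by simp, fun _ _ _ _ => by simp⟩
  have hR : AlgCurv (addT (addT (RR 0) (RR 1)) (RR 2)) :=
    add_curv (add_curv (RR_curv 0) (RR_curv 1)) (RR_curv 2)
  refine ⟨addT (addT (RR 0) (RR 1)) (RR 2), ⟨RR, WW, fun _ _ _ _ => 0, ?_, hcz, ?_, ?_⟩,
    ⟨_, psi_form, ?_⟩, ?_⟩
  · intro i
    exact ⟨RR_curv i, RR_lives i, Or.inl ⟨WW_finrank i, RR_sec i⟩⟩
  · intro n x y
    simp [negT, addT]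
  · intro x y z w
    simp [addT, Fin.sum_univ_three]
  · intro n x y
    have h1 : ∀ x y z w : E6, negT (addT (addT (addT (RR 0) (RR 1)) (RR 2))
        (fun x y z w => - ∑ s, psi s x y z w)) x y z w = ∑ s, 3 * (AA s x y * AA s z w) := by
      intro x y z w
      simp only [negT, addT, Fin.sum_univ_three, RR, psi]
      ring
    simp only [h1]
    have h2 : ∑ a, ∑ b, ∑ s : Fin 3, 3 * (AA s (x a) (y a) * AA s (x b) (y b)) =
        ∑ s : Fin 3, 3 * (∑ a, AA s (x a) (y a)) ^ 2 := by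
      rw [Finset.sum_congr rfl fun a _ => Finset.sum_comm, Finset.sum_comm]
      refine Finset.sum_congr rfl fun s _ => ?_
      rw [sq, Finset.sum_mul_sum, Finset.mul_sum]
      refine Finset.sum_congr rfl fun a _ => ?_
      rw [Finset.mul_sum]
    rw [h2]
    positivity
  · intro e
    set e₀ : OrthonormalBasis (Fin 3 × Bool) ℝ E6 := EuclideanSpace.basisFun _ ℝ with he₀
    rw [Pool.Agent.W688.HD.bas 3 E6 e e₀ _ hR, gbc_eq]
    have hπ := Real.pi_pos
    have hc : 0 < 1 / ((8 * Real.pi) ^ 3 * (Nat.factorial 3 : ℝ)) := by positivity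
    refine mul_neg_of_pos_of_neg hc ?_
    have hcp : (fun _ : Fin 3 => cp e₀ (negT (addT (addT (RR 0) (RR 1)) (RR 2)))) =
        fun _ : Fin 3 => (fun i j k l => pr 0 i j k l + pr 1 i j k l + pr 2 i j k l : T4 3) := by
      funext _ i j k l
      simp only [cp, negT, addT, RR, he₀, EuclideanSpace.basisFun_apply, AA_single, pr]
      ring
    rw [hcp]
    exact hEX

end example5

end Pool.Agent.W669.HD
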