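import Pool.Agent.W669.HD.FiveRes

/-!
# The pointwise condition with a five-dimensional subspace
-/

set_option autoImplicit false

namespace Pool.Agent.W669.HD

open Pool.Agent.W666.GB Finset

section comp

variable {m : ℕ}

theorem fac5_sub {a : Fin m × Bool → Fin 5 → ℝ} {K L : T4 m} {K' L' : Q5} (h : Fac5 a K K')
    (h' : Fac5 a L L') :
    Fac5 a (fun i j k l => K i j k l - L i j k l) (fun i j k l => K' i j k l - L' i j k l) := by
  intro i j k l
  simp only [h i j k l, h' i j k l, ← Finset.sum_sub_distrib, ← mul_sub]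

theorem gm_pair_le (hE : S_EXP5) (hP : S_PSD5) {a : Fin m × Bool → Fin 5 → ℝ}
    {Ω K N : T4 m} {Ω' K' : Q5} (fΩ : Fac5 a Ω Ω') (fK : Fac5 a K K')
    (sΩ : ∀ i j k l, Ω' k l i j = Ω' i j k l) (sK : ∀ i j k l, K' k l i j = K' i j k l)
    (hq : ∀ Z : (Fin 4 → Fin 5) → ℝ, AltF Z → qf Ω' Ω' Z ≤ qf K' K' Z) {n₀ : ℕ}
    (h₀ : SqOn (Fin n₀) N) {b₀ b₁ : Fin m} (hne : b₁ ≠ b₀) :
    gm (put N b₀ b₁ Ω Ω) ≤ gm (put N b₀ b₁ K K) := by
  have key : ∀ (X : T4 m) (X' : Q5), Fac5 a X X' → gm (put N b₀ b₁ X X) =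
      ∑ F : Fin 4 → Fin 5, ∑ G : Fin 4 → Fin 5,
        X' (F 0) (F 1) (G 0) (G 1) * X' (F 2) (F 3) (G 2) (G 3) *
          gmw2 (fun σ => 1 * awF a b₀ b₁ F σ) (fun σ => 1 * awF a b₀ b₁ G σ)
            ((univ.erase b₀).erase b₁) (fun _ => N) := by
    intro X X' hX
    rw [gm_eq_gmw, hE m (fun _ => 1) univ (put N b₀ b₁ X X) a X' X' b₀ b₁ (Finset.mem_univ _)
      (Finset.mem_univ _) hne (by simpa [put] using hX) (by simpa [put, hne] using hX)]
    refine Finset.sum_congr rfl fun F _ => Finset.sum_congr rfl fun G _ => ?_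
    congr 1
    refine gmw2_congr _ _ _ fun b hb => ?_
    have h1 : b ≠ b₁ := Finset.ne_of_mem_erase hb
    have h0 : b ≠ b₀ := Finset.ne_of_mem_erase (Finset.mem_of_mem_erase hb)
    simp [put, h0, h1]
  obtain ⟨n, v, hv, hval⟩ := hP m a b₀ b₁ (fun F G =>
    K' (F 0) (F 1) (G 0) (G 1) * K' (F 2) (F 3) (G 2) (G 3) -
      (Ω' (F 0) (F 1) (G 0) (G 1) * Ω' (F 2) (F 3) (G 2) (G 3))) hne
    (fun F G => by
      rw [sK (F 0) (F 1) (G 0) (G 1), sK (F 2) (F 3) (G 2) (G 3),
        sΩ (F 0) (F 1) (G 0) (G 1), sΩ (F 2) (F 3) (G 2) (G 3)])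
    (fun Z hZ => by
      have h1 := hq Z hZ
      simp only [qf] at h1
      rw [← sub_nonneg, ← Finset.sum_sub_distrib] at h1
      refine h1.trans (le_of_eq ?_)
      refine Finset.sum_congr rfl fun F _ => ?_
      rw [← Finset.sum_sub_distrib]
      refine Finset.sum_congr rfl fun G _ => ?_
      ring)
  have h2 := hval (fun _ => 1) univ (fun _ => N) (fun _ _ _ => rfl)
  have hpos : 0 ≤ ∑ k, gmw (fun σ => 1 * v k σ) ((univ.erase b₀).erase b₁)
      (fun _ : Fin m => N) :=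
    Finset.sum_nonneg fun k _ => gmw_nonneg (κ := Fin n₀) _ _ _ fun _ _ => h₀
  rw [key K K' fK, key Ω Ω' fΩ, ← sub_nonneg]
  rw [← h2] at hpos
  refine hpos.trans (le_of_eq ?_)
  rw [← Finset.sum_sub_distrib]
  refine Finset.sum_congr rfl fun F _ => ?_
  rw [← Finset.sum_sub_distrib]
  refine Finset.sum_congr rfl fun G _ => ?_
  ring

theorem mix_put (X N : T4 m) (b₀ b₁ : Fin m) :
    mix X N {b₀, b₁} = gm (put N b₀ b₁ X X) := by
  unfold mix
  congr 1
  funext b
  by_cases h0 : b = b₀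
  · simp [put, h0]
  · by_cases h1 : b = b₁
    · simp [put, h1]
    · simp [put, h0, h1]

theorem mix_congr5 (hVAN : S_VAN5) {a : Fin m × Bool → Fin 5 → ℝ} {Ω P N D : T4 m}
    {Ω' D' : Q5} (fΩ : Fac5 a Ω Ω') (fD : Fac5 a D D')
    (hD : ∀ i j k l, P i j k l = D i j k l + N i j k l) {b₀ b₁ : Fin m} (hne : b₁ ≠ b₀) :
    mix Ω P {b₀, b₁} = mix Ω N {b₀, b₁} := by
  classical
  have h1 : ∀ X : T4 m, mix Ω X {b₀, b₁} = mix X Ω (univ \ {b₀, b₁}) := by
    intro X
    unfold mix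
    congr 1
    funext b
    by_cases hb : b ∈ ({b₀, b₁} : Finset (Fin m))
    · have hb' : b ∉ univ \ ({b₀, b₁} : Finset (Fin m)) := fun h => (Finset.mem_sdiff.mp h).2 hb
      rw [if_pos hb, if_neg hb']
    · have hb' : b ∈ univ \ ({b₀, b₁} : Finset (Fin m)) :=
        Finset.mem_sdiff.mpr ⟨Finset.mem_univ _, hb⟩
      rw [if_neg hb, if_pos hb']
  have h3 : P = fun i j k l => D i j k l + N i j k l := by
    funext i j k l
    exact hD i j k l
  rw [h1, h1, h3, mix_expand D N Ω, Finset.sum_eq_single ∅]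
  · unfold mix
    congr 1
  · intro T hT hne'
    obtain ⟨b₂, hb₂⟩ := Finset.nonempty_iff_ne_empty.mpr hne'
    have hTS := Finset.mem_powerset.mp hT
    have hm2 := (Finset.mem_sdiff.mp (hTS hb₂)).2
    have n0 : b₀ ∉ T := fun h => (Finset.mem_sdiff.mp (hTS h)).2 (by simp)
    have n1 : b₁ ∉ T := fun h => (Finset.mem_sdiff.mp (hTS h)).2 (by simp)
    have n0' : b₀ ∉ univ \ ({b₀, b₁} : Finset (Fin m)) := by simp
    have n1' : b₁ ∉ univ \ ({b₀, b₁} : Finset (Fin m)) := by simp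
    refine hVAN m _ a Ω' Ω' D' b₀ b₁ b₂ hne ?_ ?_ ?_ ?_ ?_
    · rintro rfl; exact n0 hb₂
    · rintro rfl; exact n1 hb₂
    · rw [if_neg n0, if_neg n0']; exact fΩ
    · rw [if_neg n1, if_neg n1']; exact fΩ
    · rw [if_pos hb₂]; exact fD
  · intro h
    exact absurd (Finset.empty_mem_powerset _) h

/-- The inequality in components. -/
theorem comp_main5 (hE : S_EXP5) (hP5 : S_PSD5) (hVAN : S_VAN5) {κ₁ κ₂ : Type} [Fintype κ₁]
    [Fintype κ₂] {P Ω K N : T4 m} {a : Fin m × Bool → Fin 5 → ℝ} {Ω' K' : Q5}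
    (hP : Cur P) (hΩ : Alt4 Ω) (hsum : ∀ i j k l, P i j k l + Ω i j k l = K i j k l + N i j k l)
    (μ : κ₁ → Fin m × Bool → Fin m × Bool → ℝ)
    (hK : ∀ i j k l, K i j k l = ∑ a, μ a i j * μ a k l)
    (ν : κ₂ → Fin m × Bool → Fin m × Bool → ℝ)
    (hN : ∀ i j k l, N i j k l = ∑ a, ν a i j * ν a k l)
    (fΩ : Fac5 a Ω Ω') (fK : Fac5 a K K')
    (sΩ : ∀ i j k l, Ω' k l i j = Ω' i j k l) (sK : ∀ i j k l, K' k l i j = K' i j k l)
    (hq : ∀ Z : (Fin 4 → Fin 5) → ℝ, AltF Z → qf Ω' Ω' Z ≤ qf K' K' Z) :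
    gm (fun _ : Fin m => N) ≤ gm (fun _ : Fin m => P) := by
  classical
  obtain ⟨n₀, ν₀, hν₀⟩ := SqOn.fin (κ := κ₂) ⟨ν, hN⟩
  have s₀ : SqOn (Fin n₀) N := ⟨ν₀, hν₀⟩
  have e2 := gm_add (m := m) K N
  have e3 : gm (fun _ : Fin m => (fun i j k l => P i j k l + Ω i j k l : T4 m)) =
      gm (fun _ : Fin m => (fun i j k l => K i j k l + N i j k l : T4 m)) := by
    simp only [hsum]
  have e1' := gm_add (m := m) Ω P
  have e4 : gm (fun _ : Fin m => (fun i j k l => P i j k l + Ω i j k l : T4 m)) =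
      gm (fun _ : Fin m => (fun i j k l => Ω i j k l + P i j k l : T4 m)) := by
    simp only [add_comm]
  have e5 : ∑ S ∈ (univ : Finset (Fin m)).powerset, mix Ω P S =
      ∑ S ∈ (univ : Finset (Fin m)).powerset, mix K N S := by
    rw [← e1', ← e4, e3, e2]
  have hmem : (∅ : Finset (Fin m)) ∈ (univ : Finset (Fin m)).powerset := by simp
  rw [← Finset.add_sum_erase _ _ hmem, ← Finset.add_sum_erase _ (fun S => mix K N S) hmem,
    mix_empty, mix_empty] at e5
  have hle : ∑ S ∈ ((univ : Finset (Fin m)).powerset).erase ∅, mix Ω P S ≤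
      ∑ S ∈ ((univ : Finset (Fin m)).powerset).erase ∅, mix K N S := by
    refine Finset.sum_le_sum fun S hS => ?_
    have hne : S ≠ ∅ := Finset.ne_of_mem_erase hS
    have hpos : 0 < S.card := Finset.card_pos.mpr (Finset.nonempty_iff_ne_empty.mpr hne)
    rcases Nat.lt_or_ge S.card 2 with h1 | h1
    · have hc : S.card = 1 := by omega
      obtain ⟨b, rfl⟩ := Finset.card_eq_one.mp hc
      rw [alt_zero hP hΩ b]
      exact mix_nonneg μ hK ν hN _
    · rcases Nat.lt_or_ge S.card 3 with h2 | h2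
      · have hc : S.card = 2 := by omega
        obtain ⟨b₀, b₁, hne', rfl⟩ := Finset.card_eq_two.mp hc
        rw [mix_congr5 hVAN (P := P) (N := N) fΩ (fac5_sub fK fΩ) (fun i j k l => by
          have := hsum i j k l
          linarith) hne'.symm, mix_put, mix_put]
        exact gm_pair_le hE hP5 fΩ fK sΩ sK hq s₀ hne'.symm
      · have : mix Ω P S = 0 := by
          obtain ⟨x, hx, y, hy, z, hz, hxy, hxz, hyz⟩ := Finset.two_lt_card.mp h2
          unfold mix
          exact hVAN m _ a Ω' Ω' Ω' x y z hxy.symm hxz.symm hyz.symm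
            (by rw [if_pos hx]; exact fΩ) (by rw [if_pos hy]; exact fΩ)
            (by rw [if_pos hz]; exact fΩ)
        rw [this]
        exact mix_nonneg μ hK ν hN _
  linarith

end comp

section vec

/-- The pointwise hypothesis: for some subspace `W` of dimension at most five, some `4`-form `ω`
on `W` and some form `K ≥ 0` on the bivectors of `W`, one has `-(R + ω) ≥ K`, and the Bianchi
sums satisfy `(cyc ω)² ≤ 2 (cyc K)²`. -/
def FivePlane {V : Type*} [NormedAddCommGroup V] [InnerProductSpace ℝ V]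
    (R : V → V → V → V → ℝ) : Prop :=
  ∃ (W : Submodule ℝ V) (ω K : V → V → V → V → ℝ),
    Module.finrank ℝ W ≤ 5 ∧ FourForm ω ∧ LivesOn W ω ∧ BiForm K ∧ LivesOn W K ∧ OpNonneg K ∧
      OpNonneg (negT (addT (addT R ω) K)) ∧
      ∀ x y z w, cyc ω x y z w ^ 2 ≤ 2 * cyc K x y z w ^ 2

variable {V : Type} [NormedAddCommGroup V] [InnerProductSpace ℝ V]

open Pool.Agent.W150.HD in
theorem exists_five [FiniteDimensional ℝ V] (W : Submodule ℝ V) (hW : Module.finrank ℝ W ≤ 5) :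
    ∃ f : Fin 5 → V, ∀ x : V, x - ∑ p, inner ℝ (f p) x • f p ∈ Wᗮ := by
  classical
  let b := stdOrthonormalBasis ℝ W
  have hbo : Orthonormal ℝ (fun j => (b j : V)) := b.orthonormal.comp_linearIsometry W.subtypeₗᵢ
  obtain ⟨f, hf⟩ : ∃ f : Fin 5 → V,
      f = fun p => if h : p.1 < Module.finrank ℝ W then (b ⟨p.1, h⟩ : V) else 0 := ⟨_, rfl⟩
  have hpad : ∀ x : V, ∑ p : Fin 5, inner ℝ (f p) x • f p =
      ∑ j, inner ℝ (b j : V) x • (b j : V) := by
    intro x
    symm
    apply Finset.sum_of_injOn (fun j : Fin (Module.finrank ℝ W) => Fin.castLE hW j)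
    · intro i _ j _ h
      exact Fin.castLE_injective hW h
    · intro i _; simp
    · intro p _ hp
      have h1 : ¬ p.1 < Module.finrank ℝ W := by
        intro h
        exact hp ⟨⟨p.1, h⟩, by simp, Fin.ext rfl⟩
      rw [hf]
      simp [h1]
    · intro j _
      rw [hf]
      simp
  refine ⟨f, fun x => ?_⟩
  rw [hpad, Submodule.mem_orthogonal]
  intro u hu
  have h1 : u = ∑ j, (b.repr ⟨u, hu⟩ j) • (b j : V) := by
    have h2 := b.sum_repr ⟨u, hu⟩
    have h3 := congrArg (fun v : W => (v : V)) h2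
    simp only [Submodule.coe_sum, Submodule.coe_smul] at h3
    exact h3.symm
  rw [h1, sum_inner]
  apply Finset.sum_eq_zero
  intro j _
  rw [real_inner_smul_left, rest hbo, mul_zero]

open Pool.Agent.W150.HD in
theorem tl_vec {K : V → V → V → V → ℝ} (hK : BiForm K) (f : Fin 5 → V)
    (v : Fin 4 → Fin 5 → ℝ) (p q r s : Fin 4) :
    Pool.Agent.W863.HD.Good5.tl v (fun i j k l => K (f i) (f j) (f k) (f l)) p q r s =
      K (∑ i, v p i • f i) (∑ i, v q i • f i) (∑ i, v r i • f i) (∑ i, v s i • f i) := by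
  have s1 : ∀ y z w, K (∑ i, v p i • f i) y z w = ∑ i, v p i * K (f i) y z w :=
    fun y z w => sumK hK _ _ _ _ _ _
  have s2 : ∀ x z w, K x (∑ i, v q i • f i) z w = ∑ i, v q i * K x (f i) z w := by
    intro x z w
    have h1 : K x (∑ i, v q i • f i) z w = - K (∑ i, v q i • f i) x z w := by
      rw [hK.anti x]; ring
    rw [h1, sumK hK, ← Finset.sum_neg_distrib]
    refine Finset.sum_congr rfl fun i _ => ?_
    rw [hK.anti x (f i)]; ring
  have s3 : ∀ x y w, K x y (∑ i, v r i • f i) w = ∑ i, v r i * K x y (f i) w := by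
    intro x y w
    rw [← hK.pair, sumK hK]
    refine Finset.sum_congr rfl fun i _ => ?_
    rw [hK.pair]
  have s4 : ∀ x y z, K x y z (∑ i, v s i • f i) = ∑ i, v s i * K x y z (f i) := by
    intro x y z
    have h1 : K x y z (∑ i, v s i • f i) = - K (∑ i, v s i • f i) z x y := by
      rw [← hK.pair, hK.anti]
    rw [h1, sumK hK, ← Finset.sum_neg_distrib]
    refine Finset.sum_congr rfl fun i _ => ?_
    have h2 : K (f i) z x y = - K x y z (f i) := by
      rw [← hK.pair x y z (f i), hK.anti]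
    rw [h2]; ring
  unfold Pool.Agent.W863.HD.Good5.tl
  rw [s1]
  refine Finset.sum_congr rfl fun i _ => ?_
  rw [s2, Finset.mul_sum]
  refine Finset.sum_congr rfl fun j _ => ?_
  rw [s3, Finset.mul_sum, Finset.mul_sum]
  refine Finset.sum_congr rfl fun k _ => ?_
  rw [s4, Finset.mul_sum, Finset.mul_sum, Finset.mul_sum]
  refine Finset.sum_congr rfl fun l _ => ?_
  ring

open Pool.Agent.W150.HD Pool.Agent.W863.HD.Good5 in
theorem core5 (hP5 : S_PSD5) {m : ℕ} (e : OrthonormalBasis (Fin m × Bool) ℝ V)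
    {R : V → V → V → V → ℝ} (hR : AlgCurv R)
    {δ : ℝ} (hδ : 0 ≤ δ) (h : FivePlane (addT R fun x y z w => δ * unitT x y z w)) :
    ∃ (n : ℕ) (ν : Fin n → Fin m × Bool → Fin m × Bool → ℝ),
      gm (fun _ : Fin m => (fun i j k l => δ * unitCurv i j k l + ∑ a, ν a i j * ν a k l : T4 m))
        ≤ gm (fun _ : Fin m => cp e (negT R)) := by
  classical
  have hfin : FiniteDimensional ℝ V := Module.Finite.of_basis e.toBasis
  obtain ⟨W, ω, K, hW, hω, hωW, hK, hKW, hKn, hN, hcyc⟩ := h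
  obtain ⟨f, hf⟩ := exists_five W hW
  have hNb : BiForm (negT (addT (addT (addT R fun x y z w => δ * unitT x y z w) ω) K)) :=
    neg_bi (add_bi (add_bi (add_bi (curv_bi hR) (unit_bi δ)) hω.toBiForm) hK)
  have hωn : BiForm (negT ω) := neg_bi hω.toBiForm
  obtain ⟨n₁, μ, hμ, hKμ⟩ := hK.squares (fun i => e i) hKn
  obtain ⟨n₂, η, hη, hKη⟩ := hK.squares f hKn
  obtain ⟨n, ν, hν, hNν⟩ := hNb.squares (fun i => e i) hN
  refine ⟨n, ν, ?_⟩
  have hΩ : Alt4 (cp e (negT ω)) := {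
    a12 := fun i j k l => by simp only [cp, negT]; rw [hω.anti]
    a23 := fun i j k l => by simp only [cp, negT]; rw [hω.alt]
    a34 := fun i j k l => by simp only [cp, negT]; rw [hω.toBiForm.a34] }
  have hsum : ∀ i j k l, cp e (negT R) i j k l + cp e (negT ω) i j k l =
      cp e K i j k l + (δ * unitCurv i j k l + ∑ a, ν a i j * ν a k l) := by
    intro i j k l
    rw [← hNν i j k l, ← cp_unit e]
    simp only [cp, negT, addT]
    ring
  have hunit := unit_squares (m := m) hδ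
  have fac : ∀ {L : V → V → V → V → ℝ}, BiForm L → LivesOn W L →
      Fac5 (fun (j : Fin m × Bool) (p : Fin 5) => inner ℝ (f p) (e j)) (cp e L)
        (fun p q r s => L (f p) (f q) (f r) (f s)) := by
    intro L hL hLW i j k l
    exact Pool.Agent.W298.HD.eall hL (fun x y z w => hLW _ (hf x) y z w) _ _ _ _
  refine comp_main5 Pool.Agent.W60.HD.exp5 hP5 Pool.Agent.W696.HD.VAN5.main (κ₁ := Fin n₁)
    (κ₂ := ((Fin m × Bool) × (Fin m × Bool)) ⊕ Fin n)
    (cur_cp e hR) hΩ hsum μ (fun i j k l => hKμ i j k l)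
    (Sum.elim (ur δ) ν) ?_ (fac hωn (fun x hx y z w => by
      simp only [negT, hωW x hx, neg_zero])) (fac hK hKW) (fun i j k l => hωn.pair _ _ _ _)
    (fun i j k l => hK.pair _ _ _ _) ?_
  · intro i j k l
    rw [hunit, Fintype.sum_sum_type]
    rfl
  · intro Z hZ
    obtain ⟨v, hv⟩ := Pool.Agent.W891.HD.dec Z hZ
    rw [qf_eq v _ Z hv, qf_eq v _ Z hv]
    have hKη' : (fun p q r s => K (f p) (f q) (f r) (f s)) =
        (fun i j k l => ∑ a, η a i j * η a k l) := by
      funext i j k l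
      exact hKη i j k l
    refine kap_le (n := n₂) ?_ ?_ ?_ ?_ (fun a p q => ∑ i, ∑ j, v p i * v q j * η a i j) ?_ ?_ ?_
    · intro p q r s
      rw [tl_vec hωn, tl_vec hωn, hωn.anti]
    · intro p q r s
      rw [tl_vec hωn, tl_vec hωn]
      simp only [negT]
      rw [hω.alt]
    · intro p q r s
      rw [tl_vec hωn, tl_vec hωn]
      simp only [negT]
      rw [hω.toBiForm.a34]
    · intro p q r s
      rw [tl_vec hωn, tl_vec hωn, hωn.pair]
    · intro a p q
      rw [Finset.sum_comm, ← Finset.sum_neg_distrib]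
      refine Finset.sum_congr rfl fun i _ => ?_
      rw [← Finset.sum_neg_distrib]
      refine Finset.sum_congr rfl fun j _ => ?_
      rw [hη]
      ring
    · intro p q r s
      rw [hKη', tl_sum]
    · rw [tl_vec hωn, tl_vec hωn, tl_vec hωn, tl_vec hK, tl_vec hK, tl_vec hK]
      have h2 := hcyc (∑ i, v 0 i • f i) (∑ i, v 1 i • f i) (∑ i, v 2 i • f i) (∑ i, v 3 i • f i)
      simp only [cyc] at h2
      simp only [negT]
      nlinarith [h2]

/-- The pointwise inequality. -/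
theorem five_plane' (hP5 : S_PSD5) {m : ℕ} (e : OrthonormalBasis (Fin m × Bool) ℝ V)
    {R : V → V → V → V → ℝ} (hR : AlgCurv R) {δ : ℝ} (hδ : 0 ≤ δ)
    (h : FivePlane (addT R fun x y z w => δ * unitT x y z w)) :
    roundGB m δ ≤ (-1) ^ m * gbc e R := by
  classical
  obtain ⟨n, ν, hle⟩ := core5 hP5 e hR hδ h
  rw [gbc_eq]
  have hπ := Real.pi_pos
  have hc : 0 < 1 / ((8 * Real.pi) ^ m * (m.factorial : ℝ)) := by positivity
  have hr : roundGB m δ = 1 / ((8 * Real.pi) ^ m * m.factorial) *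
      (2 ^ m * (δ ^ m * (2 * m).factorial)) := by
    unfold roundGB
    have : (8 * Real.pi) ^ m = 2 ^ m * (4 * Real.pi) ^ m := by
      rw [← mul_pow]; congr 1; ring
    rw [this]
    field_simp
  rw [hr]
  refine mul_le_mul_of_nonneg_left (le_trans ?_ hle) hc.le
  rw [gm_add (m := m) (fun i j k l => δ * unitCurv i j k l)
    (fun i j k l => ∑ a, ν a i j * ν a k l), ← unit_gm]
  have h0 : ∀ S ∈ (univ : Finset (Fin m)).powerset,
      0 ≤ mix (m := m) (fun i j k l => δ * unitCurv i j k l)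
        (fun i j k l => ∑ a, ν a i j * ν a k l) S := fun S _ =>
    mix_nonneg (κ₂ := Fin n) (ur δ) (unit_squares hδ) ν (fun _ _ _ _ => rfl) S
  have h1 := Finset.single_le_sum h0 (Finset.mem_powerset.mpr (Finset.Subset.refl univ))
  refine le_trans (le_of_eq ?_) h1
  unfold mix
  simp only [Finset.mem_univ, if_true]

end vec

end Pool.Agent.W669.HD
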