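import Pool.Agent.W669.HD.FiveFinal
import Pool.Agent.W60.HD.EXP5
import Pool.Agent.W696.HD.VAN5
import Pool.Agent.W891.HD.DEC
import Pool.Agent.W863.HD.Good5
import Pool.Agent.W298.HD.VEC5
import Pool.Agent.W98.HD.THS
import Pool.Agent.W654.HD.EX

/-!
# Two strongly nonpositive pieces of dimension five: results
-/

set_option autoImplicit false

namespace Pool.Agent.W669.HD

open Pool.Agent.W666.GB Finset

variable {m : ℕ}

/-- `R` is the sum of `k` curvature tensors `S i`, each living on some subspace `W i`, where either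
`dim (W i) ≤ 4` and the sectional curvatures of `S i` are nonpositive, or `dim (W i) ≤ d` and `S i`
is strongly nonpositive, and of a curvature tensor `R₀` whose curvature operator is at most
`-δ`. -/
def PiecesD {V : Type} [NormedAddCommGroup V] [InnerProductSpace ℝ V] (d k : ℕ) (δ : ℝ)
    (R : V → V → V → V → ℝ) : Prop :=
  ∃ (S : Fin k → V → V → V → V → ℝ) (W : Fin k → Submodule ℝ V) (R₀ : V → V → V → V → ℝ),
    (∀ i, AlgCurv (S i) ∧ LivesOn (W i) (S i) ∧
      ((Module.finrank ℝ (W i) ≤ 4 ∧ ∀ x y, S i x y x y ≤ 0) ∨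
        (Module.finrank ℝ (W i) ≤ d ∧ Strong (S i)))) ∧
    AlgCurv R₀ ∧ OpNonneg (negT (addT R₀ fun x y z w => δ * unitT x y z w)) ∧
    ∀ x y z w, R x y z w = ∑ i, S i x y z w + R₀ x y z w

theorem five_two' (hP : S_PSD5) {V : Type} [NormedAddCommGroup V]
    [InnerProductSpace ℝ V] (e : OrthonormalBasis (Fin m × Bool) ℝ V)
    {R : V → V → V → V → ℝ} {δ : ℝ} (hδ : 0 ≤ δ)
    (h : PiecesD 5 2 δ R) : roundGB m δ ≤ (-1) ^ m * gbc e R :=
  pieces5_two Pool.Agent.W60.HD.exp5 hP Pool.Agent.W696.HD.VAN5.main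
    (Pool.Agent.W863.HD.Good5.good5 Pool.Agent.W891.HD.dec) Pool.Agent.W298.HD.VEC5
    Pool.Agent.W98.HD.ths e hδ h

theorem field_five' (hP : S_PSD5) {M : Type} [MeasurableSpace M] (μ : MeasureTheory.Measure M)
    (K : CurvField m M) (h : ∀ p, PiecesD 5 2 0 (K.R p)) :
    0 ≤ (-1) ^ m * ∫ p, K.gb p ∂μ := by
  rw [← MeasureTheory.integral_const_mul]
  refine MeasureTheory.integral_nonneg fun p => ?_
  exact (roundGB_nonneg le_rfl).trans (five_two' hP (K.e p) le_rfl (h p))

theorem field_five'' (hP : S_PSD5) {M : Type} [MeasurableSpace M] (μ : MeasureTheory.Measure M)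
    [MeasureTheory.IsFiniteMeasure μ] (K : CurvField m M) (hi : MeasureTheory.Integrable K.gb μ)
    {δ : ℝ} (hδ : 0 ≤ δ) (h : ∀ p, PiecesD 5 2 δ (K.R p)) :
    roundGB m δ * μ.real Set.univ ≤ (-1) ^ m * ∫ p, K.gb p ∂μ := by
  rw [← MeasureTheory.integral_const_mul]
  have h1 : roundGB m δ * μ.real Set.univ = ∫ _, roundGB m δ ∂μ := by
    rw [MeasureTheory.integral_const, smul_eq_mul, mul_comm]
  rw [h1]
  refine MeasureTheory.integral_mono (MeasureTheory.integrable_const _) (hi.const_mul _) fun p => ?_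
  exact five_two' hP (K.e p) hδ (h p)

/-- The example in dimension six: three pieces with nonpositive sectional curvatures on subspaces
of dimension four, and the sum is strongly nonpositive. -/
theorem example_sharp : ∃ R : E6 → E6 → E6 → E6 → ℝ, AlgCurv R ∧ PiecesD 4 3 0 R ∧
    PiecesD 6 1 0 R ∧
    ∀ e : OrthonormalBasis (Fin 3 × Bool) ℝ E6, (-1) ^ 3 * gbc e R < 0 := by
  have hcz : AlgCurv (fun _ _ _ _ : E6 => (0 : ℝ)) :=
    ⟨fun _ _ _ _ _ => by simp, fun _ _ _ _ _ => by simp, fun _ _ _ _ => by simp,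
      fun _ _ _ _ => by simp, fun _ _ _ _ => by simp⟩
  have hR : AlgCurv (addT (addT (RR 0) (RR 1)) (RR 2)) :=
    add_curv (add_curv (RR_curv 0) (RR_curv 1)) (RR_curv 2)
  have hstrong : Strong (addT (addT (RR 0) (RR 1)) (RR 2)) := by
    refine ⟨_, psi_form, ?_⟩
    intro n x y
    have h1 : ∀ x y z w : E6, negT (addT (addT (addT (RR 0) (RR 1)) (RR 2))
        (fun x y z w => - ∑ s, psi s x y z w)) x y z w = ∑ s, 3 * (AA s x y * AA s z w) := by
      intro x y z w
      simp only [negT, addT, Fin.sum_univ_three, RR, psi]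
      ring
    simp only [h1]
    have h2 : ∑ a, ∑ b, ∑ s : Fin 3, 3 * (AA s (x a) (y a) * AA s (x b) (y b)) =
        ∑ s : Fin 3, 3 * (∑ a, AA s (x a) (y a)) ^ 2 := by
      rw [Finset.sum_congr rfl fun a _ => Finset.sum_comm, Finset.sum_comm]
      refine Finset.sum_congr rfl fun s _ => ?_
      rw [sq, Finset.sum_mul_sum, Finset.mul_sum]
      refine Finset.sum_congr rfl fun a _ => ?_
      rw [Finset.mul_sum]
    rw [h2]
    positivity
  have hzero : OpNonneg (negT (addT (fun _ _ _ _ : E6 => (0 : ℝ))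
      fun x y z w => 0 * unitT x y z w)) := by
    intro n x y
    simp [negT, addT]
  refine ⟨addT (addT (RR 0) (RR 1)) (RR 2), hR, ⟨RR, WW, fun _ _ _ _ => 0, ?_, hcz, hzero, ?_⟩,
    ⟨fun _ => addT (addT (RR 0) (RR 1)) (RR 2), fun _ => ⊤, fun _ _ _ _ => 0, ?_, hcz, hzero, ?_⟩,
    ?_⟩
  · intro i
    exact ⟨RR_curv i, RR_lives i, Or.inl ⟨WW_finrank i, RR_sec i⟩⟩
  · intro x y z w
    simp [addT, Fin.sum_univ_three]
  · intro i
    refine ⟨hR, ?_, Or.inr ⟨?_, hstrong⟩⟩
    · intro x hx y z w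
      rw [Submodule.top_orthogonal_eq_bot, Submodule.mem_bot] at hx
      rw [hx]
      have := hR.smul 0 0 y z w
      simpa using this
    · simp [finrank_top, finrank_euclideanSpace]
  · intro x y z w
    simp
  · intro e
    set e₀ : OrthonormalBasis (Fin 3 × Bool) ℝ E6 := EuclideanSpace.basisFun _ ℝ with he₀
    rw [Pool.Agent.W688.HD.bas 3 E6 e e₀ _ hR, gbc_eq]
    have hπ := Real.pi_pos
    have hc : 0 < 1 / ((8 * Real.pi) ^ 3 * (Nat.factorial 3 : ℝ)) := by positivity
    refine mul_neg_of_pos_of_neg hc ?_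
    have hcp : (fun _ : Fin 3 => cp e₀ (negT (addT (addT (RR 0) (RR 1)) (RR 2)))) =
        fun _ : Fin 3 => (fun i j k l => pr 0 i j k l + pr 1 i j k l + pr 2 i j k l : T4 3) := by
      funext _ i j k l
      simp only [cp, negT, addT, RR, he₀, EuclideanSpace.basisFun_apply, AA_single, pr]
      ring
    rw [hcp]
    exact Pool.Agent.W654.HD.main

end Pool.Agent.W669.HD
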