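import Pool.Agent.W669.HD.CM
import Pool.Agent.W669.HD.Sq
import Pool.Agent.W688.HD.BAS
import Pool.Agent.W688.HD.ADB
import Pool.Agent.W976.HD.D4
import Pool.Agent.W975.HD.THO
import Pool.Agent.W150.HD.SUM

/-!
# The four-plane theorem
-/

set_option autoImplicit false

namespace Pool.Agent.W669.HD

open Pool.Agent.W666.GB Finset

section alt

open Pool.Agent.W976.HD in
theorem alt_eps {Ω : Fin 4 → Fin 4 → Fin 4 → Fin 4 → ℝ}
    (h12 : ∀ i j k l, Ω j i k l = - Ω i j k l) (h23 : ∀ i j k l, Ω i k j l = - Ω i j k l)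
    (h34 : ∀ i j k l, Ω i j l k = - Ω i j k l) (i j k l : Fin 4) :
    Ω i j k l = Ω 0 1 2 3 * eps i j k l := by
  have z12 : ∀ i k l, Ω i i k l = 0 := fun i k l => by have := h12 i i k l; linarith
  have z23 : ∀ i j l, Ω i j j l = 0 := fun i j l => by have := h23 i j j l; linarith
  have z34 : ∀ i j k, Ω i j k k = 0 := fun i j k => by have := h34 i j k k; linarith
  have z13 : ∀ i j l, Ω i j i l = 0 := fun i j l => by rw [h23, z12, neg_zero]
  have z24 : ∀ i j k, Ω i j k j = 0 := fun i j k => by rw [h34, z23, neg_zero]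
  have z14 : ∀ i j k, Ω i j k i = 0 := fun i j k => by rw [h34, z13, neg_zero]
  have s12 : ∀ i j k l, i < j → Ω j i k l = - Ω i j k l := fun i j k l _ => h12 i j k l
  have s23 : ∀ i j k l, j < k → Ω i k j l = - Ω i j k l := fun i j k l _ => h23 i j k l
  have s34 : ∀ i j k l, k < l → Ω i j l k = - Ω i j k l := fun i j k l _ => h34 i j k l
  rw [eps_cast]
  fin_cases i <;> fin_cases j <;> fin_cases k <;> fin_cases l <;>
    first
    | (simp only [Fin.zero_eta, Fin.mk_one, Fin.reduceFinMk, z12, z23, z34, z13, z24, z14, epsZ]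
       norm_num; done)
    | simp (decide := true) [s12, s23, s34, epsZ]

theorem bet_formula {K : Fin 4 → Fin 4 → Fin 4 → Fin 4 → ℝ}
    (h12 : ∀ i j k l, K j i k l = - K i j k l) (hp : ∀ i j k l, K k l i j = K i j k l) :
    bet K = 8 * (K 0 1 2 3 + K 1 2 0 3 + K 2 0 1 3) := by
  have h34 : ∀ i j k l, K i j l k = - K i j k l := fun i j k l => by
    rw [← hp i j l k, h12, hp]
  rw [bet, Pool.Agent.W976.HD.sum4]
  linarith [h12 0 1 2 3, h34 0 1 2 3, h34 1 0 2 3, hp 0 1 2 3, h12 2 3 0 1,
    h34 2 3 0 1, h34 3 2 0 1, h12 1 2 0 3, h34 1 2 0 3, h34 2 1 0 3,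
    hp 1 2 0 3, h12 0 3 1 2, h34 0 3 1 2, h34 3 0 1 2, h12 2 0 1 3,
    h34 2 0 1 3, h34 0 2 1 3, hp 2 0 1 3, h12 1 3 2 0, h34 1 3 2 0,
    h34 3 1 2 0]

theorem kap_le {Ω K : Fin 4 → Fin 4 → Fin 4 → Fin 4 → ℝ}
    (o12 : ∀ i j k l, Ω j i k l = - Ω i j k l) (o23 : ∀ i j k l, Ω i k j l = - Ω i j k l)
    (o34 : ∀ i j k l, Ω i j l k = - Ω i j k l) (op : ∀ i j k l, Ω k l i j = Ω i j k l)
    {n : ℕ} (ν : Fin n → Fin 4 → Fin 4 → ℝ) (hν : ∀ a i j, ν a j i = - ν a i j)
    (hK : ∀ i j k l, K i j k l = ∑ a, ν a i j * ν a k l)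
    (h : (Ω 0 1 2 3 + Ω 1 2 0 3 + Ω 2 0 1 3) ^ 2 ≤ 2 * (K 0 1 2 3 + K 1 2 0 3 + K 2 0 1 3) ^ 2) :
    kap Ω ≤ kap K := by
  have d4 := Pool.Agent.W976.HD.d4
  have hK' : K = fun i j k l => ∑ a, ν a i j * ν a k l := by
    funext i j k l
    exact hK i j k l
  have hΩ' : Ω = fun i j k l => Ω 0 1 2 3 * eps i j k l := by
    funext i j k l
    exact alt_eps o12 o23 o34 i j k l
  have h1 := d4.1 n ν hν
  rw [← hK'] at h1
  have h2 := d4.2 (Ω 0 1 2 3)
  rw [← hΩ'] at h2
  have k12 : ∀ i j k l, K j i k l = - K i j k l := by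
    intro i j k l
    rw [hK, hK, ← Finset.sum_neg_distrib]
    refine Finset.sum_congr rfl fun a _ => ?_
    rw [hν]; ring
  have kp : ∀ i j k l, K k l i j = K i j k l := by
    intro i j k l
    rw [hK, hK]
    refine Finset.sum_congr rfl fun a _ => ?_
    ring
  rw [bet_formula k12 kp] at h1
  rw [bet_formula o12 op] at h2
  nlinarith [h1, h2, h]

end alt

section comp

variable {m : ℕ}

theorem sn_def {J : Type*} [Fintype J] [DecidableEq J] (σ : Equiv.Perm J) :
    sn σ = ((Equiv.Perm.sign σ : ℤ) : ℝ) := rfl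

variable {V : Type*} [NormedAddCommGroup V] [InnerProductSpace ℝ V]

/-- components of a form -/
noncomputable def cp (e : OrthonormalBasis (Fin m × Bool) ℝ V) (K : V → V → V → V → ℝ) : T4 m :=
  fun i j k l => K (e i) (e j) (e k) (e l)

theorem gbc_eq (e : OrthonormalBasis (Fin m × Bool) ℝ V) (R : V → V → V → V → ℝ) :
    (-1) ^ m * gbc e R = 1 / ((8 * Real.pi) ^ m * m.factorial) *
      gm (fun _ : Fin m => cp e (negT R)) := by
  unfold gbc gm cp negT
  rw [mul_left_comm]
  congr 1
  rw [Finset.mul_sum]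
  refine Finset.sum_congr rfl fun σ _ => ?_
  rw [Finset.mul_sum]
  refine Finset.sum_congr rfl fun τ _ => ?_
  simp only [sn_def]
  rw [Finset.prod_neg, Finset.card_univ, Fintype.card_fin]
  ring

/-- The tensor of constant curvature one. -/
noncomputable def unitT (x y z w : V) : ℝ :=
  inner ℝ x z * inner ℝ y w - inner ℝ x w * inner ℝ y z

theorem unit_bi (δ : ℝ) : BiForm (fun x y z w : V => δ * unitT x y z w) where
  add x x' y z w := by simp only [unitT, inner_add_left]; ring
  smul t x y z w := by simp only [unitT, inner_smul_left, conj_trivial]; ring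
  anti x y z w := by simp only [unitT]; ring
  pair x y z w := by
    simp only [unitT]
    rw [real_inner_comm x z, real_inner_comm w y, real_inner_comm y z, real_inner_comm x w]
    ring

theorem cp_unit (e : OrthonormalBasis (Fin m × Bool) ℝ V) (i j k l : Fin m × Bool) :
    unitT (e i) (e j) (e k) (e l) = unitCurv i j k l := by
  simp only [unitT, unitCurv, inner_e]

theorem cur_cp (e : OrthonormalBasis (Fin m × Bool) ℝ V) {R : V → V → V → V → ℝ}
    (hR : AlgCurv R) : Cur (cp e (negT R)) where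
  a12 i j k l := by simp only [cp, negT]; rw [hR.anti]
  a34 i j k l := by simp only [cp, negT]; rw [hR.a34]
  bia i j k l := by
    simp only [cp, negT]
    have := hR.bianchi (e i) (e j) (e k) (e l)
    linarith

theorem supp_cp {e : OrthonormalBasis (Fin m × Bool) ℝ V} {r : Fin 4 → Fin m × Bool}
    {W : Submodule ℝ V} (hr : ∀ j, (∀ i, r i ≠ j) → e j ∈ Wᗮ) {L : V → V → V → V → ℝ}
    (hL : BiForm L) (hW : LivesOn W L) : Supp r (cp e L) := by
  have h0 : ∀ j, j ∉ Set.range r → e j ∈ Wᗮ := by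
    intro j hj
    exact hr j fun i hi => hj ⟨i, hi⟩
  intro i j k l h
  simp only [cp]
  rcases h with h | h | h | h
  · exact hW _ (h0 _ h) _ _ _
  · rw [hL.anti, hW _ (h0 _ h), neg_zero]
  · rw [← hL.pair, hW _ (h0 _ h)]
  · rw [← hL.pair, hL.anti, hW _ (h0 _ h), neg_zero]

/-- square roots of the unit tensor -/
noncomputable def ur (δ : ℝ) (p : (Fin m × Bool) × (Fin m × Bool)) (i j : Fin m × Bool) : ℝ :=
  Real.sqrt (δ / 2) * ((if i = p.1 then 1 else 0) * (if j = p.2 then 1 else 0) -
    (if j = p.1 then 1 else 0) * (if i = p.2 then 1 else 0))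

theorem unit_squares {δ : ℝ} (hδ : 0 ≤ δ) (i j k l : Fin m × Bool) : δ * unitCurv i j k l =
    ∑ p : (Fin m × Bool) × (Fin m × Bool), ur δ p i j * ur δ p k l := by
  have hs : Real.sqrt (δ / 2) * Real.sqrt (δ / 2) = δ / 2 := Real.mul_self_sqrt (by positivity)
  have hpp : ∀ a b c d : Fin m × Bool, ∑ p : (Fin m × Bool) × (Fin m × Bool),
      (((if a = p.1 then (1 : ℝ) else 0) * (if b = p.2 then 1 else 0)) *
        ((if c = p.1 then 1 else 0) * (if d = p.2 then 1 else 0))) =
      (if a = c then 1 else 0) * (if b = d then 1 else 0) := by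
    intro a b c d
    rw [Fintype.sum_prod_type]
    have h1 : ∀ x y : Fin m × Bool, (((if a = x then (1 : ℝ) else 0) * (if b = y then 1 else 0)) *
        ((if c = x then 1 else 0) * (if d = y then 1 else 0))) =
        ((if a = x then (1 : ℝ) else 0) * (if c = x then 1 else 0)) *
        ((if b = y then (1 : ℝ) else 0) * (if d = y then 1 else 0)) := by
      intro x y; ring
    simp only [h1]
    rw [← Finset.sum_mul_sum]
    congr 1
    · rw [Finset.sum_eq_single a]
      · simp [eq_comm]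
      · intro x _ hx; rw [if_neg hx.symm, zero_mul]
      · simp
    · rw [Finset.sum_eq_single b]
      · simp [eq_comm]
      · intro x _ hx; rw [if_neg hx.symm, zero_mul]
      · simp
  have e1 : ∀ p : (Fin m × Bool) × (Fin m × Bool),
      (Real.sqrt (δ / 2) * ((if i = p.1 then 1 else 0) * (if j = p.2 then 1 else 0) -
        (if j = p.1 then 1 else 0) * (if i = p.2 then 1 else 0))) *
      (Real.sqrt (δ / 2) * ((if k = p.1 then 1 else 0) * (if l = p.2 then 1 else 0) -
        (if l = p.1 then 1 else 0) * (if k = p.2 then 1 else 0))) =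
      δ / 2 * ((((if i = p.1 then (1 : ℝ) else 0) * (if j = p.2 then 1 else 0)) *
        ((if k = p.1 then 1 else 0) * (if l = p.2 then 1 else 0))) -
        (((if i = p.1 then (1 : ℝ) else 0) * (if j = p.2 then 1 else 0)) *
        ((if l = p.1 then 1 else 0) * (if k = p.2 then 1 else 0))) -
        (((if j = p.1 then (1 : ℝ) else 0) * (if i = p.2 then 1 else 0)) *
        ((if k = p.1 then 1 else 0) * (if l = p.2 then 1 else 0))) +
        (((if j = p.1 then (1 : ℝ) else 0) * (if i = p.2 then 1 else 0)) *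
        ((if l = p.1 then 1 else 0) * (if k = p.2 then 1 else 0)))) := by
    intro p
    generalize Real.sqrt (δ / 2) = s at hs ⊢
    rw [← hs]; ring
  simp only [ur, e1]
  rw [← Finset.mul_sum, Finset.sum_add_distrib, Finset.sum_sub_distrib, Finset.sum_sub_distrib,
    hpp, hpp, hpp, hpp]
  simp only [unitCurv]
  ring

end comp

open Pool.Agent.W150.HD in
theorem core {m : ℕ} {V : Type} [NormedAddCommGroup V] [InnerProductSpace ℝ V]
    (e : OrthonormalBasis (Fin m × Bool) ℝ V) {R : V → V → V → V → ℝ} (hR : AlgCurv R)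
    {δ : ℝ} (hδ : 0 ≤ δ) (h : FourPlane (addT R fun x y z w => δ * unitT x y z w)) :
    ∃ (e' : OrthonormalBasis (Fin m × Bool) ℝ V) (n : ℕ)
      (ν : Fin n → Fin m × Bool → Fin m × Bool → ℝ), gbc e R = gbc e' R ∧
      gm (fun _ : Fin m => (fun i j k l => δ * unitCurv i j k l + ∑ a, ν a i j * ν a k l : T4 m))
        ≤ gm (fun _ : Fin m => cp e' (negT R)) := by
  classical
  obtain ⟨W, ω, K, hW, hω, hωW, hK, hKW, hKn, hN, hcyc⟩ := h
  have hbas := Pool.Agent.W688.HD.bas
  have hadb := Pool.Agent.W688.HD.adb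
  have hNb : BiForm (negT (addT (addT (addT R fun x y z w => δ * unitT x y z w) ω) K)) :=
    neg_bi (add_bi (add_bi (add_bi (curv_bi hR) (unit_bi δ)) hω.toBiForm) hK)
  have hor : ∀ x y z w, ω x z y w = - ω x y z w := hω.alt
  -- the basis
  obtain ⟨e', hcase⟩ : ∃ e' : OrthonormalBasis (Fin m × Bool) ℝ V,
      m ≤ 1 ∨ ∃ r : Fin 4 → Fin m × Bool, Function.Injective r ∧
        ∀ j, (∀ i, r i ≠ j) → e' j ∈ Wᗮ := by
    rcases Nat.lt_or_ge m 2 with h1 | h1
    · exact ⟨e, Or.inl (by omega)⟩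
    · obtain ⟨e', r, hr, hr'⟩ := hadb m V e W h1 hW
      exact ⟨e', Or.inr ⟨r, hr, hr'⟩⟩
  obtain ⟨n₁, μ, hμ, hKμ⟩ := hK.squares (fun i => e' i) hKn
  obtain ⟨n, ν, hν, hNν⟩ := hNb.squares (fun i => e' i) hN
  refine ⟨e', n, ν, hbas m V e e' R hR, ?_⟩
  have hΩ : Alt4 (cp e' (negT ω)) := {
    a12 := fun i j k l => by simp only [cp, negT]; rw [hω.anti]
    a23 := fun i j k l => by simp only [cp, negT]; rw [hω.alt]
    a34 := fun i j k l => by simp only [cp, negT]; rw [hω.toBiForm.a34] }
  have hsum : ∀ i j k l, cp e' (negT R) i j k l + cp e' (negT ω) i j k l =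
      cp e' K i j k l + (δ * unitCurv i j k l + ∑ a, ν a i j * ν a k l) := by
    intro i j k l
    rw [← hNν i j k l, ← cp_unit e']
    simp only [cp, negT, addT]
    ring
  have hunit := unit_squares (m := m) hδ
  refine comp_main (κ₁ := Fin n₁) (κ₂ := ((Fin m × Bool) × (Fin m × Bool)) ⊕ Fin n)
    (cur_cp e' hR) hΩ hsum μ (fun i j k l => hKμ i j k l)
    (Sum.elim (ur δ) ν) ?_ ?_
  · intro i j k l
    rw [hunit, Fintype.sum_sum_type]
    rfl
  · rcases hcase with h1 | ⟨r, hr, hr'⟩
    · exact Or.inl h1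
    · refine Or.inr ⟨r, hr, supp_cp hr' (neg_bi hω.toBiForm) ?_, supp_cp hr' hK hKW, ?_⟩
      · intro x hx y z w
        simp only [negT, hωW x hx, neg_zero]
      · refine kap_le (n := n₁) ?_ ?_ ?_ ?_ (fun a i j => μ a (r i) (r j)) ?_ ?_ ?_
        · intro i j k l; exact hΩ.a12 _ _ _ _
        · intro i j k l; exact hΩ.a23 _ _ _ _
        · intro i j k l; exact hΩ.a34 _ _ _ _
        · intro i j k l; simp only [cp, negT]; rw [hω.pair]
        · intro a i j; exact hμ _ _ _
        · intro i j k l; exact hKμ _ _ _ _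
        · have h2 := hcyc (e' (r 0)) (e' (r 1)) (e' (r 2)) (e' (r 3))
          simp only [cyc] at h2
          simp only [cp, negT]
          nlinarith [h2]

/-- constant curvature -/
theorem unit_gm {m : ℕ} (δ : ℝ) :
    gm (fun _ : Fin m => (fun i j k l => δ * unitCurv i j k l : T4 m)) =
      2 ^ m * (δ ^ m * (2 * m).factorial) := by
  classical
  have h1 := lift_sum (B := Fin m) (fun a b c d => δ * (if a = b then 1 else 0) *
    (if c = d then 1 else 0)) (fun i j k l => δ * unitCurv i j k l) (by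
      intro i j k l
      simp only [unitCurv]
      ring)
  rw [Fintype.card_fin] at h1
  rw [gm, h1]
  congr 1
  have h2 : ∀ π π' : Equiv.Perm (Fin m × Bool), sn π * sn π' *
      ∏ b : Fin m, (δ * (if π (b, false) = π' (b, false) then 1 else 0) *
        (if π (b, true) = π' (b, true) then 1 else 0)) = if π' = π then δ ^ m else 0 := by
    intro π π'
    split_ifs with h
    · subst h
      simp only [if_true, mul_one, Finset.prod_const, Finset.card_univ, Fintype.card_fin]
      have : sn π' * sn π' = 1 := by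
        rw [← sn_mul]
        rcases Int.units_eq_one_or (Equiv.Perm.sign π') with h | h <;> simp [sn, h]
      rw [this, one_mul]
    · have h3 : ∃ x, π x ≠ π' x := by
        by_contra hc
        push Not at hc
        exact h (Equiv.ext fun x => (hc x).symm)
      obtain ⟨⟨b, β⟩, hb⟩ := h3
      have : ∏ b : Fin m, (δ * (if π (b, false) = π' (b, false) then 1 else 0) *
        (if π (b, true) = π' (b, true) then 1 else 0)) = 0 := by
        refine Finset.prod_eq_zero (Finset.mem_univ b) ?_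
        cases β with
        | false => rw [if_neg hb]; ring
        | true => rw [if_neg hb]; ring
      rw [this, mul_zero]
  rw [Yf]
  simp only [h2, Finset.sum_ite_eq', Finset.mem_univ, if_true, Finset.sum_const, Finset.card_univ,
    Fintype.card_perm, Fintype.card_prod, Fintype.card_fin, Fintype.card_bool, nsmul_eq_mul]
  rw [mul_comm m 2]
  ring

section final

variable {m : ℕ} {V : Type} [NormedAddCommGroup V] [InnerProductSpace ℝ V]

/-- The pointwise inequality. -/
theorem four_plane (e : OrthonormalBasis (Fin m × Bool) ℝ V) {R : V → V → V → V → ℝ}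
    (hR : AlgCurv R) {δ : ℝ} (hδ : 0 ≤ δ)
    (h : FourPlane (addT R fun x y z w => δ * unitT x y z w)) :
    roundGB m δ ≤ (-1) ^ m * gbc e R := by
  classical
  obtain ⟨e', n, ν, hb, hle⟩ := core e hR hδ h
  rw [hb, gbc_eq]
  have hπ := Real.pi_pos
  have hc : 0 < 1 / ((8 * Real.pi) ^ m * (m.factorial : ℝ)) := by positivity
  have hr : roundGB m δ = 1 / ((8 * Real.pi) ^ m * m.factorial) *
      (2 ^ m * (δ ^ m * (2 * m).factorial)) := by
    unfold roundGB
    have : (8 * Real.pi) ^ m = 2 ^ m * (4 * Real.pi) ^ m := by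
      rw [← mul_pow]; congr 1; ring
    rw [this]
    field_simp
  rw [hr]
  refine mul_le_mul_of_nonneg_left (le_trans ?_ hle) hc.le
  rw [gm_add (m := m) (fun i j k l => δ * unitCurv i j k l)
    (fun i j k l => ∑ a, ν a i j * ν a k l), ← unit_gm]
  have h0 : ∀ S ∈ (univ : Finset (Fin m)).powerset,
      0 ≤ mix (m := m) (fun i j k l => δ * unitCurv i j k l)
        (fun i j k l => ∑ a, ν a i j * ν a k l) S := fun S _ =>
    mix_nonneg (κ₂ := Fin n) (ur δ) (unit_squares hδ) ν (fun _ _ _ _ => rfl) S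
  have h1 := Finset.single_le_sum h0 (Finset.mem_powerset.mpr (Finset.Subset.refl univ))
  refine le_trans (le_of_eq ?_) h1
  unfold mix
  simp only [Finset.mem_univ, if_true]

theorem roundGB_nonneg {δ : ℝ} (hδ : 0 ≤ δ) : 0 ≤ roundGB m δ := by
  have hπ := Real.pi_pos
  unfold roundGB
  positivity

theorem add_zero_unit (R : V → V → V → V → ℝ) :
    (addT R fun x y z w => 0 * unitT x y z w) = R := by
  funext x y z w
  simp [addT]

theorem unit_curv (δ : ℝ) : AlgCurv (fun x y z w : V => δ * unitT x y z w) := by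
  have h0 : AlgCurv (fun _ _ _ _ : V => (0 : ℝ)) :=
    ⟨fun _ _ _ _ _ => by simp, fun _ _ _ _ _ => by simp, fun _ _ _ _ => by simp,
      fun _ _ _ _ => by simp, fun _ _ _ _ => by simp⟩
  have hR := ET_curv h0 (-δ)
  have : (fun x y z w : V => δ * unitT x y z w) = ET (fun _ _ _ _ : V => (0 : ℝ)) (-δ) := by
    funext x y z w
    simp only [ET, unitT]
    ring
  rw [this]
  exact hR

theorem add_curv {R S : V → V → V → V → ℝ} (hR : AlgCurv R) (hS : AlgCurv S) :
    AlgCurv (addT R S) where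
  add x x' y z w := by simp only [addT, hR.add, hS.add]; ring
  smul t x y z w := by simp only [addT, hR.smul, hS.smul]; ring
  anti x y z w := by simp only [addT]; rw [hR.anti, hS.anti]; ring
  pair x y z w := by simp only [addT]; rw [hR.pair, hS.pair]
  bianchi x y z w := by
    have h1 := hR.bianchi x y z w
    have h2 := hS.bianchi x y z w
    simp only [addT]
    linarith

/-- Sums of two curvature tensors. -/
theorem sum_bound (e : OrthonormalBasis (Fin m × Bool) ℝ V) {R₁ R₂ : V → V → V → V → ℝ}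
    (W : Submodule ℝ V) (h₁ : AlgCurv R₁) (h₂ : AlgCurv R₂) (hW : Module.finrank ℝ W ≤ 4)
    (hl : LivesOn W R₁) (hs : ∀ x y, R₁ x y x y ≤ 0) {δ : ℝ} (hδ : 0 ≤ δ)
    (hn : OpNonneg (negT (addT R₂ fun x y z w => δ * unitT x y z w))) :
    roundGB m δ ≤ (-1) ^ m * gbc e (addT R₁ R₂) := by
  have hsum := Pool.Agent.W150.HD.t_SUM Pool.Agent.W975.HD.tho Pool.Agent.W688.HD.adb
  have h := hsum m V e R₁ (addT R₂ fun x y z w => δ * unitT x y z w) W h₁
    (add_curv h₂ (unit_curv δ)) hW hl hs hn
  refine four_plane e (add_curv h₁ h₂) hδ ?_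
  have : (addT (addT R₁ R₂) fun x y z w => δ * unitT x y z w) =
      addT R₁ (addT R₂ fun x y z w => δ * unitT x y z w) := by
    funext x y z w
    simp only [addT]
    ring
  rw [this]
  exact h

end final

/-- Integrated form. -/
theorem field_bound {m : ℕ} {M : Type} [MeasurableSpace M] (μ : MeasureTheory.Measure M)
    (K : CurvField m M) (h : ∀ p, FourPlane (K.R p)) :
    0 ≤ (-1) ^ m * ∫ p, K.gb p ∂μ := by
  rw [← MeasureTheory.integral_const_mul]
  refine MeasureTheory.integral_nonneg fun p => ?_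
  have h1 := four_plane (K.e p) (K.curv p) le_rfl (by rw [add_zero_unit]; exact h p)
  exact (roundGB_nonneg le_rfl).trans h1

theorem field_bound' {m : ℕ} {M : Type} [MeasurableSpace M] (μ : MeasureTheory.Measure M)
    [MeasureTheory.IsFiniteMeasure μ] (K : CurvField m M) (hi : MeasureTheory.Integrable K.gb μ)
    {δ : ℝ} (hδ : 0 ≤ δ) (h : ∀ p, FourPlane (addT (K.R p) fun x y z w => δ * unitT x y z w)) :
    roundGB m δ * μ.real Set.univ ≤ (-1) ^ m * ∫ p, K.gb p ∂μ := by
  rw [← MeasureTheory.integral_const_mul]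
  have h1 : roundGB m δ * μ.real Set.univ = ∫ _, roundGB m δ ∂μ := by
    rw [MeasureTheory.integral_const, smul_eq_mul, mul_comm]
  rw [h1]
  refine MeasureTheory.integral_mono (MeasureTheory.integrable_const _) (hi.const_mul _) fun p => ?_
  exact four_plane (K.e p) (K.curv p) hδ (h p)

end Pool.Agent.W669.HD
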