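import Pool.Agent.W669.HD.Main

/-!
# Two pieces of dimension four: definitions and statements
-/

set_option autoImplicit false

namespace Pool.Agent.W669.HD

open Pool.Agent.W666.GB Finset

/-- tensors with indices in `Fin 4` -/
abbrev Q4 := Fin 4 → Fin 4 → Fin 4 → Fin 4 → ℝ

/-- symmetries of curvature tensors with indices in `Fin 4` -/
structure Cur4 (P : Q4) : Prop where
  a12 : ∀ i j k l, P j i k l = - P i j k l
  pair : ∀ i j k l, P k l i j = P i j k l
  bia : ∀ i j k l, P i j k l + P j k i l + P k i j l = 0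

/-- nonnegative sectional values -/
def Sec4 (P : Q4) : Prop :=
  ∀ x y : Fin 4 → ℝ, 0 ≤ ∑ i, ∑ j, ∑ k, ∑ l, P i j k l * (x i * y j * x k * y l)

/-- mixed discriminant of two forms in four dimensions -/
def kap2 (K L : Q4) : ℝ :=
  ∑ π : Equiv.Perm (Fin 4), ∑ π' : Equiv.Perm (Fin 4), sn π * sn π' *
    (K (π 0) (π 1) (π' 0) (π' 1) * L (π 2) (π 3) (π' 2) (π' 3))

section comp

variable {m : ℕ}

/-- the tensor `K` has the components `K'` with respect to four vectors, whose pairings with the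
basis vectors are given by `a` -/
def Fac (a : Fin m × Bool → Fin 4 → ℝ) (K : T4 m) (K' : Q4) : Prop :=
  ∀ i j k l, K i j k l = ∑ p, ∑ q, ∑ r, ∑ s, a i p * a j q * a k r * a l s * K' p q r s

/-- product of the pairings of the four vectors with the basis vectors in the four slots of two
places -/
noncomputable def aw (a : Fin m × Bool → Fin 4 → ℝ) (b₀ b₁ : Fin m)
    (σ : Equiv.Perm (Fin m × Bool)) : ℝ :=
  ∏ i : Fin 4, a (σ (slot b₀ b₁ i)) i

/-- mixed sum over the places of `S` with weight `w` -/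
noncomputable def gmw (w : Equiv.Perm (Fin m × Bool) → ℝ) (S : Finset (Fin m))
    (C : Fin m → T4 m) : ℝ :=
  ∑ σ : Equiv.Perm (Fin m × Bool), ∑ τ : Equiv.Perm (Fin m × Bool), sn σ * sn τ *
    (w σ * w τ * ∏ b ∈ S, C b (σ (b, false)) (σ (b, true)) (τ (b, false)) (τ (b, true)))

end comp

/-- ALT: one alternating factor, all others with the curvature symmetries -/
def S_ALT : Prop :=
  ∀ (m : ℕ) (C : Fin m → T4 m) (b₀ : Fin m), Alt4 (C b₀) → (∀ b, b ≠ b₀ → Cur (C b)) → gm C = 0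

/-- DE: two equal alternating factors, all others nonnegative with the curvature symmetries -/
def S_DE : Prop :=
  ∀ (m : ℕ) (P Ω : T4 m) (n : ℕ) (ν : Fin n → Fin m × Bool → Fin m × Bool → ℝ), Cur P → Alt4 Ω →
    (∀ i j k l, P i j k l = ∑ a, ν a i j * ν a k l) → ∀ b₀ b₁ : Fin m, b₁ ≠ b₀ →
      0 ≤ mix Ω P {b₀, b₁}

/-- FAC: two factors which live on four vectors -/
def S_FAC : Prop :=
  ∀ (m : ℕ) (w : Equiv.Perm (Fin m × Bool) → ℝ) (S : Finset (Fin m)) (C : Fin m → T4 m)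
    (a : Fin m × Bool → Fin 4 → ℝ) (K' L' : Q4) (b₀ b₁ : Fin m), b₀ ∈ S → b₁ ∈ S → b₁ ≠ b₀ →
    (∀ σ σ' : Equiv.Perm (Fin m × Bool), (∀ x : Fin m × Bool, x.1 ≠ b₀ → x.1 ≠ b₁ → σ x = σ' x) →
      w σ = w σ') →
    Fac a (C b₀) K' → Fac a (C b₁) L' →
      gmw w S C = kap2 K' L' * gmw (fun σ => w σ * aw a b₀ b₁ σ) ((S.erase b₀).erase b₁) C

/-- VAN: three factors which live on four vectors -/
def S_VAN : Prop :=
  ∀ (m : ℕ) (C : Fin m → T4 m) (a : Fin m × Bool → Fin 4 → ℝ) (K₀ K₁ K₂ : Q4) (b₀ b₁ b₂ : Fin m),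
    b₁ ≠ b₀ → b₂ ≠ b₀ → b₂ ≠ b₁ → Fac a (C b₀) K₀ → Fac a (C b₁) K₁ → Fac a (C b₂) K₂ → gm C = 0

/-- K4: mixed discriminants of a curvature tensor in four dimensions -/
def S_K4 : Prop :=
  ∀ (P K : Q4) (t : ℝ) (n : ℕ) (μ : Fin n → Fin 4 → Fin 4 → ℝ), Cur4 P →
    (∀ i j k l, K i j k l = P i j k l + t * eps i j k l) → (∀ a i j, μ a j i = - μ a i j) →
    (∀ i j k l, K i j k l = ∑ a, μ a i j * μ a k l) →
      kap P = kap K - kap (fun i j k l => t * eps i j k l) ∧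
      2 * kap (fun i j k l => t * eps i j k l) ≤ kap K ∧
      0 ≤ kap (fun i j k l => t * eps i j k l)

/-- SQ4: squares in four dimensions -/
def S_SQ4 : Prop :=
  ∀ P : Q4, Cur4 P → Sec4 P → ∃ (t : ℝ) (n : ℕ) (μ : Fin n → Fin 4 → Fin 4 → ℝ),
    (∀ a i j, μ a j i = - μ a i j) ∧
    ∀ i j k l, P i j k l + t * eps i j k l = ∑ a, μ a i j * μ a k l

/-- VEC: the components of a nonpositively curved tensor living on a subspace of dimension at most
four -/
def S_VEC : Prop :=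
  ∀ (m : ℕ) (V : Type) [NormedAddCommGroup V] [InnerProductSpace ℝ V]
    (e : OrthonormalBasis (Fin m × Bool) ℝ V) (R : V → V → V → V → ℝ) (W : Submodule ℝ V),
    2 ≤ m → AlgCurv R → Module.finrank ℝ W ≤ 4 → LivesOn W R → (∀ x y, R x y x y ≤ 0) →
    ∃ (a : Fin m × Bool → Fin 4 → ℝ) (P : Q4), Fac a (cp e (negT R)) P ∧ Cur4 P ∧ Sec4 P

end Pool.Agent.W669.HD
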