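import Pool.Agent.W669.HD.TwoFinal

/-!
# Three pieces: the example in dimension six
-/

set_option autoImplicit false

namespace Pool.Agent.W669.HD

open Pool.Agent.W666.GB Finset

/-- the skew forms `e_j ∧ e_k + f_j ∧ f_k` on `ℝ³ ⊗ ℝ²`, where `s, j, k` are in cyclic order -/
def al (s : Fin 3) (i j : Fin 3 × Bool) : ℝ :=
  if i.2 = j.2 then
    (if i.1 = s + 1 ∧ j.1 = s + 2 then 1 else if i.1 = s + 2 ∧ j.1 = s + 1 then -1 else 0) else 0

/-- the curvature tensor of a skew form -/
def pr (s : Fin 3) : T4 3 := fun i j k l =>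
  2 * (al s i j * al s k l) - al s j k * al s i l - al s k i * al s j l

/-- EX: the sum of the three curvature tensors has negative integrand -/
def S_EX : Prop :=
  gm (fun _ : Fin 3 => (fun i j k l => pr 0 i j k l + pr 1 i j k l + pr 2 i j k l : T4 3)) < 0

end Pool.Agent.W669.HD
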