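import Pool.Agent.W669.HD.TwoFinal

/-!
# Pieces of dimension five: definitions and statements
-/

set_option autoImplicit false

namespace Pool.Agent.W669.HD

open Pool.Agent.W666.GB Finset

/-- `R` is strongly nonpositive: `R + ω` is nonpositive on all bivectors for some `4`-form `ω`. -/
def Strong {V : Type} [NormedAddCommGroup V] [InnerProductSpace ℝ V]
    (R : V → V → V → V → ℝ) : Prop :=
  ∃ ω : V → V → V → V → ℝ, FourForm ω ∧ OpNonneg (negT (addT R ω))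

/-- tensors with indices in `Fin 5` -/
abbrev Q5 := Fin 5 → Fin 5 → Fin 5 → Fin 5 → ℝ

/-- symmetries of curvature tensors with indices in `Fin 5` -/
structure Cur5 (P : Q5) : Prop where
  a12 : ∀ i j k l, P j i k l = - P i j k l
  pair : ∀ i j k l, P k l i j = P i j k l
  bia : ∀ i j k l, P i j k l + P j k i l + P k i j l = 0

/-- alternating tensors with indices in `Fin 5` -/
structure Alt5 (Ω : Q5) : Prop where
  a12 : ∀ i j k l, Ω j i k l = - Ω i j k l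
  a23 : ∀ i j k l, Ω i k j l = - Ω i j k l
  a34 : ∀ i j k l, Ω i j l k = - Ω i j k l

/-- alternating functions of four indices in `Fin 5` -/
def AltF (Z : (Fin 4 → Fin 5) → ℝ) : Prop :=
  ∀ (F : Fin 4 → Fin 5) (π : Equiv.Perm (Fin 4)), Z (F ∘ π) = sn π * Z F

/-- the quadratic form of a pair of factors -/
def qf (K L : Q5) (Z : (Fin 4 → Fin 5) → ℝ) : ℝ :=
  ∑ F : Fin 4 → Fin 5, ∑ G : Fin 4 → Fin 5,
    K (F 0) (F 1) (G 0) (G 1) * L (F 2) (F 3) (G 2) (G 3) * (Z F * Z G)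

section comp

variable {m : ℕ}

/-- the tensor `K` has the components `K'` with respect to five vectors, whose pairings with the
basis vectors are given by `a` -/
def Fac5 (a : Fin m × Bool → Fin 5 → ℝ) (K : T4 m) (K' : Q5) : Prop :=
  ∀ i j k l, K i j k l = ∑ p, ∑ q, ∑ r, ∑ s, a i p * a j q * a k r * a l s * K' p q r s

/-- product of the pairings in the four slots of two places -/
noncomputable def awF (a : Fin m × Bool → Fin 5 → ℝ) (b₀ b₁ : Fin m) (F : Fin 4 → Fin 5)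
    (σ : Equiv.Perm (Fin m × Bool)) : ℝ :=
  ∏ i : Fin 4, a (σ (slot b₀ b₁ i)) (F i)

/-- mixed sum over the places of `S` with two weights -/
noncomputable def gmw2 (w w' : Equiv.Perm (Fin m × Bool) → ℝ) (S : Finset (Fin m))
    (C : Fin m → T4 m) : ℝ :=
  ∑ σ : Equiv.Perm (Fin m × Bool), ∑ τ : Equiv.Perm (Fin m × Bool), sn σ * sn τ *
    (w σ * w' τ * ∏ b ∈ S, C b (σ (b, false)) (σ (b, true)) (τ (b, false)) (τ (b, true)))

end comp

/-- EXP5: expansion of two factors -/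
def S_EXP5 : Prop :=
  ∀ (m : ℕ) (w : Equiv.Perm (Fin m × Bool) → ℝ) (S : Finset (Fin m)) (C : Fin m → T4 m)
    (a : Fin m × Bool → Fin 5 → ℝ) (K' L' : Q5) (b₀ b₁ : Fin m), b₀ ∈ S → b₁ ∈ S → b₁ ≠ b₀ →
    Fac5 a (C b₀) K' → Fac5 a (C b₁) L' →
      gmw w S C = ∑ F : Fin 4 → Fin 5, ∑ G : Fin 4 → Fin 5,
        K' (F 0) (F 1) (G 0) (G 1) * L' (F 2) (F 3) (G 2) (G 3) *
          gmw2 (fun σ => w σ * awF a b₀ b₁ F σ) (fun σ => w σ * awF a b₀ b₁ G σ)
            ((S.erase b₀).erase b₁) C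

/-- PSD5: a kernel which is nonnegative on alternating functions gives a sum of weights -/
def S_PSD5 : Prop :=
  ∀ (m : ℕ) (a : Fin m × Bool → Fin 5 → ℝ) (b₀ b₁ : Fin m)
    (T : (Fin 4 → Fin 5) → (Fin 4 → Fin 5) → ℝ), b₁ ≠ b₀ → (∀ F G, T F G = T G F) →
    (∀ Z : (Fin 4 → Fin 5) → ℝ, AltF Z → 0 ≤ ∑ F, ∑ G, T F G * (Z F * Z G)) →
    ∃ (n : ℕ) (v : Fin n → Equiv.Perm (Fin m × Bool) → ℝ),
      (∀ k (σ σ' : Equiv.Perm (Fin m × Bool)),
        (∀ i, σ (slot b₀ b₁ i) = σ' (slot b₀ b₁ i)) → v k σ = v k σ') ∧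
      ∀ (w : Equiv.Perm (Fin m × Bool) → ℝ) (S : Finset (Fin m)) (C : Fin m → T4 m),
        (∀ σ σ' : Equiv.Perm (Fin m × Bool),
          (∀ x : Fin m × Bool, x.1 ≠ b₀ → x.1 ≠ b₁ → σ x = σ' x) → w σ = w σ') →
        ∑ F : Fin 4 → Fin 5, ∑ G : Fin 4 → Fin 5,
          T F G * gmw2 (fun σ => w σ * awF a b₀ b₁ F σ) (fun σ => w σ * awF a b₀ b₁ G σ)
            ((S.erase b₀).erase b₁) C =
        ∑ k, gmw (fun σ => w σ * v k σ) ((S.erase b₀).erase b₁) C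

/-- VAN5: three factors which live on five vectors -/
def S_VAN5 : Prop :=
  ∀ (m : ℕ) (C : Fin m → T4 m) (a : Fin m × Bool → Fin 5 → ℝ) (K₀ K₁ K₂ : Q5) (b₀ b₁ b₂ : Fin m),
    b₁ ≠ b₀ → b₂ ≠ b₀ → b₂ ≠ b₁ → Fac5 a (C b₀) K₀ → Fac5 a (C b₁) K₁ → Fac5 a (C b₂) K₂ → gm C = 0

/-- DEC: alternating functions of four indices in `Fin 5` are decomposable -/
def S_DEC : Prop :=
  ∀ Z : (Fin 4 → Fin 5) → ℝ, AltF Z → ∃ v : Fin 4 → Fin 5 → ℝ, ∀ F : Fin 4 → Fin 5,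
    Z F = ∑ π : Equiv.Perm (Fin 4), sn π * ∏ i, v (π i) (F i)

/-- GOOD5: the two inequalities for the quadratic forms -/
def S_GOOD5 : Prop :=
  ∀ (P Ω : Q5) (n : ℕ) (μ : Fin n → Fin 5 → Fin 5 → ℝ), Cur5 P → Alt5 Ω →
    (∀ a i j, μ a j i = - μ a i j) →
    (∀ i j k l, P i j k l + Ω i j k l = ∑ a, μ a i j * μ a k l) →
    ∀ Z : (Fin 4 → Fin 5) → ℝ, AltF Z → 0 ≤ qf P P Z ∧
      2 * qf Ω Ω Z ≤ qf (fun i j k l => P i j k l + Ω i j k l)
        (fun i j k l => P i j k l + Ω i j k l) Z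

/-- VEC5: components of a strongly nonpositive tensor living on a subspace of dimension at most
five -/
def S_VEC5 : Prop :=
  ∀ (m : ℕ) (V : Type) [NormedAddCommGroup V] [InnerProductSpace ℝ V]
    (e : OrthonormalBasis (Fin m × Bool) ℝ V) (R : V → V → V → V → ℝ) (W : Submodule ℝ V),
    AlgCurv R → Module.finrank ℝ W ≤ 5 → LivesOn W R → Strong R →
    ∃ (a : Fin m × Bool → Fin 5 → ℝ) (P Ω : Q5) (n : ℕ) (μ : Fin n → Fin 5 → Fin 5 → ℝ),
      Fac5 a (cp e (negT R)) P ∧ Cur5 P ∧ Alt5 Ω ∧ (∀ a i j, μ a j i = - μ a i j) ∧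
      ∀ i j k l, P i j k l + Ω i j k l = ∑ a, μ a i j * μ a k l

/-- THS: nonpositive sectional curvature implies strong nonpositivity on subspaces of dimension at
most four -/
def S_THS : Prop :=
  ∀ (m : ℕ) (V : Type) [NormedAddCommGroup V] [InnerProductSpace ℝ V]
    (_ : OrthonormalBasis (Fin m × Bool) ℝ V) (R : V → V → V → V → ℝ) (W : Submodule ℝ V),
    AlgCurv R → Module.finrank ℝ W ≤ 4 → LivesOn W R → (∀ x y, R x y x y ≤ 0) → Strong R

end Pool.Agent.W669.HD
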