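import Pool.Agent.W669.HD.Two

/-!
# Strict inequality: statements
-/

set_option autoImplicit false

namespace Pool.Agent.W669.HD

open Pool.Agent.W666.GB Finset

/-- NF: normal form of skew matrices -/
def S_NF : Prop :=
  ∀ (m : ℕ) (η : Fin m × Bool → Fin m × Bool → ℝ), (∀ i j, η j i = - η i j) →
    ∃ (r : ℕ) (α β : Fin r → Fin m × Bool → ℝ), LinearIndependent ℝ (Sum.elim α β) ∧
      ∀ i j, η i j = ∑ b, (α b i * β b j - β b i * α b j)

/-- LIP: a linear space of skew matrices such that no decomposable bivector is orthogonal to all of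
them contains a nondegenerate matrix -/
def S_LIP : Prop :=
  ∀ (m n : ℕ) (ν : Fin n → Fin m × Bool → Fin m × Bool → ℝ), (∀ a i j, ν a j i = - ν a i j) →
    (∀ x y : Fin m × Bool → ℝ, LinearIndependent ℝ ![x, y] →
      ∃ a, ∑ i, ∑ j, ν a i j * (x i * y j) ≠ 0) →
    ∃ (t : Fin n → ℝ) (α β : Fin m → Fin m × Bool → ℝ), LinearIndependent ℝ (Sum.elim α β) ∧
      ∀ i j, ∑ a, t a * ν a i j = ∑ b, (α b i * β b j - β b i * α b j)

/-- ZF: the Pfaffian sum in normal form is not zero -/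
def S_ZF : Prop :=
  ∀ (m : ℕ) (α β : Fin m → Fin m × Bool → ℝ), LinearIndependent ℝ (Sum.elim α β) →
    ∑ σ : Equiv.Perm (Fin m × Bool), sn σ * ∏ b : Fin m, ∑ c,
      (α c (σ (b, false)) * β c (σ (b, true)) - β c (σ (b, false)) * α c (σ (b, true))) ≠ 0

end Pool.Agent.W669.HD
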