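import Pool.Agent.W669.HD.Stm2

/-!
# Two pieces of dimension four: the inequality in components
-/

set_option autoImplicit false

namespace Pool.Agent.W669.HD

open Pool.Agent.W666.GB Finset

variable {m : ℕ}

/-- linearity in the place `b` -/
theorem gm_lin (b : Fin m) {C C' C'' : Fin m → T4 m} (h' : ∀ b', b' ≠ b → C' b' = C b')
    (h'' : ∀ b', b' ≠ b → C'' b' = C b')
    (hb : ∀ i j k l, C b i j k l = C' b i j k l + C'' b i j k l) : gm C = gm C' + gm C'' := by
  simp only [gm]
  rw [← Finset.sum_add_distrib]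
  refine Finset.sum_congr rfl fun σ _ => ?_
  rw [← Finset.sum_add_distrib]
  refine Finset.sum_congr rfl fun τ _ => ?_
  have key : ∀ D : Fin m → T4 m, (∀ b', b' ≠ b → D b' = C b') →
      ∏ b', D b' (σ (b', false)) (σ (b', true)) (τ (b', false)) (τ (b', true)) =
      D b (σ (b, false)) (σ (b, true)) (τ (b, false)) (τ (b, true)) *
      ∏ b' ∈ univ.erase b, C b' (σ (b', false)) (σ (b', true)) (τ (b', false)) (τ (b', true)) := by
    intro D hD
    rw [← Finset.mul_prod_erase univ _ (Finset.mem_univ b)]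
    congr 1
    refine Finset.prod_congr rfl fun b' hb' => ?_
    rw [hD b' (Finset.ne_of_mem_erase hb')]
  rw [key C (fun _ _ => rfl), key C' h', key C'' h'', hb]
  ring

/-- sums of squares over the fixed index type `κ` -/
def SqOn (κ : Type) [Fintype κ] (K : T4 m) : Prop :=
  ∃ ν : κ → Fin m × Bool → Fin m × Bool → ℝ, ∀ i j k l, K i j k l = ∑ a, ν a i j * ν a k l

theorem gmw_nonneg {κ : Type} [Fintype κ] (w : Equiv.Perm (Fin m × Bool) → ℝ)
    (S : Finset (Fin m)) (C : Fin m → T4 m) (h : ∀ b ∈ S, SqOn κ (C b)) : 0 ≤ gmw w S C := by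
  classical
  choose! ν hν using h
  set ν' : Fin m → Option κ → Fin m × Bool → Fin m × Bool → ℝ := fun b a i j =>
    a.elim (if b ∈ S then 0 else 1) (fun a => if b ∈ S then ν b a i j else 0) with hν'
  have h0 : ∀ σ τ : Equiv.Perm (Fin m × Bool),
      ∏ b ∈ S, C b (σ (b, false)) (σ (b, true)) (τ (b, false)) (τ (b, true)) =
      ∏ b, ∑ a, ν' b a (σ (b, false)) (σ (b, true)) * ν' b a (τ (b, false)) (τ (b, true)) := by
    intro σ τ
    rw [← Finset.prod_subset (Finset.subset_univ S)]
    · refine Finset.prod_congr rfl fun b hb => ?_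
      rw [hν b hb, Fintype.sum_option]
      simp [hν', hb]
    · intro b _ hb
      rw [Fintype.sum_option]
      simp [hν', hb]
  have h1 : gmw w S C = ∑ c : Fin m → Option κ, (∑ σ : Equiv.Perm (Fin m × Bool),
      sn σ * (w σ * ∏ b, ν' b (c b) (σ (b, false)) (σ (b, true)))) ^ 2 := by
    simp only [gmw, h0]
    have h2 : ∀ σ τ : Equiv.Perm (Fin m × Bool), sn σ * sn τ * (w σ * w τ *
        ∏ b, ∑ a, ν' b a (σ (b, false)) (σ (b, true)) * ν' b a (τ (b, false)) (τ (b, true))) =
        ∑ c : Fin m → Option κ, (sn σ * (w σ * ∏ b, ν' b (c b) (σ (b, false)) (σ (b, true)))) *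
          (sn τ * (w τ * ∏ b, ν' b (c b) (τ (b, false)) (τ (b, true)))) := by
      intro σ τ
      rw [Fintype.prod_sum, Finset.mul_sum, Finset.mul_sum]
      refine Finset.sum_congr rfl fun c _ => ?_
      rw [Finset.prod_mul_distrib]; ring
    simp only [h2]
    rw [Finset.sum_congr rfl fun σ _ => Finset.sum_comm, Finset.sum_comm]
    refine Finset.sum_congr rfl fun c _ => ?_
    rw [sq, Finset.sum_mul_sum]
  rw [h1]
  exact Finset.sum_nonneg fun c _ => sq_nonneg _

theorem gm_eq_gmw (C : Fin m → T4 m) : gm C = gmw (fun _ => 1) univ C := by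
  simp only [gm, gmw, one_mul]

theorem gmw_congr (w : Equiv.Perm (Fin m × Bool) → ℝ) (S : Finset (Fin m)) {C C' : Fin m → T4 m}
    (h : ∀ b ∈ S, C b = C' b) : gmw w S C = gmw w S C' := by
  simp only [gmw]
  refine Finset.sum_congr rfl fun σ _ => Finset.sum_congr rfl fun τ _ => ?_
  congr 2
  exact Finset.prod_congr rfl fun b hb => by rw [h b hb]

theorem kap2_self (K : Q4) : kap2 K K = kap K := rfl

theorem aw_congr (a : Fin m × Bool → Fin 4 → ℝ) (b₀ b₁ : Fin m)
    {σ σ' : Equiv.Perm (Fin m × Bool)} (h : ∀ i : Fin 4, σ (slot b₀ b₁ i) = σ' (slot b₀ b₁ i)) :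
    aw a b₀ b₁ σ = aw a b₀ b₁ σ' := by
  unfold aw
  exact Finset.prod_congr rfl fun i _ => by rw [h i]

theorem mix_expand (K L N : T4 m) (S : Finset (Fin m)) :
    mix (fun i j k l => K i j k l + L i j k l) N S =
      ∑ T ∈ S.powerset, gm (fun b => if b ∈ T then K else if b ∈ S then L else N) := by
  classical
  simp only [mix, gm]
  symm
  rw [Finset.sum_comm]
  refine Finset.sum_congr rfl fun σ _ => ?_
  rw [Finset.sum_comm]
  refine Finset.sum_congr rfl fun τ _ => ?_
  rw [← Finset.mul_sum]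
  congr 1
  have h1 : ∀ f g : Fin m → T4 m, ∏ b, (if b ∈ S then f b else g b) (σ (b, false)) (σ (b, true))
      (τ (b, false)) (τ (b, true)) =
      (∏ b ∈ S, f b (σ (b, false)) (σ (b, true)) (τ (b, false)) (τ (b, true))) *
      ∏ b ∈ univ \ S, g b (σ (b, false)) (σ (b, true)) (τ (b, false)) (τ (b, true)) := by
    intro f g
    rw [← Finset.prod_sdiff (Finset.subset_univ S), mul_comm]
    congr 1
    · exact Finset.prod_congr rfl fun b hb => by rw [if_pos hb]
    · exact Finset.prod_congr rfl fun b hb => by rw [if_neg (Finset.mem_sdiff.mp hb).2]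
  rw [h1 (fun _ => fun i j k l => K i j k l + L i j k l) (fun _ => N), Finset.prod_add,
    Finset.sum_mul]
  refine Finset.sum_congr rfl fun T hT => ?_
  have hTS := Finset.mem_powerset.mp hT
  have h2 : ∀ b, (if b ∈ T then K else if b ∈ S then L else N) =
      (if b ∈ S then (if b ∈ T then K else L) else N) := by
    intro b
    by_cases hb : b ∈ T
    · simp [hb, hTS hb]
    · simp [hb]
  simp only [h2]
  rw [h1 (fun b => if b ∈ T then K else L) (fun _ => N)]
  congr 1
  rw [← Finset.prod_sdiff hTS, mul_comm]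
  congr 1
  · exact Finset.prod_congr rfl fun b hb => by rw [if_pos hb]
  · exact Finset.prod_congr rfl fun b hb => by rw [if_neg (Finset.mem_sdiff.mp hb).2]

section epsalt

open Pool.Agent.W976.HD

theorem epsZ12 : ∀ i j k l : Fin 4, epsZ j i k l = - epsZ i j k l := by
  decide +kernel

theorem epsZ23 : ∀ i j k l : Fin 4, epsZ i k j l = - epsZ i j k l := by
  decide +kernel

theorem eps12 (i j k l : Fin 4) : eps j i k l = - eps i j k l := by
  rw [eps_cast, eps_cast, epsZ12]; push_cast; rfl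

theorem eps23 (i j k l : Fin 4) : eps i k j l = - eps i j k l := by
  rw [eps_cast, eps_cast, epsZ23]; push_cast; rfl

theorem eps34 (i j k l : Fin 4) : eps i j l k = - eps i j k l := by
  rw [eps_cast, eps_cast, epsZ_anti]; push_cast; rfl

end epsalt

/-- the tensor with components `t * eps` -/
noncomputable def om (a : Fin m × Bool → Fin 4 → ℝ) (t : ℝ) : T4 m := fun i j k l =>
  ∑ p, ∑ q, ∑ r, ∑ s, a i p * a j q * a k r * a l s * (t * eps p q r s)

theorem om_fac (a : Fin m × Bool → Fin 4 → ℝ) (t : ℝ) :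
    Fac a (om a t) (fun i j k l => t * eps i j k l) := fun _ _ _ _ => rfl

theorem om_alt (a : Fin m × Bool → Fin 4 → ℝ) (t : ℝ) : Alt4 (om a t) where
  a12 i j k l := by
    simp only [om]
    rw [Finset.sum_comm, ← Finset.sum_neg_distrib]
    refine Finset.sum_congr rfl fun p _ => ?_
    rw [← Finset.sum_neg_distrib]
    refine Finset.sum_congr rfl fun q _ => ?_
    rw [← Finset.sum_neg_distrib]
    refine Finset.sum_congr rfl fun r _ => ?_
    rw [← Finset.sum_neg_distrib]
    refine Finset.sum_congr rfl fun s _ => ?_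
    rw [eps12 p q r s]
    ring
  a23 i j k l := by
    simp only [om]
    rw [← Finset.sum_neg_distrib]
    refine Finset.sum_congr rfl fun p _ => ?_
    rw [Finset.sum_comm, ← Finset.sum_neg_distrib]
    refine Finset.sum_congr rfl fun q _ => ?_
    rw [← Finset.sum_neg_distrib]
    refine Finset.sum_congr rfl fun r _ => ?_
    rw [← Finset.sum_neg_distrib]
    refine Finset.sum_congr rfl fun s _ => ?_
    rw [eps23 p q r s]
    ring
  a34 i j k l := by
    simp only [om]
    rw [← Finset.sum_neg_distrib]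
    refine Finset.sum_congr rfl fun p _ => ?_
    rw [← Finset.sum_neg_distrib]
    refine Finset.sum_congr rfl fun q _ => ?_
    rw [Finset.sum_comm, ← Finset.sum_neg_distrib]
    refine Finset.sum_congr rfl fun r _ => ?_
    rw [← Finset.sum_neg_distrib]
    refine Finset.sum_congr rfl fun s _ => ?_
    rw [eps34 p q r s]
    ring

theorem fac_sq {a : Fin m × Bool → Fin 4 → ℝ} {K : T4 m} {K' : Q4} (h : Fac a K K') {n : ℕ}
    (μ : Fin n → Fin 4 → Fin 4 → ℝ) (hμ : ∀ i j k l, K' i j k l = ∑ b, μ b i j * μ b k l) :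
    SqOn (Fin n) K := by
  refine ⟨fun b i j => ∑ p, ∑ q, a i p * a j q * μ b p q, fun i j k l => ?_⟩
  rw [h]
  simp only [hμ]
  have h1 : ∀ b, (∑ p, ∑ q, a i p * a j q * μ b p q) * (∑ r, ∑ s, a k r * a l s * μ b r s) =
      ∑ p, ∑ q, ∑ r, ∑ s, a i p * a j q * a k r * a l s * (μ b p q * μ b r s) := by
    intro b
    rw [Finset.sum_mul]
    refine Finset.sum_congr rfl fun p _ => ?_
    rw [Finset.sum_mul]
    refine Finset.sum_congr rfl fun q _ => ?_
    rw [Finset.mul_sum]
    refine Finset.sum_congr rfl fun r _ => ?_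
    rw [Finset.mul_sum]
    refine Finset.sum_congr rfl fun s _ => ?_
    ring
  simp only [h1]
  symm
  rw [Finset.sum_comm]
  refine Finset.sum_congr rfl fun p _ => ?_
  rw [Finset.sum_comm]
  refine Finset.sum_congr rfl fun q _ => ?_
  rw [Finset.sum_comm]
  refine Finset.sum_congr rfl fun r _ => ?_
  rw [Finset.sum_comm]
  refine Finset.sum_congr rfl fun s _ => ?_
  rw [Finset.mul_sum]

theorem SqOn.inl {κ κ' : Type} [Fintype κ] [Fintype κ'] {K : T4 m} (h : SqOn κ K) :
    SqOn (κ ⊕ κ') K := by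
  obtain ⟨ν, hν⟩ := h
  refine ⟨Sum.elim ν (fun _ _ _ => 0), fun i j k l => ?_⟩
  rw [Fintype.sum_sum_type, hν]
  simp

theorem SqOn.inr {κ κ' : Type} [Fintype κ] [Fintype κ'] {K : T4 m} (h : SqOn κ' K) :
    SqOn (κ ⊕ κ') K := by
  obtain ⟨ν, hν⟩ := h
  refine ⟨Sum.elim (fun _ _ _ => 0) ν, fun i j k l => ?_⟩
  rw [Fintype.sum_sum_type, hν]
  simp

/-- A piece of dimension four: `P` has the curvature symmetries and `P + Ω = K` with `Ω`
alternating and `K` a sum of squares, everything with components on four vectors. -/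
structure Piece (κ : Type) [Fintype κ] (a : Fin m × Bool → Fin 4 → ℝ) (P Ω K : T4 m)
    (P' Ω' K' : Q4) : Prop where
  cur : Cur P
  alt : Alt4 Ω
  sum : ∀ i j k l, K i j k l = P i j k l + Ω i j k l
  sq : SqOn κ K
  fP : Fac a P P'
  fΩ : Fac a Ω Ω'
  fK : Fac a K K'
  kP : 0 ≤ kap P'
  kΩ : 2 * kap Ω' ≤ kap K'

theorem exists_piece (hK4 : S_K4) (hSQ4 : S_SQ4) {a : Fin m × Bool → Fin 4 → ℝ} {P : T4 m}
    {P' : Q4} (hf : Fac a P P') (hP : Cur P) (hP' : Cur4 P') (hs : Sec4 P') :
    ∃ (n : ℕ) (Ω K : T4 m) (Ω' K' : Q4), Piece (Fin n) a P Ω K P' Ω' K' := by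
  obtain ⟨t, n, μ, hμ, hK⟩ := hSQ4 P' hP' hs
  have hk := hK4 P' (fun i j k l => P' i j k l + t * eps i j k l) t n μ hP'
    (fun _ _ _ _ => rfl) hμ hK
  have hfK : Fac a (fun i j k l => P i j k l + om a t i j k l)
      (fun i j k l => P' i j k l + t * eps i j k l) := by
    intro i j k l
    simp only [hf i j k l, om, ← Finset.sum_add_distrib, ← mul_add]
  refine ⟨n, om a t, fun i j k l => P i j k l + om a t i j k l, fun i j k l => t * eps i j k l,
    fun i j k l => P' i j k l + t * eps i j k l, hP, om_alt a t, fun _ _ _ _ => rfl,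
    fac_sq hfK μ hK, hf, om_fac a t, hfK, ?_, hk.2.1⟩
  rw [hk.1]
  linarith [hk.2.1, hk.2.2]

end Pool.Agent.W669.HD
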