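import Pool.Agent.W669.HD.TwoMain

/-!
# Two pieces of dimension four
-/

set_option autoImplicit false

namespace Pool.Agent.W669.HD

open Pool.Agent.W666.GB Finset

variable {m : ℕ}

theorem SqOn.fin {κ : Type} [Fintype κ] {K : T4 m} (h : SqOn κ K) :
    ∃ (n : ℕ) (ν : Fin n → Fin m × Bool → Fin m × Bool → ℝ),
      ∀ i j k l, K i j k l = ∑ a, ν a i j * ν a k l := by
  classical
  obtain ⟨ν, hν⟩ := h
  have eqv := (Fintype.equivFin κ).symm
  refine ⟨Fintype.card κ, fun a => ν (eqv a), fun i j k l => ?_⟩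
  rw [hν, ← Equiv.sum_comp eqv]

/-- The pointwise inequality for two pieces. -/
theorem two_pieces (hALT : S_ALT) (hDE : S_DE) (hFAC : S_FAC) (hVAN : S_VAN) (hK4 : S_K4)
    (hSQ4 : S_SQ4) (hVEC : S_VEC) {V : Type} [NormedAddCommGroup V] [InnerProductSpace ℝ V]
    (e : OrthonormalBasis (Fin m × Bool) ℝ V) {R₁ R₂ R₀ : V → V → V → V → ℝ}
    (W₁ W₂ : Submodule ℝ V) (h₁ : AlgCurv R₁) (h₂ : AlgCurv R₂) (h₀ : AlgCurv R₀)
    (hW₁ : Module.finrank ℝ W₁ ≤ 4) (hW₂ : Module.finrank ℝ W₂ ≤ 4)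
    (hl₁ : LivesOn W₁ R₁) (hl₂ : LivesOn W₂ R₂)
    (hs₁ : ∀ x y, R₁ x y x y ≤ 0) (hs₂ : ∀ x y, R₂ x y x y ≤ 0) {δ : ℝ} (hδ : 0 ≤ δ)
    (hn : OpNonneg (negT (addT R₀ fun x y z w => δ * unitT x y z w))) :
    roundGB m δ ≤ (-1) ^ m * gbc e (addT (addT R₁ R₂) R₀) := by
  classical
  rcases Nat.lt_or_ge m 2 with hm | hm
  · have hfr : Module.finrank ℝ (⊤ : Submodule ℝ V) ≤ 4 := by
      rw [finrank_top, Module.finrank_eq_card_basis e.toBasis, Fintype.card_prod,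
        Fintype.card_fin, Fintype.card_bool]
      omega
    refine sum_bound e ⊤ (add_curv h₁ h₂) h₀ hfr ?_ ?_ hδ hn
    · intro x hx y z w
      have : x = 0 := by simpa using hx
      rw [this]
      have h := (add_curv h₁ h₂).smul 0 0 y z w
      rwa [zero_smul, zero_mul] at h
    · intro x y
      have := hs₁ x y
      have := hs₂ x y
      simp only [addT]
      linarith
  obtain ⟨a₁, P₁', f₁, c₁, t₁⟩ := hVEC m V e R₁ W₁ hm h₁ hW₁ hl₁ hs₁
  obtain ⟨a₂, P₂', f₂, c₂, t₂⟩ := hVEC m V e R₂ W₂ hm h₂ hW₂ hl₂ hs₂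
  obtain ⟨n₁, Ω₁, K₁, Ω₁', K₁', p₁⟩ := exists_piece hK4 hSQ4 f₁ (cur_cp e h₁) c₁ t₁
  obtain ⟨n₂, Ω₂, K₂, Ω₂', K₂', p₂⟩ := exists_piece hK4 hSQ4 f₂ (cur_cp e h₂) c₂ t₂
  have hNb : BiForm (negT (addT R₀ fun x y z w => δ * unitT x y z w)) :=
    Pool.Agent.W150.HD.neg_bi (Pool.Agent.W150.HD.add_bi (Pool.Agent.W150.HD.curv_bi h₀)
      (unit_bi δ))
  obtain ⟨n, ν, hν, hNν⟩ := hNb.squares (fun i => e i) hn
  have hP₀ : ∀ i j k l, cp e (negT R₀) i j k l =
      δ * unitCurv i j k l + ∑ a, ν a i j * ν a k l := by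
    intro i j k l
    rw [← hNν i j k l, ← cp_unit e]
    simp only [cp, negT, addT]
    ring
  have hsq : SqOn (((Fin m × Bool) × (Fin m × Bool)) ⊕ Fin n) (cp e (negT R₀)) := by
    refine ⟨Sum.elim (ur δ) ν, fun i j k l => ?_⟩
    rw [hP₀, unit_squares hδ, Fintype.sum_sum_type]
    rfl
  obtain ⟨n₀, ν₀, hν₀⟩ := hsq.fin
  have hmain := two_main hALT hDE hFAC hVAN p₁ p₂ (cur_cp e h₀) ν₀ hν₀
  have hcp : (fun _ : Fin m => (fun i j k l => cp e (negT R₁) i j k l + cp e (negT R₂) i j k l +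
      cp e (negT R₀) i j k l : T4 m)) = fun _ : Fin m => cp e (negT (addT (addT R₁ R₂) R₀)) := by
    funext _ i j k l
    simp only [cp, negT, addT]
    ring
  rw [hcp] at hmain
  rw [gbc_eq]
  have hπ := Real.pi_pos
  have hc : 0 < 1 / ((8 * Real.pi) ^ m * (m.factorial : ℝ)) := by positivity
  have hr : roundGB m δ = 1 / ((8 * Real.pi) ^ m * m.factorial) *
      (2 ^ m * (δ ^ m * (2 * m).factorial)) := by
    unfold roundGB
    have : (8 * Real.pi) ^ m = 2 ^ m * (4 * Real.pi) ^ m := by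
      rw [← mul_pow]; congr 1; ring
    rw [this]
    field_simp
  rw [hr]
  refine mul_le_mul_of_nonneg_left (le_trans ?_ hmain) hc.le
  have hP₀' : (fun _ : Fin m => cp e (negT R₀)) = fun _ : Fin m =>
      (fun i j k l => δ * unitCurv i j k l + ∑ a, ν a i j * ν a k l : T4 m) := by
    funext _ i j k l
    exact hP₀ i j k l
  rw [hP₀', gm_add (m := m) (fun i j k l => δ * unitCurv i j k l)
    (fun i j k l => ∑ a, ν a i j * ν a k l), ← unit_gm]
  have h0 : ∀ S ∈ (univ : Finset (Fin m)).powerset,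
      0 ≤ mix (m := m) (fun i j k l => δ * unitCurv i j k l)
        (fun i j k l => ∑ a, ν a i j * ν a k l) S := fun S _ =>
    mix_nonneg (κ₂ := Fin n) (ur δ) (unit_squares hδ) ν (fun _ _ _ _ => rfl) S
  have h1 := Finset.single_le_sum h0 (Finset.mem_powerset.mpr (Finset.Subset.refl univ))
  refine le_trans (le_of_eq ?_) h1
  unfold mix
  simp only [Finset.mem_univ, if_true]

end Pool.Agent.W669.HD
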