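import Pool.Agent.W669.HD.Two

/-!
# Two pieces of dimension four: the sum over all places
-/

set_option autoImplicit false

namespace Pool.Agent.W669.HD

open Pool.Agent.W666.GB Finset

variable {m : ℕ}

/-- `X` in the place `b₀`, `Y` in the place `b₁`, `N` in the other places -/
def put (N : T4 m) (b₀ b₁ : Fin m) (X Y : T4 m) : Fin m → T4 m :=
  fun b => if b = b₀ then X else if b = b₁ then Y else N

theorem put_left {N : T4 m} {b₀ b₁ : Fin m} {X X' X'' Y : T4 m}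
    (h : ∀ i j k l, X i j k l = X' i j k l + X'' i j k l) :
    gm (put N b₀ b₁ X Y) = gm (put N b₀ b₁ X' Y) + gm (put N b₀ b₁ X'' Y) := by
  refine gm_lin b₀ ?_ ?_ ?_
  · intro b hb; simp only [put, if_neg hb]
  · intro b hb; simp only [put, if_neg hb]
  · intro i j k l; simp only [put, if_true]; exact h i j k l

theorem put_right {N : T4 m} {b₀ b₁ : Fin m} (hne : b₁ ≠ b₀) {X Y Y' Y'' : T4 m}
    (h : ∀ i j k l, Y i j k l = Y' i j k l + Y'' i j k l) :
    gm (put N b₀ b₁ X Y) = gm (put N b₀ b₁ X Y') + gm (put N b₀ b₁ X Y'') := by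
  refine gm_lin b₁ ?_ ?_ ?_
  · intro b hb; simp only [put, if_neg hb]
  · intro b hb; simp only [put, if_neg hb]
  · intro i j k l; simp only [put, if_neg hne, if_true]; exact h i j k l

theorem SqOn.add {κ κ' : Type} [Fintype κ] [Fintype κ'] {K L : T4 m} (h : SqOn κ K)
    (h' : SqOn κ' L) : SqOn (κ ⊕ κ') (fun i j k l => K i j k l + L i j k l) := by
  obtain ⟨ν, hν⟩ := h
  obtain ⟨ν', hν'⟩ := h'
  refine ⟨Sum.elim ν ν', fun i j k l => ?_⟩
  change K i j k l + L i j k l = _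
  rw [Fintype.sum_sum_type, hν, hν']
  rfl

theorem gm_sq {κ : Type} [Fintype κ] (C : Fin m → T4 m) (h : ∀ b, SqOn κ (C b)) : 0 ≤ gm C := by
  rw [gm_eq_gmw]
  exact gmw_nonneg (κ := κ) _ _ _ fun b _ => h b

theorem Cur.add {P Q : T4 m} (hP : Cur P) (hQ : Cur Q) :
    Cur (fun i j k l => P i j k l + Q i j k l) where
  a12 i j k l := by simp only [hP.a12 i j k l, hQ.a12 i j k l]; ring
  a34 i j k l := by simp only [hP.a34 i j k l, hQ.a34 i j k l]; ring
  bia i j k l := by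
    have h1 := hP.bia i j k l
    have h2 := hQ.bia i j k l
    linarith

theorem Alt4.add {P Q : T4 m} (hP : Alt4 P) (hQ : Alt4 Q) :
    Alt4 (fun i j k l => P i j k l + Q i j k l) where
  a12 i j k l := by simp only [hP.a12 i j k l, hQ.a12 i j k l]; ring
  a23 i j k l := by simp only [hP.a23 i j k l, hQ.a23 i j k l]; ring
  a34 i j k l := by simp only [hP.a34 i j k l, hQ.a34 i j k l]; ring

theorem Alt4.sub {P Q : T4 m} (hP : Alt4 P) (hQ : Alt4 Q) :
    Alt4 (fun i j k l => P i j k l - Q i j k l) where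
  a12 i j k l := by simp only [hP.a12 i j k l, hQ.a12 i j k l]; ring
  a23 i j k l := by simp only [hP.a23 i j k l, hQ.a23 i j k l]; ring
  a34 i j k l := by simp only [hP.a34 i j k l, hQ.a34 i j k l]; ring

section main

variable {κ₁ κ₂ : Type} [Fintype κ₁] [Fintype κ₂] {n₀ : ℕ} {P₀ P₁ P₂ Ω₁ Ω₂ K₁ K₂ : T4 m}
  {a₁ a₂ : Fin m × Bool → Fin 4 → ℝ} {P₁' P₂' Ω₁' Ω₂' K₁' K₂' : Q4}

/-- one piece twice: the value of a pair -/
theorem pair_val (hFAC : S_FAC) {κ : Type} [Fintype κ] {a : Fin m × Bool → Fin 4 → ℝ}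
    {P Ω K : T4 m} {P' Ω' K' : Q4} (h : Piece κ a P Ω K P' Ω' K') (h₀ : SqOn (Fin n₀) P₀)
    {b₀ b₁ : Fin m} (hne : b₁ ≠ b₀) :
    2 * gm (put P₀ b₀ b₁ Ω Ω) ≤ gm (put P₀ b₀ b₁ K K) := by
  have key : ∀ (X : T4 m) (X' : Q4), Fac a X X' → gm (put P₀ b₀ b₁ X X) =
      kap X' * gmw (fun σ => 1 * aw a b₀ b₁ σ) ((univ.erase b₀).erase b₁) (fun _ => P₀) := by
    intro X X' hX
    rw [gm_eq_gmw, hFAC m (fun _ => 1) univ (put P₀ b₀ b₁ X X) a X' X' b₀ b₁ (Finset.mem_univ _)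
      (Finset.mem_univ _) hne (fun _ _ _ => rfl) (by simpa [put] using hX)
      (by simpa [put, hne] using hX), kap2_self]
    congr 1
    refine gmw_congr _ _ fun b hb => ?_
    have h1 : b ≠ b₁ := Finset.ne_of_mem_erase hb
    have h0 : b ≠ b₀ := Finset.ne_of_mem_erase (Finset.mem_of_mem_erase hb)
    simp [put, h0, h1]
  rw [key K K' h.fK, key Ω Ω' h.fΩ]
  have hpos : 0 ≤ gmw (fun σ => 1 * aw a b₀ b₁ σ) ((univ.erase b₀).erase b₁)
      (fun _ : Fin m => P₀) := gmw_nonneg (κ := Fin n₀) _ _ _ fun _ _ => h₀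
  nlinarith [h.kΩ, hpos]

/-- two places -/
theorem two_places (hALT : S_ALT) (hDE : S_DE) (hFAC : S_FAC)
    (h₁ : Piece κ₁ a₁ P₁ Ω₁ K₁ P₁' Ω₁' K₁') (h₂ : Piece κ₂ a₂ P₂ Ω₂ K₂ P₂' Ω₂' K₂')
    (hP₀ : Cur P₀) (ν : Fin n₀ → Fin m × Bool → Fin m × Bool → ℝ)
    (hν : ∀ i j k l, P₀ i j k l = ∑ a, ν a i j * ν a k l) {b₀ b₁ : Fin m} (hne : b₁ ≠ b₀) :
    0 ≤ mix (fun i j k l => P₁ i j k l + P₂ i j k l) P₀ {b₀, b₁} := by
  classical
  set Q : T4 m := fun i j k l => P₁ i j k l + P₂ i j k l with hQ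
  set Ω : T4 m := fun i j k l => Ω₁ i j k l + Ω₂ i j k l with hΩ
  set K : T4 m := fun i j k l => K₁ i j k l + K₂ i j k l with hK
  set D : T4 m := fun i j k l => Ω₁ i j k l - Ω₂ i j k l with hD
  have hmix : ∀ X : T4 m, mix X P₀ {b₀, b₁} = gm (put P₀ b₀ b₁ X X) := by
    intro X
    unfold mix
    congr 1
    funext b
    by_cases h0 : b = b₀
    · simp [put, h0]
    · by_cases h1 : b = b₁
      · simp [put, h1]
      · simp [put, h0, h1]
  have cQ : Cur Q := h₁.cur.add h₂.cur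
  have aΩ : Alt4 Ω := h₁.alt.add h₂.alt
  have sK : ∀ i j k l, K i j k l = Q i j k l + Ω i j k l := by
    intro i j k l
    simp only [hK, hQ, hΩ, h₁.sum i j k l, h₂.sum i j k l]
    ring
  have z0 : gm (put P₀ b₀ b₁ Ω Q) = 0 := by
    refine hALT m _ b₀ (by simpa [put] using aΩ) ?_
    intro b hb
    by_cases h1 : b = b₁
    · simpa [put, h1, hne] using cQ
    · simpa [put, hb, h1] using hP₀
  have z1 : gm (put P₀ b₀ b₁ Q Ω) = 0 := by
    refine hALT m _ b₁ (by simpa [put, hne] using aΩ) ?_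
    intro b hb
    by_cases h1 : b = b₀
    · simpa [put, h1] using cQ
    · simpa [put, hb, h1] using hP₀
  have e1 := put_left (N := P₀) (b₀ := b₀) (b₁ := b₁) (Y := Q) sK
  have e2 := put_right (N := P₀) hne (X := K) sK
  have e3 := put_left (N := P₀) (b₀ := b₀) (b₁ := b₁) (Y := Ω) sK
  -- squares
  have e4 := put_left (N := P₀) (b₀ := b₀) (b₁ := b₁) (X := K) (X' := K₁) (X'' := K₂) (Y := K)
    (fun _ _ _ _ => rfl)
  have e5 := put_right (N := P₀) hne (X := K₁) (Y := K) (Y' := K₁) (Y'' := K₂)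
    (fun _ _ _ _ => rfl)
  have e6 := put_right (N := P₀) hne (X := K₂) (Y := K) (Y' := K₁) (Y'' := K₂)
    (fun _ _ _ _ => rfl)
  have s₀ : SqOn (Fin n₀) P₀ := ⟨ν, hν⟩
  have pos : ∀ X Y : T4 m, SqOn ((κ₁ ⊕ κ₂) ⊕ Fin n₀) X → SqOn ((κ₁ ⊕ κ₂) ⊕ Fin n₀) Y →
      0 ≤ gm (put P₀ b₀ b₁ X Y) := by
    intro X Y hX hY
    refine gm_sq (κ := (κ₁ ⊕ κ₂) ⊕ Fin n₀) _ fun b => ?_
    by_cases h0 : b = b₀
    · simpa [put, h0] using hX
    · by_cases h1 : b = b₁
      · simpa [put, h1, hne] using hY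
      · simpa [put, h0, h1] using s₀.inr
  have q1 : SqOn ((κ₁ ⊕ κ₂) ⊕ Fin n₀) K₁ := (h₁.sq.inl).inl
  have q2 : SqOn ((κ₁ ⊕ κ₂) ⊕ Fin n₀) K₂ := (h₂.sq.inr).inl
  have p12 := pos K₁ K₂ q1 q2
  have p21 := pos K₂ K₁ q2 q1
  -- alternating parts
  have f1 := put_left (N := P₀) (b₀ := b₀) (b₁ := b₁) (X := Ω) (X' := Ω₁) (X'' := Ω₂) (Y := Ω)
    (fun _ _ _ _ => rfl)
  have f2 := put_right (N := P₀) hne (X := Ω₁) (Y := Ω) (Y' := Ω₁) (Y'' := Ω₂)
    (fun _ _ _ _ => rfl)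
  have f3 := put_right (N := P₀) hne (X := Ω₂) (Y := Ω) (Y' := Ω₁) (Y'' := Ω₂)
    (fun _ _ _ _ => rfl)
  have g1 := put_left (N := P₀) (b₀ := b₀) (b₁ := b₁) (X := Ω₁) (X' := D) (X'' := Ω₂) (Y := D)
    (fun i j k l => by simp only [hD]; ring)
  have g2 := put_right (N := P₀) hne (X := Ω₁) (Y := Ω₁) (Y' := D) (Y'' := Ω₂)
    (fun i j k l => by simp only [hD]; ring)
  have g3 := put_right (N := P₀) hne (X := Ω₂) (Y := Ω₁) (Y' := D) (Y'' := Ω₂)
    (fun i j k l => by simp only [hD]; ring)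
  have hDpos : 0 ≤ gm (put P₀ b₀ b₁ D D) := by
    rw [← hmix]
    exact hDE m P₀ D n₀ ν hP₀ (h₁.alt.sub h₂.alt) hν b₀ b₁ hne
  have v1 := pair_val hFAC h₁ s₀ hne
  have v2 := pair_val hFAC h₂ s₀ hne
  rw [hmix]
  linarith

/-- one place -/
theorem one_place (hALT : S_ALT)
    (h₁ : Piece κ₁ a₁ P₁ Ω₁ K₁ P₁' Ω₁' K₁') (h₂ : Piece κ₂ a₂ P₂ Ω₂ K₂ P₂' Ω₂' K₂')
    (hP₀ : Cur P₀) (s₀ : SqOn (Fin n₀) P₀) (b₀ : Fin m) :
    0 ≤ mix (fun i j k l => P₁ i j k l + P₂ i j k l) P₀ {b₀} := by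
  classical
  have e1 := gm_lin (m := m) b₀
    (C := fun b => if b ∈ ({b₀} : Finset (Fin m)) then
      (fun i j k l => K₁ i j k l + K₂ i j k l) else P₀)
    (C' := fun b => if b ∈ ({b₀} : Finset (Fin m)) then
      (fun i j k l => P₁ i j k l + P₂ i j k l) else P₀)
    (C'' := fun b => if b ∈ ({b₀} : Finset (Fin m)) then
      (fun i j k l => Ω₁ i j k l + Ω₂ i j k l) else P₀)
    (fun b' hb' => by simp [hb']) (fun b' hb' => by simp [hb'])
    (fun i j k l => by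
      simp only [Finset.mem_singleton, if_true, h₁.sum i j k l, h₂.sum i j k l]
      ring)
  have z : gm (fun b => if b ∈ ({b₀} : Finset (Fin m)) then
      (fun i j k l => Ω₁ i j k l + Ω₂ i j k l) else P₀) = 0 := by
    refine hALT m _ b₀ (by simpa using h₁.alt.add h₂.alt) ?_
    intro b hb
    simpa [hb] using hP₀
  have pos : 0 ≤ gm (fun b => if b ∈ ({b₀} : Finset (Fin m)) then
      (fun i j k l => K₁ i j k l + K₂ i j k l) else P₀) := by
    refine gm_sq (κ := (κ₁ ⊕ κ₂) ⊕ Fin n₀) _ fun b => ?_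
    by_cases h0 : b = b₀
    · simpa [h0] using (h₁.sq.add h₂.sq).inl
    · simpa [h0] using s₀.inr
  unfold mix
  linarith

/-- two places with the first piece, one place with the second piece -/
theorem three_val (hALT : S_ALT) (hFAC : S_FAC) {κ : Type} [Fintype κ]
    {a : Fin m × Bool → Fin 4 → ℝ} {P Ω K : T4 m} {P' Ω' K' : Q4}
    (h : Piece κ a P Ω K P' Ω' K') {κ' : Type} [Fintype κ']
    {a' : Fin m × Bool → Fin 4 → ℝ} {R Θ L : T4 m} {R' Θ' L' : Q4}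
    (h' : Piece κ' a' R Θ L R' Θ' L') (hP₀ : Cur P₀) (s₀ : SqOn (Fin n₀) P₀)
    (C : Fin m → T4 m) {x y z : Fin m} (hxy : y ≠ x) (hxz : z ≠ x) (hyz : z ≠ y)
    (hx : C x = P) (hy : C y = P) (hz : C z = R) (hC : ∀ b, b ≠ x → b ≠ y → b ≠ z → C b = P₀) :
    0 ≤ gm C := by
  classical
  have e1 := gm_lin (m := m) z (C := Function.update C z L) (C' := C)
    (C'' := Function.update C z Θ)
    (fun b' hb' => by simp [hb']) (fun b' hb' => by simp [hb'])
    (fun i j k l => by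
      simp only [Function.update_self, hz]
      exact h'.sum i j k l)
  have z0 : gm (Function.update C z Θ) = 0 := by
    refine hALT m _ z (by simpa using h'.alt) ?_
    intro b hb
    rw [Function.update_of_ne hb]
    by_cases h1 : b = x
    · rw [h1, hx]; exact h.cur
    · by_cases h2 : b = y
      · rw [h2, hy]; exact h.cur
      · rw [hC b h1 h2 hb]; exact hP₀
  have pos : 0 ≤ gm (Function.update C z L) := by
    rw [gm_eq_gmw, hFAC m (fun _ => 1) univ (Function.update C z L) a P' P' x y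
      (Finset.mem_univ _) (Finset.mem_univ _) hxy (fun _ _ _ => rfl)
      (by rw [Function.update_of_ne hxz.symm, hx]; exact h.fP)
      (by rw [Function.update_of_ne hyz.symm, hy]; exact h.fP), kap2_self]
    refine mul_nonneg h.kP (gmw_nonneg (κ := κ' ⊕ Fin n₀) _ _ _ fun b hb => ?_)
    have h2 : b ≠ y := Finset.ne_of_mem_erase hb
    have h1 : b ≠ x := Finset.ne_of_mem_erase (Finset.mem_of_mem_erase hb)
    by_cases h3 : b = z
    · rw [h3, Function.update_self]; exact h'.sq.inl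
    · rw [Function.update_of_ne h3, hC b h1 h2 h3]; exact s₀.inr
  linarith

/-- two places with the first piece, two places with the second piece -/
theorem four_val (hFAC : S_FAC) {κ : Type} [Fintype κ]
    {a : Fin m × Bool → Fin 4 → ℝ} {P Ω K : T4 m} {P' Ω' K' : Q4}
    (h : Piece κ a P Ω K P' Ω' K') {κ' : Type} [Fintype κ']
    {a' : Fin m × Bool → Fin 4 → ℝ} {R Θ L : T4 m} {R' Θ' L' : Q4}
    (h' : Piece κ' a' R Θ L R' Θ' L') (s₀ : SqOn (Fin n₀) P₀)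
    (C : Fin m → T4 m) {x y z u : Fin m} (hxy : y ≠ x) (hxz : z ≠ x) (hyz : z ≠ y)
    (hxu : u ≠ x) (hyu : u ≠ y) (hzu : u ≠ z)
    (hx : C x = P) (hy : C y = P) (hz : C z = R) (hu : C u = R)
    (hC : ∀ b, b ≠ x → b ≠ y → b ≠ z → b ≠ u → C b = P₀) :
    0 ≤ gm C := by
  classical
  rw [gm_eq_gmw, hFAC m (fun _ => 1) univ C a P' P' x y
      (Finset.mem_univ _) (Finset.mem_univ _) hxy (fun _ _ _ => rfl)
      (by rw [hx]; exact h.fP) (by rw [hy]; exact h.fP), kap2_self]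
  refine mul_nonneg h.kP ?_
  rw [hFAC m _ ((univ.erase x).erase y) C a' R' R' z u
    (Finset.mem_erase.mpr ⟨hyz, Finset.mem_erase.mpr ⟨hxz, Finset.mem_univ _⟩⟩)
    (Finset.mem_erase.mpr ⟨hyu, Finset.mem_erase.mpr ⟨hxu, Finset.mem_univ _⟩⟩) hzu ?_
    (by rw [hz]; exact h'.fP) (by rw [hu]; exact h'.fP), kap2_self]
  · refine mul_nonneg h'.kP (gmw_nonneg (κ := Fin n₀) _ _ _ fun b hb => ?_)
    have h4 : b ≠ u := Finset.ne_of_mem_erase hb
    have hb := Finset.mem_of_mem_erase hb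
    have h3 : b ≠ z := Finset.ne_of_mem_erase hb
    have hb := Finset.mem_of_mem_erase hb
    have h2 : b ≠ y := Finset.ne_of_mem_erase hb
    have h1 : b ≠ x := Finset.ne_of_mem_erase (Finset.mem_of_mem_erase hb)
    rw [hC b h1 h2 h3 h4]
    exact s₀
  · intro σ σ' hσ
    simp only [one_mul]
    refine aw_congr a x y fun i => hσ _ ?_ ?_
    · fin_cases i <;> simp [slot, hxz.symm, hyz.symm]
    · fin_cases i <;> simp [slot, hxu.symm, hyu.symm]

/-- three or more places -/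
theorem many_places (hALT : S_ALT) (hFAC : S_FAC) (hVAN : S_VAN)
    (h₁ : Piece κ₁ a₁ P₁ Ω₁ K₁ P₁' Ω₁' K₁') (h₂ : Piece κ₂ a₂ P₂ Ω₂ K₂ P₂' Ω₂' K₂')
    (hP₀ : Cur P₀) (s₀ : SqOn (Fin n₀) P₀) {S : Finset (Fin m)} (hS : 3 ≤ S.card) :
    0 ≤ mix (fun i j k l => P₁ i j k l + P₂ i j k l) P₀ S := by
  classical
  rw [mix_expand]
  refine Finset.sum_nonneg fun T hT => ?_
  have hTS := Finset.mem_powerset.mp hT
  set C : Fin m → T4 m := fun b => if b ∈ T then P₁ else if b ∈ S then P₂ else P₀ with hC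
  have c1 : ∀ b, b ∈ T → C b = P₁ := fun b hb => by simp [hC, hb]
  have c2 : ∀ b, b ∈ S \ T → C b = P₂ := fun b hb => by
    have := Finset.mem_sdiff.mp hb
    simp [hC, this.1, this.2]
  have c0 : ∀ b, b ∉ T → b ∉ S \ T → C b = P₀ := fun b hb hb' => by
    have : b ∉ S := fun h => hb' (Finset.mem_sdiff.mpr ⟨h, hb⟩)
    simp [hC, this, hb]
  have hcard : (S \ T).card + T.card = S.card := Finset.card_sdiff_add_card_eq_card hTS
  have dis : ∀ x y, x ∈ T → y ∈ S \ T → y ≠ x := by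
    rintro x y hx hy rfl
    exact (Finset.mem_sdiff.mp hy).2 hx
  rcases Nat.lt_or_ge 2 T.card with ht | ht
  · obtain ⟨x, hx, y, hy, z, hz, hxy, hxz, hyz⟩ := Finset.two_lt_card.mp ht
    exact (hVAN m C a₁ P₁' P₁' P₁' x y z hxy.symm hxz.symm hyz.symm (by rw [c1 x hx]; exact h₁.fP)
      (by rw [c1 y hy]; exact h₁.fP) (by rw [c1 z hz]; exact h₁.fP)).ge
  rcases Nat.lt_or_ge 2 (S \ T).card with hu | hu
  · obtain ⟨x, hx, y, hy, z, hz, hxy, hxz, hyz⟩ := Finset.two_lt_card.mp hu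
    exact (hVAN m C a₂ P₂' P₂' P₂' x y z hxy.symm hxz.symm hyz.symm (by rw [c2 x hx]; exact h₂.fP)
      (by rw [c2 y hy]; exact h₂.fP) (by rw [c2 z hz]; exact h₂.fP)).ge
  have hcases : (T.card = 2 ∧ (S \ T).card = 1) ∨ (T.card = 1 ∧ (S \ T).card = 2) ∨
      (T.card = 2 ∧ (S \ T).card = 2) := by omega
  rcases hcases with ⟨ht, hu⟩ | ⟨ht, hu⟩ | ⟨ht, hu⟩
  · obtain ⟨x, y, hxy, hT2⟩ := Finset.card_eq_two.mp ht
    obtain ⟨z, hz⟩ := Finset.card_eq_one.mp hu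
    have mx : x ∈ T := by simp [hT2]
    have my : y ∈ T := by simp [hT2]
    have mz : z ∈ S \ T := by simp [hz]
    refine three_val hALT hFAC h₁ h₂ hP₀ s₀ C hxy.symm (dis x z mx mz) (dis y z my mz) (c1 x mx)
      (c1 y my) (c2 z mz) ?_
    intro b h1 h2 h3
    exact c0 b (by simp [hT2, h1, h2]) (by simp [hz, h3])
  · obtain ⟨x, y, hxy, hT2⟩ := Finset.card_eq_two.mp hu
    obtain ⟨z, hz⟩ := Finset.card_eq_one.mp ht
    have mx : x ∈ S \ T := by simp [hT2]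
    have my : y ∈ S \ T := by simp [hT2]
    have mz : z ∈ T := by simp [hz]
    refine three_val hALT hFAC h₂ h₁ hP₀ s₀ C hxy.symm (dis z x mz mx).symm (dis z y mz my).symm
      (c2 x mx) (c2 y my) (c1 z mz) ?_
    intro b h1 h2 h3
    exact c0 b (by simp [hz, h3]) (by simp [hT2, h1, h2])
  · obtain ⟨x, y, hxy, hT2⟩ := Finset.card_eq_two.mp ht
    obtain ⟨z, u, hzu, hz⟩ := Finset.card_eq_two.mp hu
    have mx : x ∈ T := by simp [hT2]
    have my : y ∈ T := by simp [hT2]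
    have mz : z ∈ S \ T := by simp [hz]
    have mu : u ∈ S \ T := by simp [hz]
    refine four_val hFAC h₁ h₂ s₀ C hxy.symm (dis x z mx mz) (dis y z my mz) (dis x u mx mu)
      (dis y u my mu) hzu.symm (c1 x mx) (c1 y my) (c2 z mz) (c2 u mu) ?_
    intro b h1 h2 h3 h4
    exact c0 b (by simp [hT2, h1, h2]) (by simp [hz, h3, h4])

/-- The inequality for two pieces, in components. -/
theorem two_main (hALT : S_ALT) (hDE : S_DE) (hFAC : S_FAC) (hVAN : S_VAN)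
    (h₁ : Piece κ₁ a₁ P₁ Ω₁ K₁ P₁' Ω₁' K₁') (h₂ : Piece κ₂ a₂ P₂ Ω₂ K₂ P₂' Ω₂' K₂')
    (hP₀ : Cur P₀) (ν : Fin n₀ → Fin m × Bool → Fin m × Bool → ℝ)
    (hν : ∀ i j k l, P₀ i j k l = ∑ a, ν a i j * ν a k l) :
    gm (fun _ : Fin m => P₀) ≤
      gm (fun _ : Fin m => (fun i j k l => P₁ i j k l + P₂ i j k l + P₀ i j k l : T4 m)) := by
  classical
  have e := gm_add (m := m) (fun i j k l => P₁ i j k l + P₂ i j k l) P₀
  have hmem : (∅ : Finset (Fin m)) ∈ (univ : Finset (Fin m)).powerset := by simp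
  rw [← Finset.add_sum_erase _ _ hmem, mix_empty] at e
  rw [e]
  have s₀ : SqOn (Fin n₀) P₀ := ⟨ν, hν⟩
  have hpos : 0 ≤ ∑ S ∈ ((univ : Finset (Fin m)).powerset).erase ∅,
      mix (fun i j k l => P₁ i j k l + P₂ i j k l) P₀ S := by
    refine Finset.sum_nonneg fun S hS => ?_
    have hne : S ≠ ∅ := Finset.ne_of_mem_erase hS
    have hcp : 0 < S.card := Finset.card_pos.mpr (Finset.nonempty_iff_ne_empty.mpr hne)
    rcases Nat.lt_or_ge S.card 2 with h1 | h1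
    · have hc : S.card = 1 := by omega
      obtain ⟨b, rfl⟩ := Finset.card_eq_one.mp hc
      exact one_place hALT h₁ h₂ hP₀ s₀ b
    · rcases Nat.lt_or_ge S.card 3 with h2 | h2
      · have hc : S.card = 2 := by omega
        obtain ⟨b₀, b₁, hne', rfl⟩ := Finset.card_eq_two.mp hc
        exact two_places hALT hDE hFAC h₁ h₂ hP₀ ν hν hne'.symm
      · exact many_places hALT hFAC hVAN h₁ h₂ hP₀ s₀ h2
  linarith

end main

end Pool.Agent.W669.HD
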